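import Mathlib

open MeasureTheory Set Filter Topology Metric Complex
open scoped Real

namespace Pool.Agent.Helper60

/-- Cauchy transform on the real line. -/
noncomputable def CT (g : ℝ → ℂ) (z : ℂ) : ℂ := (π : ℂ)⁻¹ * ∫ t : ℝ, g t / (z - t)

lemma im_le_norm_sub (z : ℂ) (t : ℝ) : z.im ≤ ‖z - t‖ := by
  have h := Complex.abs_im_le_norm (z - t)
  simp at h
  exact (le_abs_self _).trans h

lemma norm_sub_pos {z : ℂ} (hz : 0 < z.im) (t : ℝ) : 0 < ‖z - t‖ :=
  hz.trans_le (im_le_norm_sub z t)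

lemma sub_ne_zero_of_im {z : ℂ} (hz : 0 < z.im) (t : ℝ) : z - t ≠ 0 :=
  norm_pos_iff.1 (norm_sub_pos hz t)

lemma CT_kernel_cont {z : ℂ} (hz : 0 < z.im) : Continuous (fun t : ℝ => (z - t)⁻¹) := by
  apply Continuous.inv₀
  · fun_prop
  · intro t; exact sub_ne_zero_of_im hz t

lemma CT_kernel_norm_le {z : ℂ} (hz : 0 < z.im) (t : ℝ) : ‖(z - t)⁻¹‖ ≤ z.im⁻¹ := by
  rw [norm_inv]
  exact inv_anti₀ hz (im_le_norm_sub z t)

lemma CT_integrand_integrable {g : ℝ → ℂ} (hg : Integrable g) {z : ℂ} (hz : 0 < z.im) :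
    Integrable (fun t : ℝ => g t / (z - t)) := by
  simp only [div_eq_mul_inv]
  exact hg.mul_bdd (c := z.im⁻¹) (CT_kernel_cont hz).aestronglyMeasurable
    (Eventually.of_forall (CT_kernel_norm_le hz))

lemma CT_norm_le {g : ℝ → ℂ} (hg : Integrable g) {z : ℂ} (hz : 0 < z.im) :
    ‖CT g z‖ ≤ π⁻¹ * (z.im⁻¹ * ∫ t, ‖g t‖) := by
  unfold CT
  rw [norm_mul, norm_inv, Complex.norm_real, Real.norm_of_nonneg Real.pi_pos.le]
  gcongr
  rw [← integral_const_mul]
  refine (norm_integral_le_integral_norm _).trans ?_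
  apply integral_mono (CT_integrand_integrable hg hz).norm (hg.norm.const_mul _)
  intro t
  simp only [div_eq_mul_inv, norm_mul]
  rw [mul_comm]
  gcongr
  exact CT_kernel_norm_le hz t

lemma CT_differentiableAt {g : ℝ → ℂ} (hg : Integrable g) {z : ℂ} (hz : 0 < z.im) :
    DifferentiableAt ℂ (CT g) z := by
  have hs : {w : ℂ | z.im / 2 < w.im} ∈ 𝓝 z := by
    apply (isOpen_lt continuous_const Complex.continuous_im).mem_nhds
    show z.im / 2 < z.im; linarith
  have key := hasDerivAt_integral_of_dominated_loc_of_deriv_le (μ := volume) (𝕜 := ℂ)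
    (F := fun (w : ℂ) (t : ℝ) => g t / (w - t)) (x₀ := z)
    (F' := fun (w : ℂ) (t : ℝ) => - g t / (w - t) ^ 2)
    (bound := fun t => ‖g t‖ * ((z.im / 2)⁻¹) ^ 2) hs ?_ ?_ ?_ ?_ ?_ ?_
  · exact (key.2.differentiableAt).const_mul _
  · filter_upwards [hs] with w hw
    have hw' : 0 < w.im := lt_trans (by linarith) hw
    exact (CT_integrand_integrable hg hw').aestronglyMeasurable
  · exact CT_integrand_integrable hg hz
  · have h1 : Continuous (fun t : ℝ => ((z - t) ^ 2)⁻¹) := by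
      apply Continuous.inv₀ (by fun_prop)
      intro t; exact pow_ne_zero _ (sub_ne_zero_of_im hz t)
    have h2 : AEStronglyMeasurable (fun t : ℝ => - g t) volume := hg.1.neg
    exact (h2.mul h1.aestronglyMeasurable).congr
      (Eventually.of_forall fun t => by simp [div_eq_mul_inv])
  · refine Eventually.of_forall fun t w hw => ?_
    have hw0 : 0 < w.im := lt_trans (by linarith) hw
    have h1 := CT_kernel_norm_le hw0 t
    have h2 : w.im⁻¹ ≤ (z.im / 2)⁻¹ := inv_anti₀ (by linarith) (le_of_lt hw)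
    have h3 : ‖(w - t)⁻¹‖ ≤ (z.im / 2)⁻¹ := h1.trans h2
    rw [div_eq_mul_inv, norm_mul, norm_neg, ← inv_pow, norm_pow]
    gcongr
  · exact hg.norm.mul_const _
  · refine Eventually.of_forall fun t w hw => ?_
    have hw0 : 0 < w.im := lt_trans (by linarith) hw
    have hne := sub_ne_zero_of_im hw0 t
    have h1 : HasDerivAt (fun w : ℂ => w - (t : ℂ)) 1 w := (hasDerivAt_id w).sub_const _
    have h2 := (h1.inv hne).const_mul (g t)
    have h3 : -g t / (w - t) ^ 2 = g t * (-1 / (w - t) ^ 2) := by ring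
    show HasDerivAt (fun x : ℂ => g t / (x - t)) (-g t / (w - t) ^ 2) w
    rw [h3]
    simpa [div_eq_mul_inv] using h2

lemma CT_differentiableOn {g : ℝ → ℂ} (hg : Integrable g) :
    DifferentiableOn ℂ (CT g) {z | 0 < z.im} := fun _ hz =>
  (CT_differentiableAt hg hz).differentiableWithinAt

/-- The Cauchy transform tends to zero at infinity in `{im ≥ σ}`. -/
lemma CT_small {g : ℝ → ℂ} (hg : Integrable g) {σ : ℝ} (hσ : 0 < σ) :
    ∀ ε > 0, ∃ R : ℝ, ∀ z : ℂ, σ ≤ z.im → R ≤ ‖z‖ → ‖CT g z‖ ≤ ε := by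
  have hT : Tendsto (fun z : ℂ => ∫ t : ℝ, g t / (z - t))
      (comap norm atTop ⊓ 𝓟 {z : ℂ | σ ≤ z.im}) (𝓝 (∫ _ : ℝ, (0 : ℂ))) := by
    apply tendsto_integral_filter_of_dominated_convergence (fun t => ‖g t‖ * σ⁻¹)
    · have : ∀ᶠ z : ℂ in comap norm atTop ⊓ 𝓟 {z : ℂ | σ ≤ z.im}, σ ≤ z.im :=
        mem_inf_of_right (mem_principal_self _)
      filter_upwards [this] with z hz
      exact (CT_integrand_integrable hg (hσ.trans_le hz)).aestronglyMeasurable
    · have : ∀ᶠ z : ℂ in comap norm atTop ⊓ 𝓟 {z : ℂ | σ ≤ z.im}, σ ≤ z.im :=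
        mem_inf_of_right (mem_principal_self _)
      filter_upwards [this] with z hz
      refine Eventually.of_forall fun t => ?_
      rw [div_eq_mul_inv, norm_mul]
      gcongr
      exact (CT_kernel_norm_le (hσ.trans_le hz) t).trans (inv_anti₀ hσ hz)
    · exact hg.norm.mul_const _
    · refine Eventually.of_forall fun t => ?_
      have h1 : Tendsto (fun z : ℂ => ‖z - t‖) (comap norm atTop ⊓ 𝓟 {z : ℂ | σ ≤ z.im}) atTop := by
        have h2 : Tendsto (fun z : ℂ => ‖z‖ - ‖(t : ℂ)‖) (comap norm atTop) atTop :=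
          tendsto_atTop_add_const_right _ _ tendsto_comap
        exact (tendsto_atTop_mono (fun z : ℂ => norm_sub_norm_le z (t : ℂ)) h2).mono_left
          inf_le_left
      have h3 : Tendsto (fun z : ℂ => ‖g t‖ * ‖z - t‖⁻¹)
          (comap norm atTop ⊓ 𝓟 {z : ℂ | σ ≤ z.im}) (𝓝 (‖g t‖ * 0)) :=
        (tendsto_inv_atTop_zero.comp h1).const_mul _
      rw [mul_zero] at h3
      rw [tendsto_zero_iff_norm_tendsto_zero]
      simpa [div_eq_mul_inv, norm_mul, norm_inv] using h3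
  intro ε hε
  have hT' : Tendsto (fun z : ℂ => ‖CT g z‖)
      (comap norm atTop ⊓ 𝓟 {z : ℂ | σ ≤ z.im}) (𝓝 0) := by
    rw [← tendsto_zero_iff_norm_tendsto_zero]
    have h5 := hT.const_mul ((π : ℂ)⁻¹)
    rw [integral_zero, mul_zero] at h5
    exact h5
  have hev : ∀ᶠ z : ℂ in comap norm atTop ⊓ 𝓟 {z : ℂ | σ ≤ z.im}, ‖CT g z‖ < ε :=
    hT'.eventually (gt_mem_nhds hε)
  rw [Filter.eventually_inf_principal, Filter.eventually_comap] at hev
  obtain ⟨R, hR⟩ := Filter.eventually_atTop.1 hev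
  exact ⟨R, fun z hz hRz => (hR ‖z‖ hRz z rfl hz).le⟩

/-- Integrability of the square on horizontal lines. -/
lemma CT_sq_integrable {g : ℝ → ℂ} (hg : Integrable g) {σ : ℝ} (hσ : 0 < σ) :
    Integrable (fun x : ℝ => ‖CT g (x + σ * I)‖ ^ 2) := by
  have him : ∀ x : ℝ, ((x : ℂ) + σ * I).im = σ := by intro x; simp
  -- the majorant
  have hk : Integrable (fun x : ℝ => (x ^ 2 + σ ^ 2)⁻¹) := by
    have h1 := (integrable_inv_one_add_sq.comp_mul_right' (inv_ne_zero hσ.ne')).const_mul ((σ^2)⁻¹)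
    refine h1.congr (Eventually.of_forall fun x => ?_)
    simp only
    field_simp
    ring
  have hconv : Integrable (fun x : ℝ => ∫ t, ‖g t‖ * ((x - t) ^ 2 + σ ^ 2)⁻¹) := by
    have := hg.norm.integrable_convolution (ContinuousLinearMap.mul ℝ ℝ) hk
    exact this
  have hmaj := hconv.const_mul ((π⁻¹) ^ 2 * ∫ t, ‖g t‖)
  refine hmaj.mono' ?_ (Eventually.of_forall fun x => ?_)
  · have hc : Continuous (fun x : ℝ => CT g (x + σ * I)) := by
      have h1 : ContinuousOn (CT g) {z | 0 < z.im} := (CT_differentiableOn hg).continuousOn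
      rw [← continuousOn_univ]
      refine h1.comp (by fun_prop) ?_
      intro x _
      show 0 < ((x : ℂ) + σ * I).im
      rw [him]; exact hσ
    exact (hc.norm.pow 2).aestronglyMeasurable
  · rw [Real.norm_of_nonneg (by positivity)]
    set z : ℂ := (x : ℂ) + σ * I with hz
    have hzim : 0 < z.im := by rw [hz, him]; exact hσ
    have hnsq : ∀ t : ℝ, ‖z - t‖ ^ 2 = (x - t) ^ 2 + σ ^ 2 := by
      intro t
      rw [← Complex.normSq_eq_norm_sq, Complex.normSq_apply, hz]
      simp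
      ring
    -- Cauchy-Schwarz
    have hA : Integrable (fun t : ℝ => ‖g t‖ * ‖z - t‖⁻¹) := by
      have := (CT_integrand_integrable hg hzim).norm
      simpa [div_eq_mul_inv, norm_mul, norm_inv] using this
    have hB : Integrable (fun t : ℝ => ‖g t‖ * ((x - t) ^ 2 + σ ^ 2)⁻¹) := by
      have hcont : Continuous (fun t : ℝ => ((x - t) ^ 2 + σ ^ 2)⁻¹) := by
        apply Continuous.inv₀ (by fun_prop)
        intro t; positivity
      refine hg.norm.mul_bdd (c := (σ ^ 2)⁻¹) hcont.aestronglyMeasurable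
        (Eventually.of_forall fun t => ?_)
      rw [Real.norm_of_nonneg (by positivity)]
      apply inv_anti₀ (by positivity)
      nlinarith [sq_nonneg (x - t)]
    have hCS : (∫ t, ‖g t‖ * ‖z - t‖⁻¹) ^ 2 ≤
        (∫ t, ‖g t‖) * ∫ t, ‖g t‖ * ((x - t) ^ 2 + σ ^ 2)⁻¹ := by
      -- discriminant argument
      have hquad : ∀ s : ℝ, 0 ≤ (∫ t, ‖g t‖) * (s * s) +
          (-(2 * ∫ t, ‖g t‖ * ‖z - t‖⁻¹)) * s + ∫ t, ‖g t‖ * ((x - t) ^ 2 + σ ^ 2)⁻¹ := by
        intro s
        have h0 : 0 ≤ ∫ t, ‖g t‖ * (s - ‖z - t‖⁻¹) ^ 2 :=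
          integral_nonneg fun t => by positivity
        have h1 : (∫ t, ‖g t‖ * (s - ‖z - t‖⁻¹) ^ 2) =
            (∫ t, ‖g t‖ * (s * s)) - (∫ t, (2 * s) * (‖g t‖ * ‖z - t‖⁻¹)) +
              ∫ t, ‖g t‖ * ((x - t) ^ 2 + σ ^ 2)⁻¹ := by
          rw [← integral_sub (hg.norm.mul_const _) (hA.const_mul _)]
          rw [← integral_add (f := fun t => ‖g t‖ * (s * s) - (2 * s) * (‖g t‖ * ‖z - t‖⁻¹))
            ((hg.norm.mul_const _).sub (hA.const_mul _)) hB]
          congr 1
          ext t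
          rw [← hnsq t]
          have : ‖z - t‖ ≠ 0 := (norm_sub_pos hzim t).ne'
          field_simp
          ring
        rw [h1, integral_mul_const, integral_const_mul] at h0
        linarith
      have hd := discrim_le_zero hquad
      unfold discrim at hd
      nlinarith [hd]
    unfold CT
    rw [norm_mul, norm_inv, Complex.norm_real, Real.norm_of_nonneg Real.pi_pos.le, mul_pow,
      mul_assoc]
    gcongr
    refine le_trans ?_ hCS
    gcongr
    refine (norm_integral_le_integral_norm _).trans (le_of_eq ?_)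
    congr 1
    ext t
    rw [div_eq_mul_inv, norm_mul, norm_inv]

end Pool.Agent.Helper60
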