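import Mathlib

open Finset

namespace Pool.Agent.Helper60

/-- Choosing independent samples so that finitely many sums of bounded centred terms are all
small. -/
theorem exists_choice {ι K S : Type*} [Fintype ι] [DecidableEq ι] [Fintype K] [Nonempty K]
    (T : Finset S) (hT : T.Nonempty) (X : S → ι → K → ℝ) {b : ℝ} (hb : b ≤ 1)
    (hmean : ∀ s ∈ T, ∀ i, ∑ k, X s i k = 0) (hbd : ∀ s ∈ T, ∀ i k, |X s i k| ≤ b) :
    ∃ ω : ι → K, ∀ s ∈ T, ∑ i, X s i (ω i) ≤ Real.log T.card + Fintype.card ι * b ^ 2 := by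
  classical
  set B : ℝ := Real.exp (Fintype.card ι * b ^ 2) with hB
  have hcard : (0 : ℝ) < T.card := by exact_mod_cast hT.card_pos
  -- bound for one factor
  have h1 : ∀ s ∈ T, ∀ i, ∑ k, Real.exp (X s i k) ≤ Fintype.card K * Real.exp (b ^ 2) := by
    intro s hs i
    calc ∑ k, Real.exp (X s i k) ≤ ∑ k, (1 + X s i k + b ^ 2) := by
          apply Finset.sum_le_sum
          intro k _
          have h2 := hbd s hs i k
          have h3 := Real.abs_exp_sub_one_sub_id_le (h2.trans hb)
          rw [abs_le] at h3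
          have h4 : X s i k ^ 2 ≤ b ^ 2 := by
            rw [← sq_abs]
            gcongr
          linarith [h3.2]
      _ = Fintype.card K * (1 + b ^ 2) := by
          rw [Finset.sum_add_distrib, Finset.sum_add_distrib, hmean s hs i]
          simp
          ring
      _ ≤ Fintype.card K * Real.exp (b ^ 2) := by
          gcongr
          linarith [Real.add_one_le_exp (b ^ 2)]
  -- bound for the product
  have h2 : ∀ s ∈ T, ∑ ω : ι → K, Real.exp (∑ i, X s i (ω i)) ≤
      (Fintype.card K : ℝ) ^ (Fintype.card ι) * B := by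
    intro s hs
    calc ∑ ω : ι → K, Real.exp (∑ i, X s i (ω i)) = ∑ ω : ι → K, ∏ i, Real.exp (X s i (ω i)) := by
          simp_rw [Real.exp_sum]
      _ = ∏ i, ∑ k, Real.exp (X s i k) := by
          rw [Finset.prod_univ_sum, Fintype.piFinset_univ]
      _ ≤ ∏ _i : ι, ((Fintype.card K : ℝ) * Real.exp (b ^ 2)) := by
          apply Finset.prod_le_prod
          · intro i _
            exact Finset.sum_nonneg fun k _ => (Real.exp_pos _).le
          · intro i _; exact h1 s hs i
      _ = (Fintype.card K : ℝ) ^ (Fintype.card ι) * B := by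
          rw [Finset.prod_const, Finset.card_univ, mul_pow, hB, ← Real.exp_nat_mul]
  -- average
  have h3 : ∑ ω : ι → K, ∑ s ∈ T, Real.exp (∑ i, X s i (ω i)) ≤
      ∑ _ω : ι → K, T.card * B := by
    rw [Finset.sum_comm]
    calc ∑ s ∈ T, ∑ ω : ι → K, Real.exp (∑ i, X s i (ω i)) ≤
        ∑ s ∈ T, (Fintype.card K : ℝ) ^ (Fintype.card ι) * B := Finset.sum_le_sum h2
      _ = ∑ _ω : ι → K, T.card * B := by
          rw [Finset.sum_const, Finset.sum_const, Finset.card_univ, Fintype.card_fun]
          simp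
          ring
  have h3' : ∃ ω : ι → K, ∑ s ∈ T, Real.exp (∑ i, X s i (ω i)) ≤ T.card * B := by
    by_contra hcon
    push Not at hcon
    exact absurd h3 (not_le.2 (Finset.sum_lt_sum_of_nonempty Finset.univ_nonempty
      fun ω _ => hcon ω))
  obtain ⟨ω, hω⟩ := h3'
  refine ⟨ω, fun s hs => ?_⟩
  have h4 : Real.exp (∑ i, X s i (ω i)) ≤ T.card * B :=
    (Finset.single_le_sum (f := fun s => Real.exp (∑ i, X s i (ω i)))
      (fun _ _ => (Real.exp_pos _).le) hs).trans hω
  have h5 := Real.log_le_log (Real.exp_pos _) h4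
  rw [Real.log_exp, Real.log_mul hcard.ne' (Real.exp_pos _).ne', Real.log_exp] at h5
  exact h5

end Pool.Agent.Helper60
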