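import Mathlib

open MeasureTheory Set Filter Topology Metric Complex
open scoped Real Nat

namespace Pool.Agent.Helper60

/-- The entire function `w ↦ cos (√w)`. -/
noncomputable def Cf (w : ℂ) : ℂ := ∑' n : ℕ, (-1) ^ n * w ^ n / ((2 * n)! : ℂ)

lemma Cf_sq (ζ : ℂ) : Cf (ζ ^ 2) = Complex.cos ζ := by
  unfold Cf
  rw [Complex.cos_eq_tsum]
  congr 1
  ext n
  rw [← pow_mul]

lemma exists_sq (w : ℂ) : ∃ ζ : ℂ, ζ ^ 2 = w := IsAlgClosed.exists_pow_nat_eq w two_pos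

lemma Cf_differentiable : Differentiable ℂ Cf := by
  intro w
  have h : DifferentiableOn ℂ Cf (ball 0 (‖w‖ + 1)) := by
    unfold Cf
    refine differentiableOn_tsum_of_summable_norm
      (u := fun n : ℕ => (Real.sqrt (‖w‖ + 1)) ^ (2 * n) / ((2 * n)! : ℝ))
      (Real.hasSum_cosh _).summable ?_ isOpen_ball ?_
    · intro n
      apply DifferentiableOn.div_const
      exact ((differentiable_id.pow n).const_mul _).differentiableOn
    · intro n z hz
      rw [mem_ball_zero_iff] at hz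
      rw [norm_div, norm_mul, norm_pow, norm_neg, norm_one, one_pow, one_mul, norm_pow,
        Complex.norm_natCast, pow_mul, Real.sq_sqrt (by positivity)]
      gcongr
  exact h.differentiableAt (isOpen_ball.mem_nhds (by simp))

lemma Cf_continuous : Continuous Cf := Cf_differentiable.continuous

lemma Cf_zero : Cf 0 = 1 := by
  have := Cf_sq 0
  simpa using this

/-- `‖cos ζ - 1‖ ≤ cosh ‖ζ‖ - 1`. -/
lemma norm_cos_sub_one_le (ζ : ℂ) : ‖Complex.cos ζ - 1‖ ≤ Real.cosh ‖ζ‖ - 1 := by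
  have h1 := Complex.hasSum_cos ζ
  have h2 := Real.hasSum_cosh ‖ζ‖
  have h1' := (hasSum_nat_add_iff' 1).2 h1
  have h2' := (hasSum_nat_add_iff' 1).2 h2
  simp only [Finset.range_one, Finset.sum_singleton, pow_zero, mul_zero, Nat.factorial_zero,
    Nat.cast_one, div_one, mul_one] at h1' h2'
  rw [← h1'.tsum_eq, ← h2'.tsum_eq]
  have hn : ∀ n : ℕ, ‖(-1 : ℂ) ^ (n + 1) * ζ ^ (2 * (n + 1)) / ((2 * (n + 1))! : ℂ)‖ =
      ‖ζ‖ ^ (2 * (n + 1)) / ((2 * (n + 1))! : ℝ) := by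
    intro n
    rw [norm_div, norm_mul, norm_pow, norm_neg, norm_one, one_pow, one_mul, norm_pow,
      Complex.norm_natCast]
  refine (norm_tsum_le_tsum_norm ?_).trans (le_of_eq ?_)
  · simp_rw [hn]; exact h2'.summable
  · simp_rw [hn]

/-- `cosh x - 1 ≤ (x^2 / 2) cosh x`. -/
lemma cosh_sub_one_le (x : ℝ) : Real.cosh x - 1 ≤ x ^ 2 / 2 * Real.cosh x := by
  have h2 := Real.hasSum_cosh x
  have h2' := (hasSum_nat_add_iff' 1).2 h2
  simp only [Finset.range_one, Finset.sum_singleton, pow_zero, mul_zero, Nat.factorial_zero,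
    Nat.cast_one, div_one] at h2'
  have h3 := h2.mul_left (x ^ 2 / 2)
  refine hasSum_le (fun n => ?_) h2' h3
  have hx : 0 ≤ x ^ (2 * n) := by rw [pow_mul]; positivity
  have hfac : ((2 * (n + 1))! : ℝ) ≥ 2 * ((2 * n)! : ℝ) := by
    have : (2 * (n + 1))! = (2 * n + 2) * ((2 * n + 1) * (2 * n)!) := by
      rw [show 2 * (n + 1) = (2 * n + 1) + 1 by ring, Nat.factorial_succ, Nat.factorial_succ]
    rw [this]
    push_cast
    have h5 : (0 : ℝ) < ((2 * n)! : ℝ) := by exact_mod_cast Nat.factorial_pos _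
    have h6 : (0 : ℝ) ≤ n := Nat.cast_nonneg n
    nlinarith [mul_nonneg h6 h5.le, mul_nonneg (mul_nonneg h6 h6) h5.le]
  have hpos : (0 : ℝ) < ((2 * n)! : ℝ) := by exact_mod_cast Nat.factorial_pos _
  calc x ^ (2 * (n + 1)) / ((2 * (n + 1))! : ℝ)
      = x ^ 2 * x ^ (2 * n) / ((2 * (n + 1))! : ℝ) := by ring
    _ ≤ x ^ 2 * x ^ (2 * n) / (2 * ((2 * n)! : ℝ)) := by
        apply div_le_div_of_nonneg_left (by positivity) (by positivity) hfac
    _ = x ^ 2 / 2 * (x ^ (2 * n) / ((2 * n)! : ℝ)) := by field_simp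

/-- `cosh (r Y) - 1 ≤ Y^2 (cosh r - 1)` for `|Y| ≤ 1`. -/
lemma cosh_mul_sub_one_le (r : ℝ) {Y : ℝ} (hY : |Y| ≤ 1) :
    Real.cosh (r * Y) - 1 ≤ Y ^ 2 * (Real.cosh r - 1) := by
  have h1 := (hasSum_nat_add_iff' 1).2 (Real.hasSum_cosh (r * Y))
  have h2 := ((hasSum_nat_add_iff' 1).2 (Real.hasSum_cosh r)).mul_left (Y ^ 2)
  simp only [Finset.range_one, Finset.sum_singleton, pow_zero, mul_zero, Nat.factorial_zero,
    Nat.cast_one, div_one] at h1 h2
  refine hasSum_le (fun n => ?_) h1 h2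
  have hY2 : Y ^ 2 ≤ 1 := by rw [← sq_abs]; exact pow_le_one₀ (abs_nonneg _) hY
  have h3 : (Y ^ 2) ^ n ≤ 1 := pow_le_one₀ (sq_nonneg _) hY2
  have hr : 0 ≤ r ^ (2 * (n + 1)) := by rw [pow_mul]; positivity
  have h4 : (r * Y) ^ (2 * (n + 1)) = r ^ (2 * (n + 1)) * Y ^ 2 * (Y ^ 2) ^ n := by ring
  rw [h4, ← mul_div_assoc]
  apply div_le_div_of_nonneg_right _ (by positivity)
  calc r ^ (2 * (n + 1)) * Y ^ 2 * (Y ^ 2) ^ n ≤ r ^ (2 * (n + 1)) * Y ^ 2 * 1 := by gcongr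
    _ = Y ^ 2 * r ^ (2 * (n + 1)) := by ring

/-- real part of cosine -/
lemma cos_re (x y : ℝ) : (Complex.cos (x + y * I)).re = Real.cos x * Real.cosh y := by
  rw [Complex.cos_add_mul_I]
  simp [← Complex.ofReal_cos, ← Complex.ofReal_cosh, ← Complex.ofReal_sin, ← Complex.ofReal_sinh]

lemma Cf_re (r : ℝ) (ζ : ℂ) :
    (Cf ((r : ℂ) ^ 2 * ζ ^ 2)).re = Real.cos (r * ζ.re) * Real.cosh (r * ζ.im) := by
  rw [← mul_pow, Cf_sq, ← cos_re]
  congr 2
  apply Complex.ext <;> simp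

lemma cosh_mul_le {r Y : ℝ} (hY : |Y| ≤ 1) : Real.cosh (r * Y) ≤ Real.cosh r := by
  rw [Real.cosh_le_cosh, abs_mul]
  exact mul_le_of_le_one_right (abs_nonneg _) hY

end Pool.Agent.Helper60
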