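import Pool.Agent.Helper60.MaxPrinciple
import Pool.Agent.Helper60.Cauchy

open MeasureTheory Set Filter Topology Metric Complex
open scoped Real
open Real (circleAverage circleAverage_congr_sphere circleAverage_fun_smul
  circleAverage_fun_sub circleAverage_const)

namespace Pool.Agent.Helper60

/-- Poisson kernel. -/
noncomputable def pk (τ s : ℝ) : ℝ := π⁻¹ * (τ / (s ^ 2 + τ ^ 2))

lemma pk_nonneg {τ : ℝ} (hτ : 0 ≤ τ) (s : ℝ) : 0 ≤ pk τ s := by
  unfold pk; positivity

/-- Substitution `t = x - τ u` in Poisson integrals. -/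
lemma pk_subst (g : ℝ → ℝ) (x : ℝ) {τ : ℝ} (hτ : 0 < τ) :
    ∫ t, pk τ (x - t) * g t = ∫ u, (π⁻¹ * (1 + u ^ 2)⁻¹) * g (x - τ * u) := by
  have h1 := MeasureTheory.integral_sub_left_eq_self (fun t => pk τ (x - t) * g t) volume x
  rw [← h1]
  simp only [sub_sub_cancel]
  have h2 := MeasureTheory.Measure.integral_comp_mul_left (fun t => pk τ t * g (x - t)) τ
  rw [abs_inv, abs_of_pos hτ, smul_eq_mul] at h2
  have h3 : ∫ y, pk τ y * g (x - y) = τ * ∫ u, pk τ (τ * u) * g (x - τ * u) := by
    rw [h2]; field_simp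
  rw [h3, ← integral_const_mul]
  congr 1
  ext u
  unfold pk
  field_simp
  ring

lemma pk_integral (x : ℝ) {τ : ℝ} (hτ : 0 < τ) : ∫ t, pk τ (x - t) = 1 := by
  have h := pk_subst (fun _ => 1) x hτ
  simp only [mul_one] at h
  rw [h, integral_const_mul, integral_univ_inv_one_add_sq]
  field_simp

lemma pk_integrable (x : ℝ) {τ : ℝ} (hτ : 0 < τ) : Integrable (fun t => pk τ (x - t)) := by
  by_contra h
  have := integral_undef h
  rw [pk_integral x hτ] at this
  exact one_ne_zero this

/-- Imaginary part of the Cauchy transform of a real function. -/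
lemma CT_im {g : ℝ → ℝ} (hg : Integrable g) {w : ℂ} (hw : 0 < w.im) :
    (CT (fun t => (g t : ℂ)) w).im = - ∫ t, pk w.im (w.re - t) * g t := by
  unfold CT
  have hgC : Integrable (fun t => (g t : ℂ)) := hg.ofReal
  have h1 : ((π : ℂ)⁻¹ * ∫ t : ℝ, (g t : ℂ) / (w - t)).im =
      π⁻¹ * (∫ t : ℝ, (g t : ℂ) / (w - t)).im := by
    rw [← Complex.ofReal_inv, Complex.im_ofReal_mul]
  rw [h1]
  have h2 : (∫ t : ℝ, (g t : ℂ) / (w - t)).im = ∫ t : ℝ, ((g t : ℂ) / (w - t)).im := by
    have := (integral_im (CT_integrand_integrable hgC hw))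
    exact this.symm
  rw [h2, ← integral_const_mul, ← integral_neg]
  congr 1
  ext t
  unfold pk
  have hn : Complex.normSq (w - t) = (w.re - t) ^ 2 + w.im ^ 2 := by
    rw [Complex.normSq_apply]; simp; ring
  rw [Complex.div_im, hn]
  simp
  ring

variable {g : ℝ → ℝ} {σ : ℝ}

/-- The Poisson extension written with the substitution. -/
noncomputable def vext (g : ℝ → ℝ) (σ : ℝ) (z : ℂ) : ℝ :=
  ∫ u : ℝ, (π⁻¹ * (1 + u ^ 2)⁻¹) * g (z.re - (z.im - σ) * u)

lemma vext_continuous (hg : Continuous g) {M : ℝ} (hM : ∀ x, |g x| ≤ M) :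
    Continuous (vext g σ) := by
  unfold vext
  apply continuous_of_dominated (bound := fun u => (π⁻¹ * (1 + u ^ 2)⁻¹) * M)
  · intro z
    apply Continuous.aestronglyMeasurable
    apply Continuous.mul
    · apply Continuous.mul continuous_const
      apply Continuous.inv₀ (by fun_prop)
      intro u; positivity
    · exact hg.comp (by fun_prop)
  · intro z
    refine Eventually.of_forall fun u => ?_
    rw [norm_mul, Real.norm_of_nonneg (by positivity)]
    have := hM (z.re - (z.im - σ) * u)
    rw [Real.norm_eq_abs]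
    gcongr
  · exact (integrable_inv_one_add_sq.const_mul _).mul_const _
  · refine Eventually.of_forall fun u => ?_
    apply Continuous.mul continuous_const
    exact hg.comp (by fun_prop)

lemma vext_boundary {z : ℂ} (hz : z.im = σ) : vext g σ z = g z.re := by
  unfold vext
  simp only [hz, sub_self, zero_mul, sub_zero]
  rw [integral_mul_const, integral_const_mul, integral_univ_inv_one_add_sq]
  field_simp

lemma vext_eq_pk {z : ℂ} (hz : σ < z.im) :
    vext g σ z = ∫ t, pk (z.im - σ) (z.re - t) * g t := by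
  rw [pk_subst g z.re (sub_pos.2 hz)]
  rfl

lemma vext_eq_CT (hgi : Integrable g) {z : ℂ} (hz : σ < z.im) :
    vext g σ z = - (CT (fun t => (g t : ℂ)) (z - σ * I)).im := by
  have him : (z - σ * I).im = z.im - σ := by simp
  have hre : (z - σ * I).re = z.re := by simp
  rw [CT_im hgi (by rw [him]; linarith), vext_eq_pk hz, him, hre, neg_neg]

/-- mean value property of the Poisson extension -/
lemma vext_mean (hgi : Integrable g) {z : ℂ} {r : ℝ} (hr : 0 < r) (hz : σ < z.im - r) :
    circleAverage (vext g σ) z r = vext g σ z := by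
  have hball : ∀ w ∈ closedBall z r, σ < w.im := by
    intro w hw
    rw [mem_closedBall, dist_eq_norm] at hw
    have h1 : |(w - z).im| ≤ r := (Complex.abs_im_le_norm _).trans hw
    rw [Complex.sub_im, abs_le] at h1
    linarith [h1.1]
  set F : ℂ → ℂ := fun w => CT (fun t => (g t : ℂ)) (w - σ * I) with hF
  have hgC : Integrable (fun t => (g t : ℂ)) := hgi.ofReal
  have hFd : ∀ w ∈ closedBall z r, DifferentiableAt ℂ F w := by
    intro w hw
    have h1 : 0 < (w - σ * I).im := by
      have := hball w hw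
      simp; linarith
    have h2 : DifferentiableAt ℂ (fun w : ℂ => w - σ * I) w := by fun_prop
    exact DifferentiableAt.comp (g := CT (fun t => (g t : ℂ))) w (CT_differentiableAt hgC h1) h2
  have hFcont : ContinuousOn F (closedBall z r) :=
    fun w hw => (hFd w hw).continuousAt.continuousWithinAt
  have hdc : DiffContOnCl ℂ F (ball z |r|) := by
    rw [abs_of_pos hr]
    refine ⟨fun w hw => (hFd w (ball_subset_closedBall hw)).differentiableWithinAt, ?_⟩
    rw [closure_ball _ hr.ne']
    exact hFcont
  have h2 : circleAverage F z r = F z := hdc.circleAverage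
  have hci : CircleIntegrable F z r :=
    ContinuousOn.circleIntegrable hr.le (hFcont.mono sphere_subset_closedBall)
  have h3 := (Complex.imCLM).circleAverage_comp_comm hci
  have h4 : circleAverage (vext g σ) z r = circleAverage (fun w => - (F w).im) z r := by
    apply circleAverage_congr_sphere
    intro w hw
    rw [abs_of_pos hr] at hw
    exact vext_eq_CT hgi (hball w (sphere_subset_closedBall hw))
  rw [h4, vext_eq_CT hgi (hball z (mem_closedBall_self hr.le))]
  have h5 : circleAverage (fun w => - (F w).im) z r = - circleAverage (fun w => (F w).im) z r := by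
    have := circleAverage_fun_smul (a := (-1 : ℝ)) (f := fun w => (F w).im) (c := z) (R := r)
    simpa using this
  rw [h5]
  have h6 : circleAverage (fun w => (F w).im) z r = (F z).im := by
    rw [h2] at h3
    exact h3
  rw [h6]

/-- Decay of the Poisson extension at infinity. -/
lemma vext_small (hgi : Integrable g) 
    (hg0 : ∀ ε > 0, ∃ R, ∀ x : ℝ, R ≤ |x| → |g x| ≤ ε) :
    ∀ ε > 0, ∃ R : ℝ, ∀ z : ℂ, σ ≤ z.im → R ≤ ‖z‖ → |vext g σ z| ≤ ε := by
  intro ε hε
  obtain ⟨R₁, hR₁⟩ := hg0 (ε / 2) (by positivity)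
  set R₂ := max R₁ 1 with hR₂
  set N := ∫ t, |g t| with hN
  have hN0 : 0 ≤ N := integral_nonneg fun t => abs_nonneg _
  set L := π⁻¹ * N / (ε / 2) + 1 with hL
  have hL1 : 1 ≤ L := by
    rw [hL]; have : 0 ≤ π⁻¹ * N / (ε / 2) := by positivity
    linarith
  refine ⟨R₂ + L + |σ| , fun z hz hzR => ?_⟩
  have hR₂1 : 1 ≤ R₂ := le_max_right _ _
  rcases hz.eq_or_lt with h | h
  · -- boundary
    rw [vext_boundary h.symm]
    have h1 : ‖z‖ ≤ |z.re| + |z.im| := Complex.norm_le_abs_re_add_abs_im z
    rw [← h] at h1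
    have h2 : R₁ ≤ |z.re| := by
      have : R₁ ≤ R₂ := le_max_left _ _
      linarith
    exact (hR₁ _ h2).trans (by linarith)
  · -- interior
    set w : ℂ := z - σ * I with hw
    have hwim : w.im = z.im - σ := by rw [hw]; simp
    have hwre : w.re = z.re := by rw [hw]; simp
    have hτ : 0 < w.im := by rw [hwim]; linarith
    have hwn : R₂ + L ≤ ‖w‖ := by
      have h1 : ‖z‖ ≤ ‖w‖ + ‖(σ : ℂ) * I‖ := by
        have : z = w + σ * I := by rw [hw]; ring
        calc ‖z‖ = ‖w + σ * I‖ := by rw [← this]
          _ ≤ _ := norm_add_le _ _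
      have h2 : ‖(σ : ℂ) * I‖ = |σ| := by simp
      rw [h2] at h1
      linarith
    rw [vext_eq_pk h, ← hwim, ← hwre]
    have hpoint : ∀ t, ‖pk w.im (w.re - t) * g t‖ ≤
        pk w.im (w.re - t) * (ε / 2) + π⁻¹ * L⁻¹ * |g t| := by
      intro t
      rw [norm_mul, Real.norm_of_nonneg (pk_nonneg hτ.le _), Real.norm_eq_abs]
      by_cases ht : R₁ ≤ |t|
      · have h1 := hR₁ t ht
        have h2 : pk w.im (w.re - t) * |g t| ≤ pk w.im (w.re - t) * (ε / 2) := by
          gcongr
          exact pk_nonneg hτ.le _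
        have h3 : 0 ≤ π⁻¹ * L⁻¹ * |g t| := by positivity
        linarith
      · push Not at ht
        have h1 : L ≤ ‖w - t‖ := by
          have h2 : ‖w‖ - ‖(t : ℂ)‖ ≤ ‖w - t‖ := norm_sub_norm_le _ _
          have h3 : ‖(t : ℂ)‖ = |t| := by simp
          have h4 : R₁ ≤ R₂ := le_max_left _ _
          rw [h3] at h2
          linarith
        have hn : ‖w - t‖ ^ 2 = (w.re - t) ^ 2 + w.im ^ 2 := by
          rw [← Complex.normSq_eq_norm_sq, Complex.normSq_apply]; simp; ring
        have h5 : pk w.im (w.re - t) ≤ π⁻¹ * L⁻¹ := by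
          unfold pk
          rw [← hn]
          gcongr
          have h6 : w.im ≤ ‖w - t‖ := im_le_norm_sub w t
          have h7 : 0 < ‖w - t‖ := by linarith
          calc w.im / ‖w - t‖ ^ 2 ≤ ‖w - t‖ / ‖w - t‖ ^ 2 := by gcongr
            _ = ‖w - t‖⁻¹ := by field_simp
            _ ≤ L⁻¹ := inv_anti₀ (by linarith) h1
        have h8 : 0 ≤ pk w.im (w.re - t) * (ε / 2) :=
          mul_nonneg (pk_nonneg hτ.le _) (by positivity)
        have h9 : pk w.im (w.re - t) * |g t| ≤ π⁻¹ * L⁻¹ * |g t| := by gcongr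
        linarith
    have hint : Integrable (fun t => pk w.im (w.re - t) * (ε / 2) + π⁻¹ * L⁻¹ * |g t|) :=
      ((pk_integrable w.re hτ).mul_const _).add (hgi.abs.const_mul _)
    have h10 := norm_integral_le_of_norm_le hint (Eventually.of_forall hpoint)
    rw [integral_add ((pk_integrable w.re hτ).mul_const _) (hgi.abs.const_mul _),
      integral_mul_const, integral_const_mul, pk_integral w.re hτ, Real.norm_eq_abs] at h10
    refine h10.trans ?_
    have h11 : π⁻¹ * L⁻¹ * N ≤ ε / 2 := by
      have h12 : π⁻¹ * N / (ε / 2) ≤ L := by rw [hL]; linarith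
      have h13 : π⁻¹ * N ≤ L * (ε / 2) := by
        rwa [div_le_iff₀ (by positivity)] at h12
      have hLpos : 0 < L := by linarith
      calc π⁻¹ * L⁻¹ * N = (π⁻¹ * N) / L := by rw [div_eq_mul_inv]; ring
        _ ≤ (L * (ε / 2)) / L := by gcongr
        _ = ε / 2 := by field_simp
    linarith

/-- The key integrated inequality for locally subharmonic functions in a half plane. -/
theorem integral_nonneg_of_sub {Ψ : ℂ → ℝ} {κ σ : ℝ}
    (hcont : ContinuousOn Ψ {z | σ ≤ z.im})
    (hsub : ∀ z : ℂ, σ < z.im → LocalSub Ψ z)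
    (hint : Integrable (fun x : ℝ => Ψ (x + σ * I) - κ))
    (hinf : ∀ ε > 0, ∃ R : ℝ, ∀ z : ℂ, σ ≤ z.im → R ≤ ‖z‖ → |Ψ z - κ| ≤ ε)
    (hR : Tendsto (fun R : ℝ => R * (Ψ (R * I) - κ)) atTop (𝓝 0)) :
    0 ≤ ∫ x : ℝ, (Ψ (x + σ * I) - κ) := by
  set g : ℝ → ℝ := fun x => Ψ (x + σ * I) - κ with hg
  have hline : ∀ x : ℝ, ((x : ℂ) + σ * I).im = σ := by intro x; simp
  have hgc : Continuous g := by
    apply Continuous.sub _ continuous_const
    rw [← continuousOn_univ]
    refine hcont.comp (by fun_prop) ?_
    intro x _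
    show σ ≤ ((x : ℂ) + σ * I).im
    rw [hline]
  have hg0 : ∀ ε > 0, ∃ R, ∀ x : ℝ, R ≤ |x| → |g x| ≤ ε := by
    intro ε hε
    obtain ⟨R, hR'⟩ := hinf ε hε
    refine ⟨R, fun x hx => hR' _ (by rw [hline]) ?_⟩
    have : |((x : ℂ) + σ * I).re| ≤ ‖(x : ℂ) + σ * I‖ := Complex.abs_re_le_norm _
    simp at this
    linarith
  -- g is bounded
  obtain ⟨M, hM⟩ : ∃ M, ∀ x, |g x| ≤ M := by
    obtain ⟨R, hR'⟩ := hg0 1 one_pos
    obtain ⟨C, hC⟩ := (isCompact_Icc (a := -R) (b := R)).exists_bound_of_continuousOn
      hgc.continuousOn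
    refine ⟨max C 1, fun x => ?_⟩
    by_cases hx : R ≤ |x|
    · exact (hR' x hx).trans (le_max_right _ _)
    · push Not at hx
      rw [abs_lt] at hx
      exact (hC x ⟨hx.1.le, hx.2.le⟩).trans (le_max_left _ _)
  have hvc : Continuous (vext g σ) := vext_continuous hgc hM
  have hmain : ∀ z : ℂ, z ∈ {z : ℂ | σ ≤ z.im} → Ψ z - κ - vext g σ z ≤ 0 := by
    refine maxPrinciple (Ω := {z : ℂ | σ < z.im}) (K := {z : ℂ | σ ≤ z.im})
      (isOpen_lt continuous_const Complex.continuous_im)
      (isClosed_le continuous_const Complex.continuous_im) (fun z (hz : σ < z.im) => le_of_lt hz)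
      ((hcont.sub continuousOn_const).sub hvc.continuousOn) ?_ ?_ ?_
    · intro z hz
      obtain ⟨r₀, hr₀, hr⟩ := hsub z hz
      refine ⟨min r₀ (z.im - σ), lt_min hr₀ (sub_pos.2 hz), fun r hr1 hr2 => ?_⟩
      have hr3 : r < r₀ := hr2.trans_le (min_le_left _ _)
      have hr4 : r < z.im - σ := hr2.trans_le (min_le_right _ _)
      have h1 := hr r hr1 hr3
      have hsph : sphere z r ⊆ {z : ℂ | σ ≤ z.im} := by
        intro w hw
        rw [mem_sphere, dist_eq_norm] at hw
        have h1 : |(w - z).im| ≤ r := (Complex.abs_im_le_norm _).trans hw.le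
        rw [Complex.sub_im, abs_le] at h1
        show σ ≤ w.im
        linarith [h1.1]
      have hci1 : CircleIntegrable Ψ z r :=
        ContinuousOn.circleIntegrable hr1.le (hcont.mono hsph)
      have hci2 : CircleIntegrable (fun _ : ℂ => κ) z r := circleIntegrable_const _ _ _
      have hci3 : CircleIntegrable (vext g σ) z r :=
        ContinuousOn.circleIntegrable hr1.le hvc.continuousOn
      have h2 : circleAverage (fun z => Ψ z - κ - vext g σ z) z r =
          circleAverage Ψ z r - κ - vext g σ z := by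
        rw [circleAverage_fun_sub (f₁ := fun z => Ψ z - κ) (hci1.sub hci2) hci3,
          circleAverage_fun_sub hci1 hci2, circleAverage_const,
          vext_mean hint hr1 (by linarith)]
      rw [h2]
      linarith
    · intro z hz hz'
      have hz1 : z.im = σ := by
        have h1 : ¬ (σ < z.im) := hz'
        have h2 : σ ≤ z.im := hz
        linarith [not_lt.1 h1]
      rw [vext_boundary hz1]
      have : ((z.re : ℂ) + σ * I) = z := by
        apply Complex.ext <;> simp [hz1]
      simp only [hg, this]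
      linarith
    · intro ε hε
      obtain ⟨R₁, hR₁⟩ := hinf (ε / 3) (by positivity)
      obtain ⟨R₂, hR₂⟩ := vext_small (σ := σ) hint hg0 (ε / 3) (by positivity)
      rw [Metric.isBounded_iff_subset_closedBall 0]
      refine ⟨max R₁ R₂, fun z hz => ?_⟩
      rw [mem_closedBall, dist_zero_right]
      by_contra hcon
      push Not at hcon
      have h1 := hR₁ z hz.1 ((le_max_left _ _).trans hcon.le)
      have h2 := hR₂ z hz.1 ((le_max_right _ _).trans hcon.le)
      have h3 := hz.2
      rw [abs_le] at h1 h2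
      linarith [h1.2, h2.1]
  -- asymptotics
  have hlim : Tendsto (fun R : ℝ => R * vext g σ (R * I)) atTop (𝓝 (π⁻¹ * ∫ x, g x)) := by
    have h1 : Tendsto (fun R : ℝ => ∫ t, (R * pk (R - σ) (0 - t)) * g t) atTop
        (𝓝 (∫ t, π⁻¹ * g t)) := by
      apply tendsto_integral_filter_of_dominated_convergence (fun t => (π⁻¹ * 2) * |g t|)
      · filter_upwards [eventually_gt_atTop σ] with R hR
        have : Continuous (fun t => R * pk (R - σ) (0 - t)) := by
          unfold pk
          apply Continuous.mul continuous_const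
          apply Continuous.mul continuous_const
          apply Continuous.div continuous_const (by fun_prop)
          intro t
          have : 0 < (R - σ) ^ 2 := by
            have := sub_pos.2 hR
            positivity
          positivity
        exact (this.mul hgc).aestronglyMeasurable
      · filter_upwards [eventually_gt_atTop (2 * |σ|)] with R hR
        refine Eventually.of_forall fun t => ?_
        have hσ1 : σ ≤ |σ| := le_abs_self σ
        have hσ2 : 0 ≤ |σ| := abs_nonneg σ
        have hRσ : 0 < R - σ := by linarith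
        have hR0 : 0 < R := by linarith
        rw [norm_mul, Real.norm_eq_abs (g t)]
        have h2 : ‖R * pk (R - σ) (0 - t)‖ ≤ π⁻¹ * 2 := by
          rw [Real.norm_of_nonneg (mul_nonneg hR0.le (pk_nonneg hRσ.le _))]
          unfold pk
          have h3 : (R - σ) / ((0 - t) ^ 2 + (R - σ) ^ 2) ≤ 1 / (R - σ) := by
            rw [div_le_div_iff₀ (by positivity) hRσ]
            nlinarith [sq_nonneg (0 - t)]
          have h4 : R * (1 / (R - σ)) ≤ 2 := by
            rw [mul_one_div, div_le_iff₀ hRσ]
            linarith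
          calc R * (π⁻¹ * ((R - σ) / ((0 - t) ^ 2 + (R - σ) ^ 2)))
              = π⁻¹ * (R * ((R - σ) / ((0 - t) ^ 2 + (R - σ) ^ 2))) := by ring
            _ ≤ π⁻¹ * (R * (1 / (R - σ))) := by gcongr
            _ ≤ π⁻¹ * 2 := by gcongr
        gcongr
      · exact hint.abs.const_mul _
      · refine Eventually.of_forall fun t => ?_
        apply Tendsto.mul_const
        unfold pk
        have h2 : Tendsto (fun R : ℝ => R * ((R - σ) / ((0 - t) ^ 2 + (R - σ) ^ 2))) atTop
            (𝓝 1) := by
          have h3 : Tendsto (fun R : ℝ => R - σ) atTop atTop :=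
            tendsto_atTop_add_const_right _ _ tendsto_id
          have h4 : Tendsto (fun s : ℝ => (s + σ) * (s / ((0 - t) ^ 2 + s ^ 2))) atTop (𝓝 1) := by
            have h5 : Tendsto (fun s : ℝ => (1 + σ * s⁻¹) / (t ^ 2 * (s⁻¹) ^ 2 + 1)) atTop
                (𝓝 ((1 + σ * 0) / (t ^ 2 * 0 ^ 2 + 1))) := by
              apply Tendsto.div
              · exact (tendsto_inv_atTop_zero.const_mul σ).const_add 1
              · exact ((tendsto_inv_atTop_zero.pow 2).const_mul _).add_const 1
              · norm_num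
            simp only [mul_zero, add_zero, zero_pow, ne_eq, OfNat.ofNat_ne_zero,
              not_false_eq_true, zero_add, div_one] at h5
            refine h5.congr' ?_
            filter_upwards [eventually_gt_atTop 0] with s hs
            field_simp
            ring
          have h6 := h4.comp h3
          refine h6.congr fun R => ?_
          simp
        have := h2.const_mul π⁻¹
        rw [mul_one] at this
        refine this.congr fun R => ?_
        ring
    rw [integral_const_mul] at h1
    refine h1.congr' ?_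
    filter_upwards [eventually_gt_atTop σ] with R hR
    have h3 : σ < ((R : ℂ) * I).im := by simp [hR]
    rw [vext_eq_pk h3, ← integral_const_mul]
    congr 1
    ext t
    simp
    ring
  have hle : ∀ᶠ R : ℝ in atTop, R * (Ψ (R * I) - κ) ≤ R * vext g σ (R * I) := by
    filter_upwards [eventually_ge_atTop σ, eventually_ge_atTop 0] with R hR hR0
    have h1 : ((R : ℂ) * I) ∈ {z : ℂ | σ ≤ z.im} := by
      show σ ≤ ((R : ℂ) * I).im
      simp [hR]
    have h2 := hmain _ h1
    gcongr
    linarith
  have := le_of_tendsto_of_tendsto hR hlim hle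
  have hpi : 0 < π⁻¹ := inv_pos.2 Real.pi_pos
  exact nonneg_of_mul_nonneg_right this hpi

end Pool.Agent.Helper60
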