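import Pool.Agent.Helper60.CosSqrt

open MeasureTheory Set Filter Topology Metric Complex
open scoped Real Nat

namespace Pool.Agent.Helper60

/-- The integrand. -/
noncomputable def nk (r : ℝ) (w : ℂ) : ℝ := (1 - (Cf ((r : ℂ) ^ 2 * w)).re / Real.cosh r) / r ^ 2

/-- Bound constant. -/
noncomputable def Bd (M : ℝ) : ℝ := 5 + M * Real.cosh (Real.sqrt M)

lemma Bd_nonneg {M : ℝ} (hM : 0 ≤ M) : 0 ≤ Bd M := by
  unfold Bd; positivity

lemma nk_sq (r : ℝ) (ζ : ℂ) : nk r (ζ ^ 2) =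
    (1 - Real.cos (r * ζ.re) * Real.cosh (r * ζ.im) / Real.cosh r) / r ^ 2 := by
  unfold nk; rw [Cf_re]

lemma nk_bound {ζ : ℂ} (hζ : |ζ.im| ≤ 1) {M : ℝ} (hM : ‖ζ ^ 2‖ ≤ M) {r : ℝ} (hr : 0 < r) :
    |nk r (ζ ^ 2)| ≤ Bd M * (1 + r ^ 2)⁻¹ := by
  have hM0 : 0 ≤ M := (norm_nonneg _).trans hM
  have hr2 : 0 < r ^ 2 := by positivity
  have hc : 0 < Real.cosh r := Real.cosh_pos r
  rcases le_or_gt 1 r with h1 | h1
  · -- large r
    have h2 : |Real.cos (r * ζ.re) * Real.cosh (r * ζ.im) / Real.cosh r| ≤ 1 := by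
      rw [abs_div, abs_of_pos hc, div_le_one hc, abs_mul, abs_of_pos (Real.cosh_pos _)]
      calc |Real.cos (r * ζ.re)| * Real.cosh (r * ζ.im) ≤ 1 * Real.cosh (r * ζ.im) := by
            gcongr
            exact Real.abs_cos_le_one _
        _ ≤ Real.cosh r := by rw [one_mul]; exact cosh_mul_le hζ
    rw [nk_sq, abs_div, abs_of_pos hr2]
    have h3 : |1 - Real.cos (r * ζ.re) * Real.cosh (r * ζ.im) / Real.cosh r| ≤ 2 := by
      rw [abs_le] at h2 ⊢
      constructor <;> linarith [h2.1, h2.2]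
    have h4 : (5 : ℝ) ≤ Bd M := by
      unfold Bd
      have : 0 ≤ M * Real.cosh (Real.sqrt M) := by positivity
      linarith
    calc |1 - Real.cos (r * ζ.re) * Real.cosh (r * ζ.im) / Real.cosh r| / r ^ 2 ≤ 2 / r ^ 2 := by
          gcongr
      _ ≤ 5 * (1 + r ^ 2)⁻¹ := by
          rw [← div_eq_mul_inv, div_le_div_iff₀ hr2 (by positivity)]
          nlinarith
      _ ≤ Bd M * (1 + r ^ 2)⁻¹ := by gcongr
  · -- small r
    unfold nk
    have hid : 1 - (Cf ((r : ℂ) ^ 2 * ζ ^ 2)).re / Real.cosh r =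
        (Real.cosh r - 1) / Real.cosh r - ((Cf ((r : ℂ) ^ 2 * ζ ^ 2)) - 1).re / Real.cosh r := by
      rw [Complex.sub_re, Complex.one_re]
      field_simp
      ring
    rw [hid, abs_div, abs_of_pos hr2]
    have h2 : |(Real.cosh r - 1) / Real.cosh r| ≤ r ^ 2 / 2 := by
      rw [abs_of_nonneg (div_nonneg (by linarith [Real.one_le_cosh r]) hc.le),
        div_le_iff₀ hc]
      exact cosh_sub_one_le r
    have hnz : ‖(r : ℂ) * ζ‖ = r * ‖ζ‖ := by
      rw [norm_mul, Complex.norm_real, Real.norm_of_nonneg hr.le]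
    have hζn : ‖ζ‖ ^ 2 ≤ M := by rwa [norm_pow] at hM
    have hζs : ‖ζ‖ ≤ Real.sqrt M := Real.le_sqrt_of_sq_le hζn
    have h3 : |((Cf ((r : ℂ) ^ 2 * ζ ^ 2)) - 1).re / Real.cosh r| ≤
        r ^ 2 * (M / 2 * Real.cosh (Real.sqrt M)) := by
      rw [abs_div, abs_of_pos hc]
      have h4 : |((Cf ((r : ℂ) ^ 2 * ζ ^ 2)) - 1).re| ≤ Real.cosh (r * ‖ζ‖) - 1 := by
        refine (Complex.abs_re_le_norm _).trans ?_
        rw [← mul_pow, Cf_sq, ← hnz]
        exact norm_cos_sub_one_le _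
      have h5 : Real.cosh (r * ‖ζ‖) - 1 ≤ r ^ 2 * (M / 2 * Real.cosh (Real.sqrt M)) := by
        refine (cosh_sub_one_le _).trans ?_
        have h6 : Real.cosh (r * ‖ζ‖) ≤ Real.cosh (Real.sqrt M) := by
          rw [Real.cosh_le_cosh, abs_of_nonneg (by positivity), abs_of_nonneg (by positivity)]
          calc r * ‖ζ‖ ≤ 1 * ‖ζ‖ := by gcongr
            _ ≤ Real.sqrt M := by rw [one_mul]; exact hζs
        calc (r * ‖ζ‖) ^ 2 / 2 * Real.cosh (r * ‖ζ‖) ≤ (r * ‖ζ‖) ^ 2 / 2 * Real.cosh (Real.sqrt M) := by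
              gcongr
          _ = r ^ 2 * (‖ζ‖ ^ 2 / 2 * Real.cosh (Real.sqrt M)) := by ring
          _ ≤ r ^ 2 * (M / 2 * Real.cosh (Real.sqrt M)) := by gcongr
      have h7 : (0 : ℝ) ≤ r ^ 2 * (M / 2 * Real.cosh (Real.sqrt M)) := by positivity
      calc |((Cf ((r : ℂ) ^ 2 * ζ ^ 2)) - 1).re| / Real.cosh r
          ≤ |((Cf ((r : ℂ) ^ 2 * ζ ^ 2)) - 1).re| / 1 := by
            gcongr
            exact Real.one_le_cosh r
        _ ≤ _ := by rw [div_one]; exact h4.trans h5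
    have h8 : |(Real.cosh r - 1) / Real.cosh r - ((Cf ((r : ℂ) ^ 2 * ζ ^ 2)) - 1).re / Real.cosh r|
        ≤ r ^ 2 * (1 / 2 + M / 2 * Real.cosh (Real.sqrt M)) := by
      refine (abs_sub _ _).trans ?_
      linarith
    rw [div_le_iff₀ hr2]
    refine h8.trans ?_
    have h9 : (1 / 2 + M / 2 * Real.cosh (Real.sqrt M)) ≤ Bd M * (1 + r ^ 2)⁻¹ := by
      rw [← div_eq_mul_inv, le_div_iff₀ (by positivity)]
      unfold Bd
      have h10 : 0 ≤ M * Real.cosh (Real.sqrt M) := by positivity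
      have h11 : r ^ 2 ≤ 1 := by nlinarith
      have h12 := mul_nonneg h10 (sub_nonneg.2 h11)
      nlinarith
    calc r ^ 2 * (1 / 2 + M / 2 * Real.cosh (Real.sqrt M)) ≤ r ^ 2 * (Bd M * (1 + r ^ 2)⁻¹) := by
          gcongr
      _ = Bd M * (1 + r ^ 2)⁻¹ * r ^ 2 := by ring

lemma nk_measurable : Measurable (fun p : ℝ × ℂ => nk p.1 p.2) := by
  unfold nk
  apply Measurable.div _ (by fun_prop)
  apply Measurable.sub measurable_const
  apply Measurable.div _ (by fun_prop)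
  exact Complex.measurable_re.comp (Cf_continuous.measurable.comp (by fun_prop))

lemma nk_measurable_left (w : ℂ) : Measurable (fun r : ℝ => nk r w) := by
  unfold nk
  apply Measurable.div _ (by fun_prop)
  apply Measurable.sub measurable_const
  apply Measurable.div _ (by fun_prop)
  exact Complex.measurable_re.comp (Cf_continuous.measurable.comp (by fun_prop))

lemma integrableOn_bd (M : ℝ) : IntegrableOn (fun r : ℝ => Bd M * (1 + r ^ 2)⁻¹) (Ioi 0) :=
  (integrable_inv_one_add_sq.const_mul _).integrableOn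

lemma nk_integrableOn {ζ : ℂ} (hζ : |ζ.im| ≤ 1) : IntegrableOn (fun r => nk r (ζ ^ 2)) (Ioi 0) := by
  refine Integrable.mono' (integrableOn_bd ‖ζ ^ 2‖) (nk_measurable_left _).aestronglyMeasurable ?_
  rw [ae_restrict_iff' measurableSet_Ioi]
  exact Eventually.of_forall fun r hr => nk_bound hζ le_rfl hr

/-- Normalising constant (equal to `π / 2`, but this is not needed). -/
noncomputable def c0 : ℝ := ∫ r in Ioi (0 : ℝ), (1 - Real.cos r) / r ^ 2

lemma nk_boundary (r x : ℝ) {ζ : ℂ} (hre : ζ.re = x) (him : |ζ.im| = 1) :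
    nk r (ζ ^ 2) = (1 - Real.cos (r * x)) / r ^ 2 := by
  rw [nk_sq, hre]
  have h1 : Real.cosh (r * ζ.im) = Real.cosh r := by
    rw [← Real.cosh_abs, abs_mul, him, mul_one, Real.cosh_abs]
  rw [h1]
  have hc : Real.cosh r ≠ 0 := (Real.cosh_pos r).ne'
  congr 2
  field_simp

lemma one_sub_cos_integrableOn (x : ℝ) :
    IntegrableOn (fun r : ℝ => (1 - Real.cos (r * x)) / r ^ 2) (Ioi 0) := by
  have h := nk_integrableOn (ζ := (x : ℂ) + I) (by simp)
  refine h.congr_fun (fun r _ => ?_) measurableSet_Ioi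
  exact nk_boundary r x (by simp) (by simp)

lemma c0_pos : 0 < c0 := by
  unfold c0
  have hint : IntegrableOn (fun r : ℝ => (1 - Real.cos r) / r ^ 2) (Ioi 0) := by
    have := one_sub_cos_integrableOn 1
    simpa using this
  have hpi : (2 : ℝ) < π := by linarith [Real.pi_gt_three]
  have h1 : ∫ r in Ioc (1 : ℝ) 2, (1 - Real.cos 1) / 4 ≤ ∫ r in Ioc (1 : ℝ) 2, (1 - Real.cos r) / r ^ 2 := by
    apply setIntegral_mono_on
    · exact integrableOn_const (by simp) (by simp)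
    · exact hint.mono_set (fun r hr => by
        have : (1 : ℝ) < r := hr.1
        exact lt_trans one_pos this)
    · exact measurableSet_Ioc
    · intro r hr
      have h2 : Real.cos r ≤ Real.cos 1 :=
        Real.cos_le_cos_of_nonneg_of_le_pi (by norm_num) (by linarith [hr.2]) hr.1.le
      have h3 : Real.cos 1 ≤ 1 := Real.cos_le_one 1
      have h4 : r ^ 2 ≤ 4 := by nlinarith [hr.1, hr.2]
      have h5 : 0 < r ^ 2 := by have := hr.1; positivity
      rw [div_le_div_iff₀ (by norm_num) h5]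
      nlinarith
  have h2 : ∫ r in Ioc (1 : ℝ) 2, (1 - Real.cos r) / r ^ 2 ≤ ∫ r in Ioi (0 : ℝ), (1 - Real.cos r) / r ^ 2 := by
    apply setIntegral_mono_set hint
    · rw [EventuallyLE, ae_restrict_iff' measurableSet_Ioi]
      refine Eventually.of_forall fun r _ => ?_
      have : Real.cos r ≤ 1 := Real.cos_le_one r
      show (0:ℝ) ≤ _
      apply div_nonneg <;> nlinarith
    · refine Eventually.of_forall fun r hr => ?_
      exact lt_trans one_pos hr.1
  have h3 : ∫ r in Ioc (1 : ℝ) 2, (1 - Real.cos 1) / 4 = (1 - Real.cos 1) / 4 := by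
    simp
    norm_num
  have h4 : Real.cos 1 < 1 := by
    have := Real.cos_lt_cos_of_nonneg_of_le_pi (x := 0) (y := 1) le_rfl (by linarith) one_pos
    rwa [Real.cos_zero] at this
  linarith

lemma integral_one_sub_cos (x : ℝ) :
    ∫ r in Ioi (0 : ℝ), (1 - Real.cos (r * x)) / r ^ 2 = c0 * |x| := by
  have hpos : ∀ y : ℝ, 0 < y → ∫ r in Ioi (0 : ℝ), (1 - Real.cos (r * y)) / r ^ 2 = c0 * y := by
    intro y hy
    have h := integral_comp_mul_left_Ioi (fun u : ℝ => (1 - Real.cos u) / u ^ 2) 0 hy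
    rw [mul_zero, smul_eq_mul] at h
    have h2 : ∫ r in Ioi (0 : ℝ), (1 - Real.cos (r * y)) / r ^ 2 =
        y ^ 2 * ∫ r in Ioi (0 : ℝ), (1 - Real.cos (y * r)) / (y * r) ^ 2 := by
      rw [← integral_const_mul]
      congr 1
      ext r
      rcases eq_or_ne r 0 with rfl | hr
      · simp
      · rw [mul_comm y r]
        field_simp
    rw [h2, h]
    unfold c0
    field_simp
  rcases lt_trichotomy x 0 with hx | hx | hx
  · have h1 := hpos (-x) (by linarith)
    rw [abs_of_neg hx, ← h1]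
    congr 1
    ext r
    rw [mul_neg, Real.cos_neg]
  · subst hx; simp
  · rw [abs_of_pos hx]; exact hpos x hx

/-- The key function on the parabolic region. -/
noncomputable def kf (w : ℂ) : ℝ := (∫ r in Ioi (0 : ℝ), nk r w) / c0

/-- The constant. -/
noncomputable def kap : ℝ := kf 0

lemma kf_boundary {ζ : ℂ} (him : |ζ.im| = 1) : kf (ζ ^ 2) = |ζ.re| := by
  unfold kf
  have h : ∫ r in Ioi (0 : ℝ), nk r (ζ ^ 2) = c0 * |ζ.re| := by
    rw [← integral_one_sub_cos]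
    congr 1
    ext r
    exact nk_boundary r _ rfl him
  rw [h]
  have := c0_pos.ne'
  field_simp

lemma nk_zero (r : ℝ) : nk r 0 = (1 - 1 / Real.cosh r) / r ^ 2 := by
  unfold nk; simp [Cf_zero]

lemma nk_zero_integrableOn : IntegrableOn (fun r => nk r 0) (Ioi 0) := by
  have := nk_integrableOn (ζ := 0) (by simp)
  simpa using this

lemma nk_zero_nonneg (r : ℝ) : 0 ≤ nk r 0 := by
  rw [nk_zero]
  apply div_nonneg _ (sq_nonneg _)
  have h1 : 1 / Real.cosh r ≤ 1 := by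
    rw [div_le_one (Real.cosh_pos r)]; exact Real.one_le_cosh r
  linarith

lemma kap_nonneg : 0 ≤ kap := by
  unfold kap kf
  apply div_nonneg _ c0_pos.le
  exact setIntegral_nonneg measurableSet_Ioi fun r _ => nk_zero_nonneg r

/-- comparison lemma -/
lemma kf_le_of {ζ : ℂ} (hζ : |ζ.im| ≤ 1) {F : ℝ → ℝ} {A : ℝ} (hF : IntegrableOn F (Ioi 0))
    (hA : ∫ r in Ioi (0 : ℝ), F r = c0 * A) (h : ∀ r > 0, nk r (ζ ^ 2) ≤ F r) :
    kf (ζ ^ 2) ≤ A := by
  unfold kf
  rw [div_le_iff₀ c0_pos, mul_comm, ← hA]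
  exact setIntegral_mono_on (nk_integrableOn hζ) hF measurableSet_Ioi h

lemma le_kf_of {ζ : ℂ} (hζ : |ζ.im| ≤ 1) {F : ℝ → ℝ} {A : ℝ} (hF : IntegrableOn F (Ioi 0))
    (hA : ∫ r in Ioi (0 : ℝ), F r = c0 * A) (h : ∀ r > 0, F r ≤ nk r (ζ ^ 2)) :
    A ≤ kf (ζ ^ 2) := by
  unfold kf
  rw [le_div_iff₀ c0_pos, mul_comm, ← hA]
  exact setIntegral_mono_on hF (nk_integrableOn hζ) measurableSet_Ioi h

lemma integral_nk_zero : ∫ r in Ioi (0 : ℝ), nk r 0 = c0 * kap := by
  unfold kap kf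
  have := c0_pos.ne'
  field_simp

/-- `kf ≤ kap + |Re ζ|`. -/
lemma kf_le_kap_add {ζ : ℂ} (hζ : |ζ.im| ≤ 1) : kf (ζ ^ 2) ≤ kap + |ζ.re| := by
  refine kf_le_of hζ (F := fun r => nk r 0 + (1 - Real.cos (r * ζ.re)) / r ^ 2)
    (nk_zero_integrableOn.add (one_sub_cos_integrableOn _)) ?_ ?_
  · rw [integral_add nk_zero_integrableOn (one_sub_cos_integrableOn _), integral_nk_zero,
      integral_one_sub_cos]
    ring
  · intro r hr
    rw [nk_sq, nk_zero, ← add_div]
    apply div_le_div_of_nonneg_right _ (sq_nonneg r)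
    have hC := Real.cosh_pos r
    have h1 : Real.cosh (r * ζ.im) ≤ Real.cosh r := cosh_mul_le hζ
    have h2 : 1 ≤ Real.cosh (r * ζ.im) := Real.one_le_cosh _
    have h3 : Real.cos (r * ζ.re) ≤ 1 := Real.cos_le_one _
    have h4 : 0 ≤ (Real.cosh (r * ζ.im) - 1) +
        (1 - Real.cos (r * ζ.re)) * (Real.cosh r - Real.cosh (r * ζ.im)) := by
      have := mul_nonneg (sub_nonneg.2 h3) (sub_nonneg.2 h1)
      linarith
    have h5 : 1 - 1 / Real.cosh r + (1 - Real.cos (r * ζ.re)) -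
        (1 - Real.cos (r * ζ.re) * Real.cosh (r * ζ.im) / Real.cosh r) =
        ((Real.cosh (r * ζ.im) - 1) +
        (1 - Real.cos (r * ζ.re)) * (Real.cosh r - Real.cosh (r * ζ.im))) / Real.cosh r := by
      field_simp
      ring
    have h6 : 0 ≤ ((Real.cosh (r * ζ.im) - 1) +
        (1 - Real.cos (r * ζ.re)) * (Real.cosh r - Real.cosh (r * ζ.im))) / Real.cosh r :=
      div_nonneg h4 hC.le
    linarith

/-- `|Re ζ| - kap ≤ kf`. -/
lemma abs_re_sub_kap_le {ζ : ℂ} (hζ : |ζ.im| ≤ 1) : |ζ.re| - kap ≤ kf (ζ ^ 2) := by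
  refine le_kf_of hζ (F := fun r => (1 - Real.cos (r * ζ.re)) / r ^ 2 - nk r 0)
    ((one_sub_cos_integrableOn _).sub nk_zero_integrableOn) ?_ ?_
  · rw [integral_sub (one_sub_cos_integrableOn _) nk_zero_integrableOn, integral_nk_zero,
      integral_one_sub_cos]
    ring
  · intro r hr
    rw [nk_sq, nk_zero, ← sub_div]
    apply div_le_div_of_nonneg_right _ (sq_nonneg r)
    have hC := Real.cosh_pos r
    have h1 : Real.cosh (r * ζ.im) ≤ Real.cosh r := cosh_mul_le hζ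
    have h2 : 1 ≤ Real.cosh (r * ζ.im) := Real.one_le_cosh _
    have h3 : -1 ≤ Real.cos (r * ζ.re) := Real.neg_one_le_cos _
    have h4 : 0 ≤ (Real.cosh (r * ζ.im) - 1) +
        (1 + Real.cos (r * ζ.re)) * (Real.cosh r - Real.cosh (r * ζ.im)) := by
      have := mul_nonneg (by linarith : 0 ≤ 1 + Real.cos (r * ζ.re)) (sub_nonneg.2 h1)
      linarith
    have h5 : (1 - Real.cos (r * ζ.re) * Real.cosh (r * ζ.im) / Real.cosh r) -
        ((1 - Real.cos (r * ζ.re)) - (1 - 1 / Real.cosh r)) =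
        ((Real.cosh (r * ζ.im) - 1) +
        (1 + Real.cos (r * ζ.re)) * (Real.cosh r - Real.cosh (r * ζ.im))) / Real.cosh r := by
      field_simp
      ring
    have h6 : 0 ≤ ((Real.cosh (r * ζ.im) - 1) +
        (1 + Real.cos (r * ζ.re)) * (Real.cosh r - Real.cosh (r * ζ.im))) / Real.cosh r :=
      div_nonneg h4 hC.le
    linarith

/-- `kap (1 - (Im ζ)^2) ≤ kf`. -/
lemma kap_mul_le_kf {ζ : ℂ} (hζ : |ζ.im| ≤ 1) : kap * (1 - ζ.im ^ 2) ≤ kf (ζ ^ 2) := by
  refine le_kf_of hζ (F := fun r => nk r 0 * (1 - ζ.im ^ 2))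
    (nk_zero_integrableOn.mul_const _) ?_ ?_
  · rw [integral_mul_const, integral_nk_zero]
    ring
  · intro r hr
    rw [nk_sq, nk_zero]
    rw [div_mul_eq_mul_div]
    apply div_le_div_of_nonneg_right _ (sq_nonneg r)
    have hC := Real.cosh_pos r
    have h2 : Real.cosh (r * ζ.im) - 1 ≤ ζ.im ^ 2 * (Real.cosh r - 1) := cosh_mul_sub_one_le r hζ
    have h3 : Real.cos (r * ζ.re) * Real.cosh (r * ζ.im) ≤ Real.cosh (r * ζ.im) := by
      have := Real.cos_le_one (r * ζ.re)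
      have h4 := Real.cosh_pos (r * ζ.im)
      nlinarith
    have h5 : (1 - Real.cos (r * ζ.re) * Real.cosh (r * ζ.im) / Real.cosh r) -
        (1 - 1 / Real.cosh r) * (1 - ζ.im ^ 2) =
        (1 + ζ.im ^ 2 * (Real.cosh r - 1) - Real.cos (r * ζ.re) * Real.cosh (r * ζ.im)) / Real.cosh r := by
      field_simp
      ring
    have h6 : 0 ≤ (1 + ζ.im ^ 2 * (Real.cosh r - 1) -
        Real.cos (r * ζ.re) * Real.cosh (r * ζ.im)) / Real.cosh r :=
      div_nonneg (by linarith) hC.le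
    linarith

end Pool.Agent.Helper60
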