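import Mathlib

open MeasureTheory Set Filter Topology Metric Real
open scoped Real

namespace Pool.Agent.Helper60

/-- Local sub mean value property at a point: for all small radii. -/
def LocalSub (u : ℂ → ℝ) (z : ℂ) : Prop :=
  ∃ r₀ > 0, ∀ r, 0 < r → r < r₀ → u z ≤ circleAverage u z r

/-- Average over a circle of a continuous function bounded by `M`, which is smaller than `M` at
some point of the circle, is smaller than `M`. -/
lemma circleAverage_lt_of_exists {u : ℂ → ℝ} {c : ℂ} {r M : ℝ} 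
    (hc : ContinuousOn u (sphere c |r|)) (hle : ∀ z ∈ sphere c |r|, u z ≤ M)
    (hlt : ∃ z ∈ sphere c |r|, u z < M) : circleAverage u c r < M := by
  obtain ⟨z, hz, hzM⟩ := hlt
  have hcont : Continuous (fun θ : ℝ => u (circleMap c r θ)) := by
    rw [← continuousOn_univ]
    exact hc.comp (continuous_circleMap c r).continuousOn
      (fun θ _ => circleMap_mem_sphere' c r θ)
  have hz' : z ∈ circleMap c r '' Ioc 0 (2 * π) := by
    rw [image_circleMap_Ioc]; exact hz
  obtain ⟨θ, hθ, rfl⟩ := hz'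
  have h1 : (∫ θ in (0:ℝ)..(2 * π), u (circleMap c r θ)) < ∫ θ in (0:ℝ)..(2 * π), M := by
    apply intervalIntegral.integral_lt_integral_of_continuousOn_of_le_of_exists_lt
      Real.two_pi_pos hcont.continuousOn continuousOn_const
    · intro θ _
      exact hle _ (circleMap_mem_sphere' c r θ)
    · exact ⟨θ, ⟨hθ.1.le, hθ.2⟩, hzM⟩
  rw [circleAverage, smul_eq_mul]
  rw [intervalIntegral.integral_const, smul_eq_mul, sub_zero] at h1
  have h2 : (0:ℝ) < (2 * π)⁻¹ := inv_pos.2 Real.two_pi_pos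
  calc (2 * π)⁻¹ * ∫ θ in (0:ℝ)..(2 * π), u (circleMap c r θ)
      < (2 * π)⁻¹ * (2 * π * M) := by
        exact mul_lt_mul_of_pos_left h1 h2
    _ = M := by field_simp

/-- A maximum principle on a possibly unbounded closed set. -/
theorem maxPrinciple {Ω K : Set ℂ} (hΩ : IsOpen Ω) (hK : IsClosed K) (hsub : Ω ⊆ K)
    {u : ℂ → ℝ} (hu : ContinuousOn u K)
    (hloc : ∀ z ∈ Ω, LocalSub u z) (hbd : ∀ z ∈ K, z ∉ Ω → u z ≤ 0)
    (hinf : ∀ ε > 0, Bornology.IsBounded {z | z ∈ K ∧ ε ≤ u z}) :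
    ∀ z ∈ K, u z ≤ 0 := by
  intro z₁ hz₁
  by_contra hpos
  push Not at hpos
  set ε := u z₁ with hε
  -- the superlevel set is compact
  have hSclosed : IsClosed {z | z ∈ K ∧ ε ≤ u z} := by
    have : {z | z ∈ K ∧ ε ≤ u z} = K ∩ u ⁻¹' (Ici ε) := by ext z; simp
    rw [this]
    exact hu.preimage_isClosed_of_isClosed hK isClosed_Ici
  have hScomp : IsCompact {z | z ∈ K ∧ ε ≤ u z} :=
    Metric.isCompact_of_isClosed_isBounded hSclosed (hinf ε hpos)
  have hSne : ({z | z ∈ K ∧ ε ≤ u z}).Nonempty := ⟨z₁, hz₁, le_refl _⟩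
  obtain ⟨zm, hzm, hmax⟩ := hScomp.exists_isMaxOn hSne (hu.mono (fun z hz => hz.1))
  set M := u zm with hM
  have hMε : ε ≤ M := hzm.2
  have hall : ∀ z ∈ K, u z ≤ M := by
    intro z hz
    by_cases h : ε ≤ u z
    · exact hmax ⟨hz, h⟩
    · push Not at h
      exact h.le.trans hMε
  -- argmax set
  have hTclosed : IsClosed {z | z ∈ K ∧ M ≤ u z} := by
    have : {z | z ∈ K ∧ M ≤ u z} = K ∩ u ⁻¹' (Ici M) := by ext z; simp
    rw [this]
    exact hu.preimage_isClosed_of_isClosed hK isClosed_Ici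
  have hTcomp : IsCompact {z | z ∈ K ∧ M ≤ u z} :=
    Metric.isCompact_of_isClosed_isBounded hTclosed (hinf M (hpos.trans_le hMε))
  have hTne : ({z | z ∈ K ∧ M ≤ u z}).Nonempty := ⟨zm, hzm.1, le_refl _⟩
  obtain ⟨z₂, hz₂, hre⟩ := hTcomp.exists_isMaxOn hTne Complex.continuous_re.continuousOn
  have hz₂M : u z₂ = M := le_antisymm (hall _ hz₂.1) hz₂.2
  have hz₂Ω : z₂ ∈ Ω := by
    by_contra h
    have := hbd z₂ hz₂.1 h
    linarith
  obtain ⟨r₀, hr₀, hr⟩ := hloc z₂ hz₂Ω
  obtain ⟨δ, hδ, hball⟩ := Metric.isOpen_iff.1 hΩ z₂ hz₂Ω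
  set r := min (r₀ / 2) (δ / 2) with hrdef
  have hrpos : 0 < r := by positivity
  have hr1 : r < r₀ := by
    have : r ≤ r₀ / 2 := min_le_left _ _
    linarith
  have hr2 : r < δ := by
    have : r ≤ δ / 2 := min_le_right _ _
    linarith
  have hsphere : sphere z₂ |r| ⊆ Ω := by
    rw [abs_of_pos hrpos]
    intro z hz
    apply hball
    rw [mem_sphere] at hz
    rw [mem_ball, hz]; exact hr2
  have hmean := hr r hrpos hr1
  have hlt : ¬ ∃ z ∈ sphere z₂ |r|, u z < M := by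
    intro hex
    have := circleAverage_lt_of_exists (hu.mono (hsphere.trans hsub))
      (fun z hz => hall z (hsub (hsphere hz))) hex
    linarith
  push Not at hlt
  have hmem : z₂ + (r : ℂ) ∈ sphere z₂ |r| := by
    simp [mem_sphere, dist_eq_norm]
  have h3 := hlt _ hmem
  have h4 : z₂ + (r : ℂ) ∈ {z | z ∈ K ∧ M ≤ u z} := ⟨hsub (hsphere hmem), h3⟩
  have h5 := hre h4
  simp at h5
  linarith

end Pool.Agent.Helper60
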