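import Pool.Agent.Helper60.KFun
import Pool.Agent.Helper60.MaxPrinciple

open MeasureTheory Set Filter Topology Metric Complex
open scoped Real Nat
open Real (circleAverage circleAverage_congr_sphere circleAverage_fun_smul
  circleAverage_fun_sub circleAverage_const)

namespace Pool.Agent.Helper60

/-- Squares of points of the closed strip. -/
def Pbar : Set ℂ := {w | ∃ ζ : ℂ, ζ ^ 2 = w ∧ |ζ.im| ≤ 1}

lemma nk_bound_Pbar {w : ℂ} (hw : w ∈ Pbar) {M : ℝ} (hM : ‖w‖ ≤ M) {r : ℝ} (hr : 0 < r) :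
    |nk r w| ≤ Bd M * (1 + r ^ 2)⁻¹ := by
  obtain ⟨ζ, rfl, hζ⟩ := hw
  exact nk_bound hζ hM hr

lemma nk_cont (r : ℝ) : Continuous (fun w : ℂ => nk r w) := by
  unfold nk
  apply Continuous.div_const
  apply Continuous.sub continuous_const
  apply Continuous.div_const
  exact Complex.continuous_re.comp (Cf_continuous.comp (by fun_prop))

lemma kf_continuousOn : ContinuousOn kf Pbar := by
  intro w₀ hw₀
  unfold kf
  apply ContinuousWithinAt.div_const
  apply continuousWithinAt_of_dominated (bound := fun r => Bd (‖w₀‖ + 1) * (1 + r ^ 2)⁻¹)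
  · exact Eventually.of_forall fun w => (nk_measurable_left w).aestronglyMeasurable
  · have h1 : ∀ᶠ w in 𝓝[Pbar] w₀, ‖w‖ ≤ ‖w₀‖ + 1 := by
      apply Filter.Eventually.filter_mono nhdsWithin_le_nhds
      have : Tendsto (fun w : ℂ => ‖w‖) (𝓝 w₀) (𝓝 ‖w₀‖) := continuous_norm.continuousAt
      exact this.eventually (eventually_le_nhds (by linarith))
    have h2 : ∀ᶠ w in 𝓝[Pbar] w₀, w ∈ Pbar := self_mem_nhdsWithin
    filter_upwards [h1, h2] with w h3 h4
    rw [ae_restrict_iff' measurableSet_Ioi]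
    exact Eventually.of_forall fun r hr => nk_bound_Pbar h4 h3 hr
  · exact integrableOn_bd _
  · exact Eventually.of_forall fun r => (nk_cont r).continuousWithinAt

/-- mean value property of one integrand. -/
lemma nk_mean {W : ℂ → ℂ} {c : ℂ} {R : ℝ} (hR : 0 < R) (hW : DiffContOnCl ℂ W (ball c R)) (r : ℝ) :
    circleAverage (fun z => nk r (W z)) c R = nk r (W c) := by
  set F : ℂ → ℂ := fun z => Cf ((r : ℂ) ^ 2 * W z) with hF
  have hdc : DiffContOnCl ℂ F (ball c |R|) := by
    rw [abs_of_pos hR]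
    exact Cf_differentiable.comp_diffContOnCl (hW.const_smul ((r : ℂ) ^ 2))
  have h1 : circleAverage F c R = F c := hdc.circleAverage
  have hFc : ContinuousOn F (closedBall c R) := by
    have := hdc.2
    rw [abs_of_pos hR, closure_ball _ hR.ne'] at this
    exact this
  have hci : CircleIntegrable F c R :=
    ContinuousOn.circleIntegrable hR.le (hFc.mono sphere_subset_closedBall)
  have h2 := (Complex.reCLM).circleAverage_comp_comm hci
  have h3 : circleAverage (fun z => (F z).re) c R = (F c).re := by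
    rw [h1] at h2; exact h2
  have hci2 : CircleIntegrable (fun z => (F z).re) c R := by
    apply ContinuousOn.circleIntegrable hR.le
    exact Complex.continuous_re.comp_continuousOn (hFc.mono sphere_subset_closedBall)
  have h4 : (fun z => nk r (W z)) =
      (fun z => (r ^ 2)⁻¹ • ((1 : ℝ) - (Real.cosh r)⁻¹ • (F z).re)) := by
    ext z
    unfold nk
    simp only [hF, smul_eq_mul]
    ring
  have hci3 : CircleIntegrable (fun z => (Real.cosh r)⁻¹ • (F z).re) c R := by
    exact hci2.const_smul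
  rw [h4, circleAverage_fun_smul, circleAverage_fun_sub (circleIntegrable_const _ _ _) hci3,
    circleAverage_fun_smul, h3, circleAverage_const]
  unfold nk
  simp only [hF, smul_eq_mul]
  ring

/-- mean value property of `kf ∘ W`. -/
theorem kf_mean {W : ℂ → ℂ} {c : ℂ} {R : ℝ} (hR : 0 < R) (hW : DiffContOnCl ℂ W (ball c R))
    (hP : ∀ z ∈ sphere c R, W z ∈ Pbar) :
    circleAverage (fun z => kf (W z)) c R = kf (W c) := by
  have hWc : ContinuousOn W (closedBall c R) := by
    have := hW.2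
    rwa [closure_ball _ hR.ne'] at this
  have hWθ : Continuous (fun θ : ℝ => W (circleMap c R θ)) := by
    rw [← continuousOn_univ]
    exact hWc.comp (continuous_circleMap c R).continuousOn
      (fun θ _ => circleMap_mem_closedBall c hR.le θ)
  obtain ⟨M, hM⟩ : ∃ M, ∀ z ∈ sphere c R, ‖W z‖ ≤ M :=
    (isCompact_sphere c R).exists_bound_of_continuousOn (hWc.mono sphere_subset_closedBall)
  have hmem : ∀ θ : ℝ, circleMap c R θ ∈ sphere c R := fun θ => circleMap_mem_sphere c hR.le θ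
  have hint : Integrable (Function.uncurry fun (θ : ℝ) (r : ℝ) => nk r (W (circleMap c R θ)))
      ((volume.restrict (Set.uIoc 0 (2 * π))).prod (volume.restrict (Ioi 0))) := by
    have hbd : Integrable (fun p : ℝ × ℝ => (1 : ℝ) * (Bd M * (1 + p.2 ^ 2)⁻¹))
        ((volume.restrict (Set.uIoc 0 (2 * π))).prod (volume.restrict (Ioi 0))) := by
      apply Integrable.mul_prod (f := fun _ : ℝ => (1 : ℝ)) (g := fun r : ℝ => Bd M * (1 + r ^ 2)⁻¹)
      · apply integrable_const_iff.2
        right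
        constructor
        rw [Measure.restrict_apply_univ, uIoc_of_le Real.two_pi_pos.le, Real.volume_Ioc]
        exact ENNReal.ofReal_lt_top
      · exact integrableOn_bd M
    refine hbd.mono' ?_ ?_
    · have hm : Measurable (fun p : ℝ × ℝ => nk p.2 (W (circleMap c R p.1))) := by
        unfold nk
        apply Measurable.div _ (by fun_prop)
        apply Measurable.sub measurable_const
        apply Measurable.div _ (by fun_prop)
        apply Complex.measurable_re.comp
        apply Cf_continuous.measurable.comp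
        apply Measurable.mul (by fun_prop)
        exact hWθ.measurable.comp measurable_fst
      exact hm.aestronglyMeasurable
    · rw [Measure.prod_restrict, ae_restrict_iff' (measurableSet_uIoc.prod measurableSet_Ioi)]
      refine Eventually.of_forall fun p hp => ?_
      rw [one_mul]
      exact nk_bound_Pbar (hP _ (hmem _)) (hM _ (hmem _)) hp.2
  have hswap := intervalIntegral_integral_swap (a := 0) (b := 2 * π)
    (f := fun (θ : ℝ) (r : ℝ) => nk r (W (circleMap c R θ))) (μ := volume.restrict (Ioi 0)) hint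
  have h1 : circleAverage (fun z => kf (W z)) c R =
      ((2 * π)⁻¹ * ∫ θ in (0:ℝ)..2 * π, ∫ r in Ioi (0:ℝ), nk r (W (circleMap c R θ))) / c0 := by
    unfold circleAverage kf
    rw [smul_eq_mul, intervalIntegral.integral_div]
    ring
  rw [h1, hswap, ← integral_const_mul]
  unfold kf
  congr 1
  congr 1
  ext r
  have h2 := nk_mean hR hW r
  unfold circleAverage at h2
  rw [smul_eq_mul] at h2
  exact h2

/-- Behaviour near zero. -/
lemma kf_sub_kap_le {w : ℂ} (hw : ‖w‖ ≤ 1 / 4) : |kf w - kap| ≤ 2 / c0 * ‖w‖ := by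
  obtain ⟨ζ, hζ⟩ := exists_sq w
  have hζn : ‖ζ‖ ^ 2 = ‖w‖ := by rw [← norm_pow, hζ]
  have hζ2 : ‖ζ‖ ≤ 1 / 2 := by
    nlinarith [norm_nonneg ζ]
  have hζim : |ζ.im| ≤ 1 := (Complex.abs_im_le_norm ζ).trans (by linarith)
  have hexp : IntegrableOn (fun r : ℝ => Real.exp (-(1/2) * r)) (Ioi 0) :=
    exp_neg_integrableOn_Ioi 0 (by norm_num)
  have hexpval : ∫ r in Ioi (0:ℝ), Real.exp (-(1/2) * r) = 2 := by
    rw [integral_exp_mul_Ioi (by norm_num)]
    simp
  have hsub : kf w - kap = (∫ r in Ioi (0:ℝ), (nk r w - nk r 0)) / c0 := by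
    unfold kap kf
    rw [integral_sub _ nk_zero_integrableOn]
    · ring
    · rw [← hζ]; exact nk_integrableOn hζim
  rw [hsub, abs_div, abs_of_pos c0_pos, div_mul_eq_mul_div]
  apply div_le_div_of_nonneg_right _ c0_pos.le
  have hb : ∀ r ∈ Ioi (0:ℝ), ‖nk r w - nk r 0‖ ≤ ‖w‖ * Real.exp (-(1/2) * r) := by
    intro r hr
    have hr0 : (0:ℝ) < r := hr
    have hr2 : 0 < r ^ 2 := by positivity
    have hc : 0 < Real.cosh r := Real.cosh_pos r
    have h1 : nk r w - nk r 0 = - ((Cf ((r : ℂ) ^ 2 * w)) - 1).re / Real.cosh r / r ^ 2 := by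
      rw [nk_zero]; unfold nk
      rw [Complex.sub_re, Complex.one_re]
      field_simp
      ring
    rw [h1, Real.norm_eq_abs, abs_div, abs_div, abs_neg, abs_of_pos hc, abs_of_pos hr2,
      div_le_iff₀ hr2, div_le_iff₀ hc]
    have hnz : ‖(r : ℂ) * ζ‖ = r * ‖ζ‖ := by
      rw [norm_mul, Complex.norm_real, Real.norm_of_nonneg hr0.le]
    have h4 : |((Cf ((r : ℂ) ^ 2 * w)) - 1).re| ≤ Real.cosh (r * ‖ζ‖) - 1 := by
      refine (Complex.abs_re_le_norm _).trans ?_
      rw [← hζ, ← mul_pow, Cf_sq, ← hnz]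
      exact norm_cos_sub_one_le _
    have h5 := cosh_sub_one_le (r * ‖ζ‖)
    have h6 : Real.cosh (r * ‖ζ‖) ≤ Real.cosh (r * (1/2)) := by
      rw [Real.cosh_le_cosh, abs_of_nonneg (by positivity), abs_of_nonneg (by positivity)]
      gcongr
    have h7 : Real.cosh (r * (1/2)) ≤ Real.exp (r * (1/2)) := by
      rw [Real.cosh_eq]
      have : Real.exp (-(r * (1/2))) ≤ Real.exp (r * (1/2)) := Real.exp_le_exp.2 (by linarith)
      linarith
    have h8 : Real.exp r / 2 ≤ Real.cosh r := by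
      rw [Real.cosh_eq]
      have := Real.exp_pos (-r)
      linarith
    have h9 : Real.exp (r * (1/2)) = Real.exp (-(1/2) * r) * Real.exp r := by
      rw [← Real.exp_add]; congr 1; ring
    have hE : 0 < Real.exp (-(1/2) * r) := Real.exp_pos _
    calc |((Cf ((r : ℂ) ^ 2 * w)) - 1).re| ≤ Real.cosh (r * ‖ζ‖) - 1 := h4
      _ ≤ (r * ‖ζ‖) ^ 2 / 2 * Real.cosh (r * ‖ζ‖) := h5
      _ ≤ (r * ‖ζ‖) ^ 2 / 2 * Real.exp (r * (1/2)) := by
          apply mul_le_mul_of_nonneg_left (h6.trans h7) (by positivity)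
      _ = ‖w‖ * Real.exp (-(1/2) * r) * r ^ 2 * (Real.exp r / 2) := by
          rw [h9, mul_pow, hζn]; ring
      _ ≤ ‖w‖ * Real.exp (-(1/2) * r) * r ^ 2 * Real.cosh r := by
          apply mul_le_mul_of_nonneg_left h8 (by positivity)
  have h11 : ‖∫ r in Ioi (0:ℝ), (nk r w - nk r 0)‖ ≤ ∫ r in Ioi (0:ℝ), ‖w‖ * Real.exp (-(1/2) * r) := by
    apply norm_integral_le_of_norm_le (hexp.const_mul _)
    rw [ae_restrict_iff' measurableSet_Ioi]
    exact Eventually.of_forall hb
  rw [integral_const_mul, hexpval, Real.norm_eq_abs] at h11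
  linarith

/-- The strip function is bounded above by `√(X² - Y² + 1)` in the quadratic form. -/
lemma kf_le_quad {a : ℝ} (ha : 0 < a) {ζ : ℂ} (hζ : |ζ.im| ≤ 1) :
    kf (ζ ^ 2) ≤ (ζ.re ^ 2 - ζ.im ^ 2 + 1 + a ^ 2) / (2 * a) := by
  have hKc : ContinuousOn (fun ζ : ℂ => kf (ζ ^ 2)) {ζ : ℂ | |ζ.im| ≤ 1} := by
    apply kf_continuousOn.comp (by fun_prop)
    intro z hz
    exact ⟨z, rfl, hz⟩
  have hQc : Continuous (fun ζ : ℂ => (ζ.re ^ 2 - ζ.im ^ 2 + 1 + a ^ 2) / (2 * a)) := by
    fun_prop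
  have hopen : IsOpen {ζ : ℂ | |ζ.im| < 1} :=
    isOpen_lt (Complex.continuous_im.abs) continuous_const
  have hclosed : IsClosed {ζ : ℂ | |ζ.im| ≤ 1} :=
    isClosed_le (Complex.continuous_im.abs) continuous_const
  have key := maxPrinciple (Ω := {ζ : ℂ | |ζ.im| < 1}) (K := {ζ : ℂ | |ζ.im| ≤ 1})
    hopen hclosed (fun z (hz : |z.im| < 1) => le_of_lt hz)
    (u := fun ζ : ℂ => kf (ζ ^ 2) - (ζ.re ^ 2 - ζ.im ^ 2 + 1 + a ^ 2) / (2 * a))
    (hKc.sub hQc.continuousOn) ?_ ?_ ?_ ζ hζ
  · linarith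
  · -- local mean value
    intro z hz
    obtain ⟨δ, hδ, hball⟩ := Metric.isOpen_iff.1 hopen z hz
    refine ⟨δ, hδ, fun r hr hrδ => ?_⟩
    have hcb : closedBall z r ⊆ {ζ : ℂ | |ζ.im| ≤ 1} := by
      intro w hw
      have : w ∈ ball z δ := lt_of_le_of_lt hw hrδ
      have h2 : |w.im| < 1 := hball this
      exact h2.le
    have hW : DiffContOnCl ℂ (fun ζ : ℂ => ζ ^ 2) (ball z r) :=
      (differentiable_id.pow 2).diffContOnCl
    have h1 := kf_mean hr hW (fun w hw => ⟨w, rfl, hcb (sphere_subset_closedBall hw)⟩)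
    have hci1 : CircleIntegrable (fun ζ : ℂ => kf (ζ ^ 2)) z r :=
      ContinuousOn.circleIntegrable hr.le (hKc.mono (sphere_subset_closedBall.trans hcb))
    have hci2 : CircleIntegrable (fun ζ : ℂ => (ζ.re ^ 2 - ζ.im ^ 2 + 1 + a ^ 2) / (2 * a)) z r :=
      ContinuousOn.circleIntegrable hr.le hQc.continuousOn
    have h2 : circleAverage (fun ζ : ℂ => (ζ.re ^ 2 - ζ.im ^ 2 + 1 + a ^ 2) / (2 * a)) z r =
        (z.re ^ 2 - z.im ^ 2 + 1 + a ^ 2) / (2 * a) := by
      set F : ℂ → ℂ := fun ζ => (ζ ^ 2 + 1 + (a : ℂ) ^ 2) / (2 * a) with hF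
      have hFd : Differentiable ℂ F := by
        rw [hF]; fun_prop
      have h3 : circleAverage F z r = F z := hFd.diffContOnCl.circleAverage
      have hci : CircleIntegrable F z r :=
        ContinuousOn.circleIntegrable hr.le hFd.continuous.continuousOn
      have h4 := (Complex.reCLM).circleAverage_comp_comm hci
      have h5 : ∀ ζ : ℂ, (F ζ).re = (ζ.re ^ 2 - ζ.im ^ 2 + 1 + a ^ 2) / (2 * a) := by
        intro ζ
        have : F ζ = ((ζ.re ^ 2 - ζ.im ^ 2 + 1 + a ^ 2) / (2 * a) : ℝ) +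
            ((ζ.re * ζ.im / a : ℝ) : ℂ) * I := by
          simp only [hF]
          have ha' : (a : ℂ) ≠ 0 := by exact_mod_cast ha.ne'
          conv_lhs => rw [← Complex.re_add_im ζ]
          push_cast
          field_simp
          ring_nf
          rw [Complex.I_sq]
          ring
        rw [this, Complex.add_re, Complex.ofReal_re, Complex.re_ofReal_mul, Complex.I_re]
        ring
      rw [h3] at h4
      have h6 : (⇑reCLM ∘ F) = fun ζ : ℂ => (ζ.re ^ 2 - ζ.im ^ 2 + 1 + a ^ 2) / (2 * a) := by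
        ext ζ; exact h5 ζ
      rw [h6] at h4
      rw [h4]
      exact h5 z
    rw [circleAverage_fun_sub hci1 hci2, h1, h2]
  · intro z hz hz'
    have h1 : |z.im| = 1 := le_antisymm hz (not_lt.1 hz')
    rw [kf_boundary h1]
    have h2 : z.im ^ 2 = 1 := by rw [← sq_abs, h1]; norm_num
    rw [h2, sub_nonpos, le_div_iff₀ (by positivity)]
    have h3 : |z.re| ^ 2 = z.re ^ 2 := sq_abs _
    nlinarith [sq_nonneg (|z.re| - a)]
  · intro ε hε
    rw [Metric.isBounded_iff_subset_closedBall 0]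
    refine ⟨2 * a + 2 * (kap + 1) + 2, fun z hz => ?_⟩
    rw [mem_closedBall, dist_zero_right]
    have hz1 : |z.im| ≤ 1 := hz.1
    have h1 := kf_le_kap_add hz1
    have h2 : ε ≤ kf (z ^ 2) - (z.re ^ 2 - z.im ^ 2 + 1 + a ^ 2) / (2 * a) := hz.2
    have h3 : z.im ^ 2 ≤ 1 := by rw [← sq_abs]; exact pow_le_one₀ (abs_nonneg _) hz1
    have h4 : (z.re ^ 2) / (2 * a) ≤ (z.re ^ 2 - z.im ^ 2 + 1 + a ^ 2) / (2 * a) := by
      gcongr
      nlinarith [sq_nonneg a]
    have h5 : (z.re ^ 2) / (2 * a) ≤ kap + |z.re| := by linarith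
    rw [div_le_iff₀ (by positivity)] at h5
    have h6 : |z.re| ^ 2 = z.re ^ 2 := sq_abs _
    have hkap := kap_nonneg
    have h7 : |z.re| ≤ 2 * a + 2 * (kap + 1) := by
      by_contra hcon
      push Not at hcon
      have h8 : 0 ≤ |z.re| := abs_nonneg _
      nlinarith
    have h8 : ‖z‖ ≤ |z.re| + |z.im| := Complex.norm_le_abs_re_add_abs_im z
    linarith

/-- `kf ≤ √(Re w + 1)`. -/
lemma kf_le_sqrt {ζ : ℂ} (hζ : |ζ.im| ≤ 1) :
    kf (ζ ^ 2) ≤ Real.sqrt (ζ.re ^ 2 - ζ.im ^ 2 + 1) := by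
  have h3 : ζ.im ^ 2 ≤ 1 := by rw [← sq_abs]; exact pow_le_one₀ (abs_nonneg _) hζ
  set s := ζ.re ^ 2 - ζ.im ^ 2 + 1 with hs
  have hs0 : 0 ≤ s := by rw [hs]; nlinarith [sq_nonneg ζ.re]
  rcases hs0.eq_or_lt with h | h
  · -- boundary case
    have hre : ζ.re ^ 2 = 0 := by nlinarith [sq_nonneg ζ.re]
    have him : ζ.im ^ 2 = 1 := by nlinarith [sq_nonneg ζ.re]
    have him' : |ζ.im| = 1 := by
      rw [← sq_abs] at him
      have := abs_nonneg ζ.im
      nlinarith
    rw [kf_boundary him']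
    have : ζ.re = 0 := by simpa using hre
    rw [this]
    simp
  · have h1 := kf_le_quad (Real.sqrt_pos.2 h) hζ
    have h2 : (ζ.re ^ 2 - ζ.im ^ 2 + 1 + Real.sqrt s ^ 2) / (2 * Real.sqrt s) = Real.sqrt s := by
      rw [← hs, Real.sq_sqrt hs0]
      have h4 : Real.sqrt s ≠ 0 := (Real.sqrt_pos.2 h).ne'
      field_simp
      nlinarith [Real.sq_sqrt hs0]
    rw [h2] at h1
    exact h1

/-- `|Re ζ| ≤ kf (ζ^2)`. -/
lemma abs_re_le_kf {ζ : ℂ} (hζ : |ζ.im| ≤ 1) : |ζ.re| ≤ kf (ζ ^ 2) := by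
  have hKc : ContinuousOn (fun ζ : ℂ => kf (ζ ^ 2)) {ζ : ℂ | |ζ.im| ≤ 1} := by
    apply kf_continuousOn.comp (by fun_prop)
    intro z hz
    exact ⟨z, rfl, hz⟩
  have hopen : IsOpen {ζ : ℂ | |ζ.im| < 1} :=
    isOpen_lt (Complex.continuous_im.abs) continuous_const
  have hclosed : IsClosed {ζ : ℂ | |ζ.im| ≤ 1} :=
    isClosed_le (Complex.continuous_im.abs) continuous_const
  have hη : ∀ η : ℝ, 0 < η → η < 1 → (1 - η) * |ζ.re| ≤ kf (ζ ^ 2) := by
    intro η hη hη1
    have hAc : Continuous (fun ζ : ℂ => (1 - η) * |ζ.re|) := by fun_prop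
    have key := maxPrinciple (Ω := {ζ : ℂ | |ζ.im| < 1}) (K := {ζ : ℂ | |ζ.im| ≤ 1})
      hopen hclosed (fun z (hz : |z.im| < 1) => le_of_lt hz)
      (u := fun ζ : ℂ => (1 - η) * |ζ.re| - kf (ζ ^ 2))
      (hAc.continuousOn.sub hKc) ?_ ?_ ?_ ζ hζ
    · linarith
    · intro z hz
      obtain ⟨δ, hδ, hball⟩ := Metric.isOpen_iff.1 hopen z hz
      refine ⟨δ, hδ, fun r hr hrδ => ?_⟩
      have hcb : closedBall z r ⊆ {ζ : ℂ | |ζ.im| ≤ 1} := by
        intro w hw
        have : w ∈ ball z δ := lt_of_le_of_lt hw hrδ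
        have h2 : |w.im| < 1 := hball this
        exact h2.le
      have hW : DiffContOnCl ℂ (fun ζ : ℂ => ζ ^ 2) (ball z r) :=
        (differentiable_id.pow 2).diffContOnCl
      have h1 := kf_mean hr hW (fun w hw => ⟨w, rfl, hcb (sphere_subset_closedBall hw)⟩)
      have hci1 : CircleIntegrable (fun ζ : ℂ => kf (ζ ^ 2)) z r :=
        ContinuousOn.circleIntegrable hr.le (hKc.mono (sphere_subset_closedBall.trans hcb))
      have hci2 : CircleIntegrable (fun ζ : ℂ => (1 - η) * |ζ.re|) z r :=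
        ContinuousOn.circleIntegrable hr.le hAc.continuousOn
      have h2 : (1 - η) * |z.re| ≤ circleAverage (fun ζ : ℂ => (1 - η) * |ζ.re|) z r := by
        have h3 : circleAverage (fun ζ : ℂ => ζ) z r = z :=
          (differentiable_id.diffContOnCl).circleAverage
        have hci : CircleIntegrable (fun ζ : ℂ => ζ) z r :=
          ContinuousOn.circleIntegrable hr.le continuous_id.continuousOn
        have h4 := (Complex.reCLM).circleAverage_comp_comm hci
        rw [h3] at h4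
        have h5 : z.re = circleAverage (fun ζ : ℂ => ζ.re) z r := h4.symm
        have h6 := Real.abs_circleAverage_le_circleAverage_abs (f := fun ζ : ℂ => ζ.re)
          (c := z) (R := r)
        rw [← h5] at h6
        have h7 := circleAverage_fun_smul (a := (1 - η)) (f := fun ζ : ℂ => |ζ.re|)
          (c := z) (R := r)
        simp only [smul_eq_mul] at h7
        rw [h7]
        exact mul_le_mul_of_nonneg_left h6 (by linarith)
      rw [circleAverage_fun_sub hci2 hci1, h1]
      linarith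
    · intro z hz hz'
      have h1 : |z.im| = 1 := le_antisymm hz (not_lt.1 hz')
      rw [kf_boundary h1]
      have := abs_nonneg z.re
      nlinarith
    · intro ε hε
      rw [Metric.isBounded_iff_subset_closedBall 0]
      refine ⟨kap / η + 1, fun z hz => ?_⟩
      rw [mem_closedBall, dist_zero_right]
      have hz1 : |z.im| ≤ 1 := hz.1
      have h1 := abs_re_sub_kap_le hz1
      have h2 : ε ≤ (1 - η) * |z.re| - kf (z ^ 2) := hz.2
      have h3 : η * |z.re| ≤ kap := by linarith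
      have h4 : |z.re| ≤ kap / η := by
        rw [le_div_iff₀ hη]; linarith
      have h8 : ‖z‖ ≤ |z.re| + |z.im| := Complex.norm_le_abs_re_add_abs_im z
      linarith
  have hlim : Tendsto (fun η : ℝ => (1 - η) * |ζ.re|) (𝓝[>] 0) (𝓝 ((1 - 0) * |ζ.re|)) := by
    apply Tendsto.mul_const
    apply Tendsto.const_sub
    exact tendsto_nhdsWithin_of_tendsto_nhds tendsto_id
  rw [sub_zero, one_mul] at hlim
  refine le_of_tendsto hlim ?_
  filter_upwards [Ioo_mem_nhdsGT (show (0:ℝ) < 1 by norm_num)] with η h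
  exact hη η h.1 h.2

end Pool.Agent.Helper60
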