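import Pool.Agent.Helper60.KFun

open MeasureTheory Set Filter Topology Complex
open scoped Real Nat

namespace Pool.Agent.Helper60

lemma sigmoid_facts (τ : ℝ) : 0 < Real.sigmoid τ ∧ 0 < 1 - Real.sigmoid τ ∧
    Real.log (1 - Real.sigmoid τ) = Real.log (Real.sigmoid τ) - τ ∧
    Real.exp (Real.log (Real.sigmoid τ) - τ / 2) = 1 / (2 * Real.cosh (τ / 2)) := by
  have h1 := Real.sigmoid_pos τ
  have h2 : 0 < 1 - Real.sigmoid τ := by linarith [Real.sigmoid_lt_one τ]
  refine ⟨h1, h2, ?_, ?_⟩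
  · have h3 : 1 - Real.sigmoid τ = Real.sigmoid τ * Real.exp (-τ) := by
      rw [Real.sigmoid_mul_rexp_neg, Real.sigmoid_neg]
    rw [h3, Real.log_mul h1.ne' (Real.exp_pos _).ne', Real.log_exp]
    ring
  · rw [Real.exp_sub, Real.exp_log h1, Real.sigmoid_def, Real.cosh_eq]
    have e1 : Real.exp (-τ) = Real.exp (-(τ / 2)) * Real.exp (-(τ / 2)) := by
      rw [← Real.exp_add]; congr 1; ring
    have e2 : Real.exp (-(τ / 2)) = (Real.exp (τ / 2))⁻¹ := Real.exp_neg _
    rw [e1, e2]
    have := Real.exp_pos (τ / 2)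
    field_simp

/-- Fourier transform of the hyperbolic secant -/
lemma ft_sech (a : ℝ) : ∫ τ : ℝ, Complex.exp (a * τ * I) * ((1 / (2 * Real.cosh (τ / 2)) : ℝ) : ℂ) =
    ((π / Real.cosh (π * a) : ℝ) : ℂ) := by
  set u : ℂ := 1 / 2 + a * I with hu'
  set v : ℂ := 1 / 2 - a * I with hv'
  have hu : 0 < u.re := by rw [hu']; simp
  have hv : 0 < v.re := by rw [hv']; simp
  have huv : u + v = 1 := by rw [hu', hv']; ring
  have h1 := Complex.Gamma_mul_Gamma_eq_betaIntegral hu hv
  rw [huv, Complex.Gamma_one, one_mul] at h1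
  have h2 : Complex.Gamma u * Complex.Gamma v = π / Complex.sin (π * u) := by
    have := Complex.Gamma_mul_Gamma_one_sub u
    rw [← this]
    congr 2
    rw [← huv]; ring
  have h3 : Complex.sin (π * u) = Real.cosh (π * a) := by
    rw [show (π:ℂ) * u = (π * a) * I + π / 2 by rw [hu']; ring, Complex.sin_add_pi_div_two,
      Complex.cos_mul_I]
    push_cast; rfl
  rw [h2, h3] at h1
  have h4 : Complex.betaIntegral u v =
      ∫ τ : ℝ, Complex.exp (a * τ * I) * ((1 / (2 * Real.cosh (τ / 2)) : ℝ) : ℂ) := by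
    unfold Complex.betaIntegral
    rw [intervalIntegral.integral_of_le zero_le_one, integral_Ioc_eq_integral_Ioo,
      ← Real.range_sigmoid, ← image_univ,
      integral_image_eq_integral_abs_deriv_smul MeasurableSet.univ
        (fun x _ => (Real.hasDerivAt_sigmoid x).hasDerivWithinAt)
        (Real.sigmoid_injective.injOn), setIntegral_univ]
    congr 1
    ext τ
    obtain ⟨hs0, hs1, hlog, hexp⟩ := sigmoid_facts τ
    have hc0 : ((Real.sigmoid τ : ℝ) : ℂ) ≠ 0 := by exact_mod_cast hs0.ne'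
    have hc1 : (1 : ℂ) - ((Real.sigmoid τ : ℝ) : ℂ) = ((1 - Real.sigmoid τ : ℝ) : ℂ) := by
      push_cast; rfl
    have hc2 : ((1 - Real.sigmoid τ : ℝ) : ℂ) ≠ 0 := by exact_mod_cast hs1.ne'
    set L := Real.log (Real.sigmoid τ) with hL
    have e1 : ((Real.sigmoid τ : ℝ) : ℂ) = Complex.exp L := by
      rw [hL, ← Complex.ofReal_exp, Real.exp_log hs0]
    have e2 : ((1 - Real.sigmoid τ : ℝ) : ℂ) = Complex.exp (L - τ : ℝ) := by
      rw [← hlog, ← Complex.ofReal_exp, Real.exp_log hs1]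
    rw [hc1, Complex.cpow_def_of_ne_zero hc0, Complex.cpow_def_of_ne_zero hc2,
      ← Complex.ofReal_log hs0.le, ← Complex.ofReal_log hs1.le, hlog, ← hL,
      abs_of_pos (mul_pos hs0 hs1), Complex.real_smul, Complex.ofReal_mul, e1, e2, ← hexp,
      Complex.ofReal_exp, ← Complex.exp_add, ← Complex.exp_add, ← Complex.exp_add,
      ← Complex.exp_add]
    congr 1
    rw [hu', hv']
    push_cast
    ring
  rw [← h4, ← h1]
  push_cast
  rfl

lemma sech_integrable (a : ℝ) :
    Integrable (fun τ : ℝ => Complex.exp (a * τ * I) * ((1 / (2 * Real.cosh (τ / 2)) : ℝ) : ℂ)) := by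
  by_contra h
  have h1 := integral_undef h
  rw [ft_sech] at h1
  have h2 : π / Real.cosh (π * a) = 0 := by exact_mod_cast h1
  have := Real.cosh_pos (π * a)
  have := Real.pi_pos
  have : 0 < π / Real.cosh (π * a) := by positivity
  linarith

lemma sech_integrable_zero : Integrable (fun τ : ℝ => 1 / (2 * Real.cosh (τ / 2))) := by
  have := (sech_integrable 0).re
  refine this.congr (Eventually.of_forall fun τ => ?_)
  simp only [Complex.ofReal_zero, zero_mul, Complex.exp_zero, one_mul]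
  exact Complex.ofReal_re _

lemma cos_sech_integrable (a : ℝ) :
    Integrable (fun τ : ℝ => Real.cos (a * τ) * (1 / (2 * Real.cosh (τ / 2)))) := by
  refine sech_integrable_zero.bdd_mul (c := 1) ?_ (Eventually.of_forall fun τ => ?_)
  · exact Continuous.aestronglyMeasurable (by fun_prop)
  · exact Real.abs_cos_le_one _

lemma ft_sech_real (a : ℝ) : ∫ τ : ℝ, Real.cos (a * τ) * (1 / (2 * Real.cosh (τ / 2))) =
    π / Real.cosh (π * a) := by
  have h1 := integral_re (sech_integrable a)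
  rw [ft_sech a] at h1
  have h2 : RCLike.re ((π / Real.cosh (π * a) : ℝ) : ℂ) = π / Real.cosh (π * a) :=
    Complex.ofReal_re _
  rw [h2] at h1
  rw [← h1]
  congr 1
  ext τ
  show _ = (Complex.exp (a * τ * I) * ((1 / (2 * Real.cosh (τ / 2)) : ℝ) : ℂ)).re
  rw [Complex.re_mul_ofReal]
  congr 1
  have : (a : ℂ) * τ * I = ((a * τ : ℝ) : ℂ) * I := by push_cast; ring
  rw [this, Complex.exp_ofReal_mul_I_re]

/-- the weight -/
noncomputable def nu (τ : ℝ) : ℝ := π⁻¹ * (1 / (2 * Real.cosh (τ / 2)))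

lemma nu_nonneg (τ : ℝ) : 0 ≤ nu τ := by
  unfold nu
  have := Real.cosh_pos (τ / 2)
  positivity

lemma nu_continuous : Continuous nu := by
  unfold nu
  apply Continuous.mul continuous_const
  apply Continuous.div continuous_const (by fun_prop)
  intro τ
  have := Real.cosh_pos (τ / 2)
  positivity

lemma nu_integrable : Integrable nu := sech_integrable_zero.const_mul _

lemma one_sub_sech (r : ℝ) : 1 - 1 / Real.cosh r = ∫ τ, nu τ * (1 - Real.cos (r * (τ / π))) := by
  have h0 : ∫ τ, nu τ = 1 := by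
    have := ft_sech_real 0
    simp only [zero_mul, Real.cos_zero, one_mul, mul_zero, Real.cosh_zero, div_one] at this
    unfold nu
    rw [integral_const_mul, this, inv_mul_cancel₀ Real.pi_ne_zero]
  have h1 : ∫ τ, nu τ * Real.cos (r * (τ / π)) = 1 / Real.cosh r := by
    have := ft_sech_real (r / π)
    have h2 : π * (r / π) = r := by field_simp
    rw [h2] at this
    have h3 : ∀ τ, nu τ * Real.cos (r * (τ / π)) =
        π⁻¹ * (Real.cos (r / π * τ) * (1 / (2 * Real.cosh (τ / 2)))) := by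
      intro τ
      unfold nu
      rw [show r * (τ / π) = r / π * τ by ring]
      ring
    simp_rw [h3]
    rw [integral_const_mul, this]
    have := Real.pi_ne_zero
    field_simp
  have hi : Integrable (fun τ => nu τ * Real.cos (r * (τ / π))) := by
    refine nu_integrable.mul_bdd (c := 1) ?_ (Eventually.of_forall fun τ => ?_)
    · exact Continuous.aestronglyMeasurable (by fun_prop)
    · exact Real.abs_cos_le_one _
  simp_rw [mul_sub, mul_one]
  rw [integral_sub nu_integrable hi, h0, h1]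

lemma exp_mom {b : ℝ} (hb : 0 < b) : IntegrableOn (fun s : ℝ => s * Real.exp (-(b * s))) (Ioi 0) ∧
    ∫ s in Ioi (0:ℝ), s * Real.exp (-(b * s)) = 1 / b ^ 2 := by
  have hder : ∀ x ∈ Ici (0:ℝ), HasDerivAt (fun s : ℝ => -((s / b + 1 / b ^ 2) * Real.exp (-(b * s))))
      (x * Real.exp (-(b * x))) x := by
    intro x _
    have h1 : HasDerivAt (fun s : ℝ => s / b + 1 / b ^ 2) (1 / b) x :=
      ((hasDerivAt_id x).div_const b).add_const _
    have h2 : HasDerivAt (fun s : ℝ => -(b * s)) (-b) x := by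
      have := ((hasDerivAt_id x).const_mul b).fun_neg
      simpa using this
    have h3 := (h1.fun_mul h2.exp).fun_neg
    refine h3.congr_deriv ?_
    field_simp
    ring
  have hlim : Tendsto (fun s : ℝ => -((s / b + 1 / b ^ 2) * Real.exp (-(b * s)))) atTop (𝓝 0) := by
    have h1 : Tendsto (fun s : ℝ => b * s) atTop atTop := tendsto_id.const_mul_atTop hb
    have h2 := (Real.tendsto_pow_mul_exp_neg_atTop_nhds_zero 1).comp h1
    have h3 := (Real.tendsto_pow_mul_exp_neg_atTop_nhds_zero 0).comp h1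
    have h4 := ((h2.const_mul (1 / b ^ 2)).add (h3.const_mul (1 / b ^ 2))).neg
    simp only [mul_zero, add_zero, neg_zero] at h4
    refine h4.congr (fun s => ?_)
    simp only [Function.comp_apply]
    field_simp
  have hnn : ∀ x ∈ Ioi (0:ℝ), 0 ≤ x * Real.exp (-(b * x)) := by
    intro x hx
    have : 0 < x := hx
    positivity
  refine ⟨integrableOn_Ioi_deriv_of_nonneg' hder hnn hlim, ?_⟩
  rw [integral_Ioi_of_hasDerivAt_of_nonneg' hder hnn hlim]
  simp

/-- the terms of the series -/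
noncomputable def Fk (k : ℕ) (s : ℝ) : ℝ := (-1) ^ k * (s * Real.exp (-((2 * k + 1) / 2 * s)))

lemma Fk_tsum {s : ℝ} (hs : 0 < s) : ∑' k, Fk k s = s / (2 * Real.cosh (s / 2)) := by
  have h1 : ∀ k : ℕ, Fk k s = (s * Real.exp (-(s / 2))) * (-Real.exp (-s)) ^ k := by
    intro k
    unfold Fk
    rw [neg_pow (Real.exp (-s)) k, ← Real.exp_nat_mul,
      show (-((2 * (k:ℝ) + 1) / 2 * s)) = -(s / 2) + k * (-s) by ring, Real.exp_add]
    ring
  simp_rw [h1]
  rw [tsum_mul_left, tsum_geometric_of_norm_lt_one]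
  · rw [sub_neg_eq_add, Real.cosh_eq]
    have e1 : Real.exp (-s) = Real.exp (-(s / 2)) * Real.exp (-(s / 2)) := by
      rw [← Real.exp_add]; congr 1; ring
    have e2 : Real.exp (-(s / 2)) = (Real.exp (s / 2))⁻¹ := Real.exp_neg _
    rw [e1, e2]
    have := Real.exp_pos (s / 2)
    field_simp
  · rw [norm_neg, Real.norm_eq_abs, abs_of_pos (Real.exp_pos _), Real.exp_lt_one_iff]
    linarith

lemma summable_odd : Summable (fun k : ℕ => 1 / (2 * (k:ℝ) + 1) ^ 2) := by
  have h := (Real.summable_one_div_nat_pow (p := 2)).2 (by norm_num)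
  have h2 := h.comp_injective (i := fun k : ℕ => 2 * k + 1) (fun a b hab => by
    simp only at hab; omega)
  refine h2.congr (fun k => ?_)
  simp

lemma Fk_hasSum : HasSum (fun k : ℕ => (-1) ^ k * (4 / (2 * (k:ℝ) + 1) ^ 2))
    (∫ s in Ioi (0:ℝ), s / (2 * Real.cosh (s / 2))) := by
  have hb : ∀ k : ℕ, (0:ℝ) < (2 * k + 1) / 2 := fun k => by positivity
  have hint : ∀ k : ℕ, Integrable (Fk k) (volume.restrict (Ioi (0:ℝ))) := fun k =>
    ((exp_mom (hb k)).1.const_mul ((-1 : ℝ) ^ k))
  have hval : ∀ k : ℕ, ∫ s in Ioi (0:ℝ), Fk k s = (-1) ^ k * (4 / (2 * (k:ℝ) + 1) ^ 2) := by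
    intro k
    unfold Fk
    rw [integral_const_mul, (exp_mom (hb k)).2]
    congr 1
    field_simp
    norm_num
  have hnorm : ∀ k : ℕ, ∫ s in Ioi (0:ℝ), ‖Fk k s‖ = 4 * (1 / (2 * (k:ℝ) + 1) ^ 2) := by
    intro k
    have h1 : ∀ s ∈ Ioi (0:ℝ), ‖Fk k s‖ = s * Real.exp (-((2 * k + 1) / 2 * s)) := by
      intro s hs
      have hs0 : 0 < s := hs
      unfold Fk
      rw [norm_mul, norm_pow, norm_neg, norm_one, one_pow, one_mul, Real.norm_of_nonneg
        (by positivity)]
    rw [setIntegral_congr_fun measurableSet_Ioi h1, (exp_mom (hb k)).2]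
    field_simp
    norm_num
  have hsum : Summable fun k : ℕ => ∫ s in Ioi (0:ℝ), ‖Fk k s‖ := by
    simp_rw [hnorm]
    exact summable_odd.mul_left 4
  have h := hasSum_integral_of_summable_integral_norm hint hsum
  simp_rw [hval] at h
  rwa [setIntegral_congr_fun (g := fun s => s / (2 * Real.cosh (s / 2))) measurableSet_Ioi
    (fun s hs => Fk_tsum hs)] at h

lemma abs_sech_integrable : Integrable (fun τ : ℝ => |τ| * (1 / (2 * Real.cosh (τ / 2)))) := by
  have h1 : IntegrableOn (fun τ : ℝ => |τ| * (1 / (2 * Real.cosh (τ / 2)))) (Ioi 0) := by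
    have h2 := (exp_mom (b := 1 / 2) (by norm_num)).1
    refine Integrable.mono' h2 ?_ ?_
    · apply Continuous.aestronglyMeasurable
      apply Continuous.mul continuous_abs
      apply Continuous.div continuous_const (by fun_prop)
      intro τ
      have := Real.cosh_pos (τ / 2)
      positivity
    · rw [ae_restrict_iff' measurableSet_Ioi]
      refine Eventually.of_forall fun τ hτ => ?_
      have hτ0 : 0 < τ := hτ
      have hc := Real.cosh_pos (τ / 2)
      rw [Real.norm_of_nonneg (by positivity), abs_of_pos hτ0]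
      gcongr
      rw [one_div, inv_le_comm₀ (by positivity) (Real.exp_pos _), ← Real.exp_neg, Real.cosh_eq]
      have := Real.exp_pos (-(τ / 2))
      have e : -(-(1 / 2 * τ)) = τ / 2 := by ring
      rw [e]
      linarith
  have h3 := (integrable_indicator_iff measurableSet_Ioi).2 h1
  have h4 := h3.add h3.comp_neg
  refine h4.congr (Eventually.of_forall fun τ => ?_)
  simp only [Pi.add_apply]
  rcases lt_trichotomy τ 0 with h | h | h
  · rw [indicator_of_notMem (show τ ∉ Ioi (0:ℝ) from not_lt.2 h.le),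
      indicator_of_mem (show -τ ∈ Ioi (0:ℝ) from neg_pos.2 h), abs_neg, neg_div, Real.cosh_neg,
      zero_add]
  · subst h; simp
  · rw [indicator_of_mem (show τ ∈ Ioi (0:ℝ) from h),
      indicator_of_notMem (show -τ ∉ Ioi (0:ℝ) from not_lt.2 (neg_nonpos.2 h.le)), add_zero]

lemma integral_abs_sech : ∫ τ : ℝ, |τ| * (1 / (2 * Real.cosh (τ / 2))) =
    2 * ∫ s in Ioi (0:ℝ), s / (2 * Real.cosh (s / 2)) := by
  rw [← integral_comp_abs (f := fun s => s / (2 * Real.cosh (s / 2)))]
  congr 1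
  ext τ
  have : Real.cosh (|τ| / 2) = Real.cosh (τ / 2) := by
    rw [← Real.cosh_abs (τ / 2), abs_div, abs_two]
  rw [this]
  ring

/-- evaluation of the constant as an integral -/
lemma kap_eq_integral : kap = (2 / π ^ 2) * ∫ s in Ioi (0:ℝ), s / (2 * Real.cosh (s / 2)) := by
  have hpi := Real.pi_pos
  -- the double integral
  set G : ℝ × ℝ → ℝ := fun p => nu p.2 * ((1 - Real.cos (p.1 * (p.2 / π))) / p.1 ^ 2) with hG
  have hmeas : AEStronglyMeasurable G ((volume.restrict (Ioi (0:ℝ))).prod volume) := by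
    apply Measurable.aestronglyMeasurable
    apply Measurable.mul
    · exact nu_continuous.measurable.comp measurable_snd
    · fun_prop
  have hnorm : ∀ τ : ℝ, ∫ r in Ioi (0:ℝ), ‖G (r, τ)‖ = nu τ * (c0 * |τ / π|) := by
    intro τ
    rw [← integral_one_sub_cos, ← integral_const_mul]
    congr 1
    ext r
    have h1 : 0 ≤ 1 - Real.cos (r * (τ / π)) := by linarith [Real.cos_le_one (r * (τ / π))]
    simp only [hG]
    rw [Real.norm_of_nonneg (mul_nonneg (nu_nonneg _) (by positivity))]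
  have hGi : Integrable G ((volume.restrict (Ioi (0:ℝ))).prod volume) := by
    rw [integrable_prod_iff' hmeas]
    constructor
    · refine Eventually.of_forall fun τ => ?_
      exact (one_sub_cos_integrableOn (τ / π)).const_mul (nu τ)
    · simp_rw [hnorm]
      have h2 := abs_sech_integrable.const_mul (π⁻¹ * c0 * π⁻¹)
      refine h2.congr (Eventually.of_forall fun τ => ?_)
      simp only [nu]
      rw [abs_div, abs_of_pos hpi]
      ring
  have h1 : ∫ r in Ioi (0:ℝ), nk r 0 = ∫ r in Ioi (0:ℝ), ∫ τ, G (r, τ) := by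
    congr 1
    ext r
    rw [nk_zero, one_sub_sech, div_eq_mul_inv, ← integral_mul_const]
    congr 1
    ext τ
    simp only [hG]
    ring
  have h2 : ∫ r in Ioi (0:ℝ), ∫ τ, G (r, τ) = ∫ τ, ∫ r in Ioi (0:ℝ), G (r, τ) :=
    integral_integral_swap (f := fun r τ => G (r, τ)) hGi
  have h3 : ∀ τ : ℝ, ∫ r in Ioi (0:ℝ), G (r, τ) = nu τ * (c0 * |τ / π|) := by
    intro τ
    simp only [hG]
    rw [integral_const_mul, integral_one_sub_cos]
  unfold kap kf
  rw [h1, h2]
  simp_rw [h3]
  have h4 : ∀ τ : ℝ, nu τ * (c0 * |τ / π|) =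
      (c0 / π ^ 2) * (|τ| * (1 / (2 * Real.cosh (τ / 2)))) := by
    intro τ
    unfold nu
    rw [abs_div, abs_of_pos hpi]
    field_simp
  simp_rw [h4]
  rw [integral_const_mul, integral_abs_sech]
  have := c0_pos.ne'
  field_simp

lemma tsum_odd : ∑' n : ℕ, 1 / (2 * (n:ℝ) + 1) ^ 2 = π ^ 2 / 8 := by
  have h := hasSum_zeta_two
  have he : HasSum (fun k : ℕ => (1:ℝ) / ((2 * k : ℕ) : ℝ) ^ 2) (1 / 4 * (π ^ 2 / 6)) := by
    refine (h.mul_left (1 / 4)).congr_fun ?_
    intro k
    push_cast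
    rcases eq_or_ne (k:ℝ) 0 with h0 | h0
    · rw [h0]; simp
    · field_simp; norm_num
  have ho : HasSum (fun k : ℕ => (1:ℝ) / ((2 * k + 1 : ℕ) : ℝ) ^ 2)
      (∑' n : ℕ, 1 / (2 * (n:ℝ) + 1) ^ 2) := by
    refine summable_odd.hasSum.congr_fun ?_
    intro k
    push_cast
    rfl
  have h2 := (he.even_add_odd ho).unique h
  linarith

/-- evaluation of the constant -/
theorem one_div_kap : 1 / kap = (∑' n : ℕ, 1 / (2 * (n:ℝ) + 1) ^ 2) /
    (∑' n : ℕ, (-1) ^ n / (2 * (n:ℝ) + 1) ^ 2) := by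
  have hpi := Real.pi_pos
  have h1 := Fk_hasSum.tsum_eq
  have h2 : ∀ k : ℕ, (-1:ℝ) ^ k * (4 / (2 * (k:ℝ) + 1) ^ 2) =
      4 * ((-1) ^ k / (2 * (k:ℝ) + 1) ^ 2) := fun k => by ring
  simp_rw [h2] at h1
  rw [tsum_mul_left] at h1
  rw [kap_eq_integral, ← h1, tsum_odd]
  field_simp
  norm_num

end Pool.Agent.Helper60
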