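import Mathlib

open MeasureTheory Set Filter Topology Metric
open scoped Real ENNReal

namespace Pool.Agent.Helper60

/-- Lebesgue point. -/
def LebPt (f : ℝ → ℂ) (x : ℝ) : Prop :=
  Tendsto (fun ρ => (∫⁻ y in closedBall x ρ, ‖f y - f x‖ₑ) / volume (closedBall x ρ))
    (𝓝[>] 0) (𝓝 0)

lemma ae_lebPt {f : ℝ → ℂ} (hf : Integrable f) : ∀ᵐ x, LebPt f x := by
  filter_upwards [(Besicovitch.vitaliFamily (volume : Measure ℝ)).ae_tendsto_lintegral_enorm_sub_div
    hf.locallyIntegrable] with x hx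
  exact hx.comp (Besicovitch.tendsto_filterAt volume x)

/-- layer function -/
noncomputable def Hl (ε ρ : ℝ) : ℝ := 3 * ε ^ 2 / (ε + ρ) ^ 4

lemma layer_integral {ε s : ℝ} (hε : 0 < ε) (hs : 0 ≤ s) :
    IntegrableOn (Hl ε) (Ioi s) ∧ ∫ ρ in Ioi s, Hl ε ρ = ε ^ 2 / (ε + s) ^ 3 := by
  have hder : ∀ x ∈ Ici s, HasDerivAt (fun ρ : ℝ => - (ε ^ 2 / (ε + ρ) ^ 3)) (Hl ε x) x := by
    intro x hx
    have hx0 : 0 < ε + x := by have : s ≤ x := hx; linarith
    have h0 : HasDerivAt (fun ρ : ℝ => ε + ρ) 1 x := (hasDerivAt_id x).const_add ε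
    have h1 : HasDerivAt (fun ρ : ℝ => (ε + ρ) ^ 3) (3 * (ε + x) ^ 2) x :=
      (h0.fun_pow 3).congr_deriv (by simp)
    have h2 := ((hasDerivAt_const x (ε ^ 2)).fun_div h1 (by positivity)).fun_neg
    refine h2.congr_deriv ?_
    unfold Hl
    field_simp
    ring
  have hlim : Tendsto (fun ρ : ℝ => - (ε ^ 2 / (ε + ρ) ^ 3)) atTop (𝓝 0) := by
    have h1 : Tendsto (fun ρ : ℝ => (ε + ρ) ^ 3) atTop atTop :=
      (tendsto_pow_atTop (by norm_num)).comp (tendsto_atTop_add_const_left _ _ tendsto_id)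
    have h2 := (h1.const_div_atTop (ε ^ 2)).neg
    simpa using h2
  have hnn : ∀ x ∈ Ioi s, 0 ≤ Hl ε x := by
    intro x hx
    have : s < x := hx
    have : 0 < ε + x := by linarith
    unfold Hl; positivity
  constructor
  · exact integrableOn_Ioi_deriv_of_nonneg' hder hnn hlim
  · rw [integral_Ioi_of_hasDerivAt_of_nonneg' hder hnn hlim]
    ring

lemma layer_integral3 {ε s : ℝ} (hε : 0 < ε) (hs : 0 ≤ s) :
    IntegrableOn (fun ρ => (ε + ρ)⁻¹ ^ 3) (Ioi s) ∧
      ∫ ρ in Ioi s, (ε + ρ)⁻¹ ^ 3 = (ε + s)⁻¹ ^ 2 / 2 := by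
  have hder : ∀ x ∈ Ici s, HasDerivAt (fun ρ : ℝ => - ((ε + ρ)⁻¹ ^ 2 / 2)) ((ε + x)⁻¹ ^ 3) x := by
    intro x hx
    have hx0 : 0 < ε + x := by have : s ≤ x := hx; linarith
    have h1 : HasDerivAt (fun ρ : ℝ => (ε + ρ)) 1 x := (hasDerivAt_id x).const_add ε
    have h2 := (((h1.fun_inv hx0.ne').fun_pow 2).div_const 2).fun_neg
    refine h2.congr_deriv ?_
    rw [show (ε + x)⁻¹ ^ (2 - 1) = (ε + x)⁻¹ from pow_one _]
    push_cast
    field_simp
  have hlim : Tendsto (fun ρ : ℝ => - ((ε + ρ)⁻¹ ^ 2 / 2)) atTop (𝓝 0) := by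
    have h1 : Tendsto (fun ρ : ℝ => (ε + ρ)⁻¹) atTop (𝓝 0) :=
      tendsto_inv_atTop_zero.comp (tendsto_atTop_add_const_left _ _ tendsto_id)
    have h2 := ((h1.pow 2).div_const 2).neg
    simpa using h2
  have hnn : ∀ x ∈ Ioi s, 0 ≤ (ε + x)⁻¹ ^ 3 := by
    intro x hx
    have : s < x := hx
    have : 0 < ε + x := by linarith
    positivity
  constructor
  · exact integrableOn_Ioi_deriv_of_nonneg' hder hnn hlim
  · rw [integral_Ioi_of_hasDerivAt_of_nonneg' hder hnn hlim]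
    ring

lemma layer_swap {g : ℝ → ℝ≥0∞} (hg : AEMeasurable g) (x : ℝ) {ε : ℝ} (hε : 0 < ε) :
    ∫⁻ t, ENNReal.ofReal (ε ^ 2 / (ε + |x - t|) ^ 3) * g t =
      ∫⁻ ρ in Ioi (0:ℝ), ENNReal.ofReal (Hl ε ρ) * ∫⁻ t in closedBall x ρ, g t := by
  have h1 : ∀ t : ℝ, ENNReal.ofReal (ε ^ 2 / (ε + |x - t|) ^ 3) * g t =
      ∫⁻ ρ in Ioi (0:ℝ), (Ici |x - t|).indicator (fun ρ => ENNReal.ofReal (Hl ε ρ)) ρ * g t := by
    intro t
    rw [lintegral_mul_const'']
    · congr 1
      rw [lintegral_indicator measurableSet_Ici, Measure.restrict_restrict measurableSet_Ici]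
      obtain ⟨hi, hv⟩ := layer_integral hε (abs_nonneg (x - t))
      rw [← hv]
      have hset : (Ici |x - t| ∩ Ioi (0:ℝ) : Set ℝ) =ᵐ[volume] Ioi |x - t| := by
        rcases (abs_nonneg (x - t)).eq_or_lt with h | h
        · rw [← h]
          have : (Ici (0:ℝ) ∩ Ioi 0) = Ioi 0 := by
            ext y; simp only [mem_inter_iff, mem_Ici, mem_Ioi]; constructor
            · exact fun h => h.2
            · exact fun h => ⟨h.le, h⟩
          exact (Eventually.of_forall fun y => congrFun this y)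
        · have : (Ici |x - t| ∩ Ioi (0:ℝ)) = Ici |x - t| := by
            ext y; simp only [mem_inter_iff, mem_Ici, mem_Ioi]; constructor
            · exact fun h => h.1
            · exact fun h' => ⟨h', h.trans_le h'⟩
          rw [this]
          exact Ioi_ae_eq_Ici.symm
      rw [setLIntegral_congr hset]
      apply ofReal_integral_eq_lintegral_ofReal hi
      rw [EventuallyLE, ae_restrict_iff' measurableSet_Ioi]
      refine Eventually.of_forall fun y hy => ?_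
      have h0 : |x - t| < y := hy
      have : 0 < ε + y := by linarith [abs_nonneg (x - t)]
      show 0 ≤ Hl ε y
      unfold Hl; positivity
    · apply AEMeasurable.indicator _ measurableSet_Ici
      apply Measurable.aemeasurable
      unfold Hl
      fun_prop
  simp_rw [h1]
  rw [lintegral_lintegral_swap]
  · apply setLIntegral_congr_fun measurableSet_Ioi
    intro ρ hρ
    simp only
    have h2 : ∀ t : ℝ, (Ici |x - t|).indicator (fun ρ => ENNReal.ofReal (Hl ε ρ)) ρ * g t =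
        ENNReal.ofReal (Hl ε ρ) * (closedBall x ρ).indicator g t := by
      intro t
      by_cases ht : |x - t| ≤ ρ
      · rw [indicator_of_mem (show ρ ∈ Ici |x - t| from ht), indicator_of_mem]
        rw [mem_closedBall, Real.dist_eq, abs_sub_comm]; exact ht
      · rw [indicator_of_notMem (show ρ ∉ Ici |x - t| from ht), indicator_of_notMem]
        · simp
        · rw [mem_closedBall, Real.dist_eq, abs_sub_comm]; exact ht
    simp_rw [h2]
    rw [lintegral_const_mul'', lintegral_indicator measurableSet_closedBall]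
    exact hg.indicator measurableSet_closedBall
  · -- joint measurability
    apply AEMeasurable.mul
    · have : (fun p : ℝ × ℝ => (Ici |x - p.1|).indicator (fun ρ => ENNReal.ofReal (Hl ε ρ)) p.2) =
          ({p : ℝ × ℝ | |x - p.1| ≤ p.2}).indicator (fun p => ENNReal.ofReal (Hl ε p.2)) := by
        ext p
        by_cases hp : |x - p.1| ≤ p.2
        · rw [indicator_of_mem (show p.2 ∈ Ici |x - p.1| from hp),
            indicator_of_mem (show p ∈ {p : ℝ × ℝ | |x - p.1| ≤ p.2} from hp)]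
        · rw [indicator_of_notMem (show p.2 ∉ Ici |x - p.1| from hp),
            indicator_of_notMem (show p ∉ {p : ℝ × ℝ | |x - p.1| ≤ p.2} from hp)]
      show AEMeasurable (fun p : ℝ × ℝ => (Ici |x - p.1|).indicator
        (fun ρ => ENNReal.ofReal (Hl ε ρ)) p.2) _
      rw [this]
      apply AEMeasurable.indicator
      · apply Measurable.aemeasurable
        unfold Hl
        fun_prop
      · exact (isClosed_le (by fun_prop) (by fun_prop)).measurableSet
    · exact hg.comp_quasiMeasurePreserving Measure.quasiMeasurePreserving_fst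

lemma maj_tendsto {f : ℝ → ℂ} (hf : Integrable f) {x : ℝ} (hx : LebPt f x) :
    Tendsto (fun ε : ℝ => ∫⁻ t, ENNReal.ofReal (ε ^ 2 / (ε + |x - t|) ^ 3) * ‖f t - f x‖ₑ)
      (𝓝[>] 0) (𝓝 0) := by
  have hgm : AEMeasurable (fun t => ‖f t - f x‖ₑ) := (hf.1.sub aestronglyMeasurable_const).enorm
  rw [ENNReal.tendsto_nhds_zero]
  intro δ hδ
  -- choose η
  obtain ⟨η, hη0, hηδ⟩ : ∃ η : ℝ, 0 < η ∧ ENNReal.ofReal (6 * η) ≤ δ := by
    rcases eq_or_ne δ ⊤ with h | h
    · exact ⟨1, one_pos, by rw [h]; exact le_top⟩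
    · refine ⟨δ.toReal / 6, ?_, ?_⟩
      · have : 0 < δ.toReal := ENNReal.toReal_pos hδ.ne' h
        positivity
      · rw [show 6 * (δ.toReal / 6) = δ.toReal by ring, ENNReal.ofReal_toReal h]
  -- small scales
  have h1 : ∀ᶠ ρ in 𝓝[>] (0:ℝ), (∫⁻ y in closedBall x ρ, ‖f y - f x‖ₑ) / volume (closedBall x ρ)
      ≤ ENNReal.ofReal η := by
    rw [LebPt, ENNReal.tendsto_nhds_zero] at hx
    exact hx _ (ENNReal.ofReal_pos.2 hη0)
  rw [eventually_nhdsWithin_iff, Metric.eventually_nhds_iff] at h1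
  obtain ⟨ρ₀, hρ₀, h1⟩ := h1
  have hG1 : ∀ ρ : ℝ, 0 < ρ → ρ < ρ₀ → (∫⁻ y in closedBall x ρ, ‖f y - f x‖ₑ) ≤
      ENNReal.ofReal (2 * η * ρ) := by
    intro ρ hρ hρ2
    have h2 := h1 (y := ρ) (by rw [Real.dist_eq, sub_zero, abs_of_pos hρ]; exact hρ2) hρ
    rw [Real.volume_closedBall] at h2
    have h3 : ENNReal.ofReal (2 * ρ) ≠ 0 := by
      rw [Ne, ENNReal.ofReal_eq_zero]; push Not; positivity
    rw [ENNReal.div_le_iff h3 ENNReal.ofReal_ne_top, ← ENNReal.ofReal_mul hη0.le] at h2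
    refine h2.trans (le_of_eq ?_)
    congr 1; ring
  set N := (∫⁻ t, ‖f t‖ₑ).toReal with hN
  have hNtop : (∫⁻ t, ‖f t‖ₑ) ≠ ⊤ := hf.2.ne
  have hN' : ENNReal.ofReal N = ∫⁻ t, ‖f t‖ₑ := ENNReal.ofReal_toReal hNtop
  have hN0 : 0 ≤ N := ENNReal.toReal_nonneg
  have hG2 : ∀ ρ : ℝ, 0 < ρ → (∫⁻ y in closedBall x ρ, ‖f y - f x‖ₑ) ≤
      ENNReal.ofReal (N + 2 * ρ * ‖f x‖) := by
    intro ρ hρ
    calc (∫⁻ y in closedBall x ρ, ‖f y - f x‖ₑ) ≤ ∫⁻ y in closedBall x ρ, (‖f y‖ₑ + ‖f x‖ₑ) :=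
          lintegral_mono fun y => enorm_sub_le
      _ = (∫⁻ y in closedBall x ρ, ‖f y‖ₑ) + ∫⁻ y in closedBall x ρ, ‖f x‖ₑ :=
          lintegral_add_right _ measurable_const
      _ ≤ (∫⁻ y, ‖f y‖ₑ) + ‖f x‖ₑ * volume (closedBall x ρ) := by
          apply add_le_add
          · exact setLIntegral_le_lintegral _ _
          · rw [setLIntegral_const]
      _ = ENNReal.ofReal (N + 2 * ρ * ‖f x‖) := by
          rw [Real.volume_closedBall, ENNReal.ofReal_add hN0 (by positivity), hN',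
            ← ofReal_norm, ← ENNReal.ofReal_mul (norm_nonneg _)]
          congr 2; ring
  set K := N / ρ₀ + 2 * ‖f x‖ with hK
  have hK0 : 0 ≤ K := by positivity
  -- limit of the tail
  have htail : ∀ᶠ ε in 𝓝[>] (0:ℝ), 6 * ε ^ 2 * K / ρ₀ ^ 2 ≤ 3 * η := by
    have : Tendsto (fun ε : ℝ => 6 * ε ^ 2 * K / ρ₀ ^ 2) (𝓝[>] 0) (𝓝 (6 * 0 ^ 2 * K / ρ₀ ^ 2)) := by
      apply tendsto_nhdsWithin_of_tendsto_nhds
      have hc : Continuous (fun ε : ℝ => 6 * ε ^ 2 * K / ρ₀ ^ 2) := by fun_prop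
      exact hc.tendsto 0
    have h0 : 6 * (0:ℝ) ^ 2 * K / ρ₀ ^ 2 = 0 := by ring
    rw [h0] at this
    exact this.eventually (eventually_le_nhds (by positivity))
  filter_upwards [htail, self_mem_nhdsWithin] with ε hε1 hε2
  have hε : 0 < ε := hε2
  rw [layer_swap hgm x hε]
  have hb : ∀ ρ ∈ Ioi (0:ℝ), ENNReal.ofReal (Hl ε ρ) * ∫⁻ t in closedBall x ρ, ‖f t - f x‖ₑ ≤
      ENNReal.ofReal (6 * ε ^ 2 * η * (ε + ρ)⁻¹ ^ 3) +
        (Ioi (ρ₀ / 2)).indicator (fun ρ => ENNReal.ofReal (3 * ε ^ 2 * K * (ε + ρ)⁻¹ ^ 3)) ρ := by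
    intro ρ hρ
    have hρ0 : (0:ℝ) < ρ := hρ
    have hs : 0 < ε + ρ := by positivity
    by_cases h : ρ < ρ₀
    · refine le_trans ?_ (le_add_right le_rfl)
      calc ENNReal.ofReal (Hl ε ρ) * ∫⁻ t in closedBall x ρ, ‖f t - f x‖ₑ
          ≤ ENNReal.ofReal (Hl ε ρ) * ENNReal.ofReal (2 * η * ρ) := by
            gcongr; exact hG1 ρ hρ0 h
        _ = ENNReal.ofReal (Hl ε ρ * (2 * η * ρ)) :=
            (ENNReal.ofReal_mul (p := Hl ε ρ) (by unfold Hl; positivity)).symm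
        _ ≤ _ := by
            apply ENNReal.ofReal_le_ofReal
            unfold Hl
            rw [inv_pow, ← div_eq_mul_inv, div_mul_eq_mul_div, div_le_div_iff₀ (by positivity) (by positivity)]
            have : ρ ≤ ε + ρ := by linarith
            calc 3 * ε ^ 2 * (2 * η * ρ) * (ε + ρ) ^ 3 = 6 * ε ^ 2 * η * (ε + ρ) ^ 3 * ρ := by ring
              _ ≤ 6 * ε ^ 2 * η * (ε + ρ) ^ 3 * (ε + ρ) := by gcongr
              _ = 6 * ε ^ 2 * η * (ε + ρ) ^ 4 := by ring
    · push Not at h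
      have hmem : ρ ∈ Ioi (ρ₀ / 2) := by
        show ρ₀ / 2 < ρ; linarith
      rw [indicator_of_mem hmem]
      refine le_trans ?_ (le_add_left le_rfl)
      calc ENNReal.ofReal (Hl ε ρ) * ∫⁻ t in closedBall x ρ, ‖f t - f x‖ₑ
          ≤ ENNReal.ofReal (Hl ε ρ) * ENNReal.ofReal (N + 2 * ρ * ‖f x‖) := by
            gcongr; exact hG2 ρ hρ0
        _ = ENNReal.ofReal (Hl ε ρ * (N + 2 * ρ * ‖f x‖)) :=
            (ENNReal.ofReal_mul (p := Hl ε ρ) (by unfold Hl; positivity)).symm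
        _ ≤ _ := by
            apply ENNReal.ofReal_le_ofReal
            unfold Hl
            rw [inv_pow, ← div_eq_mul_inv, div_mul_eq_mul_div, div_le_div_iff₀ (by positivity) (by positivity)]
            have hKρ : N + 2 * ρ * ‖f x‖ ≤ K * ρ := by
              rw [hK, add_mul]
              have : N ≤ N / ρ₀ * ρ := by
                rw [div_mul_eq_mul_div, le_div_iff₀ hρ₀]
                gcongr
              linarith
            have : ρ ≤ ε + ρ := by linarith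
            calc 3 * ε ^ 2 * (N + 2 * ρ * ‖f x‖) * (ε + ρ) ^ 3
                ≤ 3 * ε ^ 2 * (K * ρ) * (ε + ρ) ^ 3 := by gcongr
              _ = 3 * ε ^ 2 * K * (ε + ρ) ^ 3 * ρ := by ring
              _ ≤ 3 * ε ^ 2 * K * (ε + ρ) ^ 3 * (ε + ρ) := by gcongr
              _ = 3 * ε ^ 2 * K * (ε + ρ) ^ 4 := by ring
  have hmeas : Measurable (fun ρ : ℝ => ENNReal.ofReal (6 * ε ^ 2 * η * (ε + ρ)⁻¹ ^ 3)) := by
    fun_prop
  obtain ⟨hi3, hv3⟩ := layer_integral3 hε (le_refl (0:ℝ))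
  obtain ⟨hi4, hv4⟩ := layer_integral3 hε (by positivity : (0:ℝ) ≤ ρ₀ / 2)
  calc ∫⁻ ρ in Ioi (0:ℝ), ENNReal.ofReal (Hl ε ρ) * ∫⁻ t in closedBall x ρ, ‖f t - f x‖ₑ
      ≤ ∫⁻ ρ in Ioi (0:ℝ), (ENNReal.ofReal (6 * ε ^ 2 * η * (ε + ρ)⁻¹ ^ 3) +
        (Ioi (ρ₀ / 2)).indicator (fun ρ => ENNReal.ofReal (3 * ε ^ 2 * K * (ε + ρ)⁻¹ ^ 3)) ρ) :=
        setLIntegral_mono' measurableSet_Ioi hb
    _ = (∫⁻ ρ in Ioi (0:ℝ), ENNReal.ofReal (6 * ε ^ 2 * η * (ε + ρ)⁻¹ ^ 3)) +
        ∫⁻ ρ in Ioi (0:ℝ), (Ioi (ρ₀ / 2)).indicator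
          (fun ρ => ENNReal.ofReal (3 * ε ^ 2 * K * (ε + ρ)⁻¹ ^ 3)) ρ := lintegral_add_left hmeas _
    _ ≤ ENNReal.ofReal (3 * η) + ENNReal.ofReal (3 * η) := by
        apply add_le_add
        · rw [← ofReal_integral_eq_lintegral_ofReal (hi3.const_mul _), integral_const_mul, hv3]
          · apply ENNReal.ofReal_le_ofReal
            apply le_of_eq
            rw [add_zero]
            field_simp
            norm_num
          · rw [EventuallyLE, ae_restrict_iff' measurableSet_Ioi]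
            refine Eventually.of_forall fun y hy => ?_
            have h0 : (0:ℝ) < y := hy
            show 0 ≤ 6 * ε ^ 2 * η * (ε + y)⁻¹ ^ 3
            positivity
        · rw [lintegral_indicator measurableSet_Ioi, Measure.restrict_restrict measurableSet_Ioi]
          have hset : Ioi (ρ₀ / 2) ∩ Ioi (0:ℝ) = Ioi (ρ₀ / 2) := by
            apply inter_eq_left.2
            intro y hy
            have : ρ₀ / 2 < y := hy
            show 0 < y
            linarith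
          rw [hset, ← ofReal_integral_eq_lintegral_ofReal (hi4.const_mul _), integral_const_mul, hv4]
          · apply ENNReal.ofReal_le_ofReal
            refine le_trans ?_ hε1
            have h5 : (ε + ρ₀ / 2)⁻¹ ^ 2 ≤ 4 / ρ₀ ^ 2 := by
              rw [inv_pow, inv_le_comm₀ (by positivity) (by positivity), inv_div]
              nlinarith
            calc 3 * ε ^ 2 * K * ((ε + ρ₀ / 2)⁻¹ ^ 2 / 2) ≤ 3 * ε ^ 2 * K * ((4 / ρ₀ ^ 2) / 2) := by
                  gcongr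
              _ = 6 * ε ^ 2 * K / ρ₀ ^ 2 := by ring
          · rw [EventuallyLE, ae_restrict_iff' measurableSet_Ioi]
            refine Eventually.of_forall fun y hy => ?_
            have h0 : ρ₀ / 2 < y := hy
            have h1 : 0 < ε + y := by linarith
            show 0 ≤ 3 * ε ^ 2 * K * (ε + y)⁻¹ ^ 3
            positivity
    _ = ENNReal.ofReal (6 * η) := by
        rw [← ENNReal.ofReal_add (by positivity) (by positivity)]
        congr 1; ring
    _ ≤ δ := hηδ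

end Pool.Agent.Helper60
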