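import Pool.Agent.Helper60.Upper2

open MeasureTheory Set Filter Topology Metric Complex Real
open scoped Real Nat

namespace Pool.Agent.Helper60

variable {s : ℝ → ℝ}

/-- Cauchy transform of a real function. -/
noncomputable def Fs (s : ℝ → ℝ) (z : ℂ) : ℂ := CT (fun t => (s t : ℂ)) z

lemma Fs_im (hs : Integrable s) {z : ℂ} (hz : 0 < z.im) :
    (Fs s z).im = - ∫ t, pk z.im (z.re - t) * s t := CT_im hs hz

lemma Fs_im_le (hs : Integrable s) (h1 : ∀ t, |s t| ≤ 1) {z : ℂ} (hz : 0 < z.im) :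
    |(Fs s z).im| ≤ 1 := by
  rw [Fs_im hs hz, abs_neg]
  refine (abs_integral_le_integral_abs).trans ?_
  calc ∫ t, |pk z.im (z.re - t) * s t| ≤ ∫ t, pk z.im (z.re - t) := by
        apply integral_mono_of_nonneg (Eventually.of_forall fun t => abs_nonneg _)
          (pk_integrable _ hz)
        refine Eventually.of_forall fun t => ?_
        simp only
        rw [abs_mul, abs_of_nonneg (pk_nonneg hz.le _)]
        exact mul_le_of_le_one_right (pk_nonneg hz.le _) (h1 t)
    _ = 1 := pk_integral _ hz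

lemma Fs_differentiableAt (hs : Integrable s) {z : ℂ} (hz : 0 < z.im) :
    DifferentiableAt ℂ (Fs s) z := CT_differentiableAt hs.ofReal hz

lemma Fs_sq_mem (hs : Integrable s) (h1 : ∀ t, |s t| ≤ 1) {z : ℂ} (hz : 0 < z.im) :
    Fs s z ^ 2 ∈ Pbar := ⟨Fs s z, rfl, Fs_im_le hs h1 hz⟩

/-- the harmonic function in the strip, minus its value at zero -/
noncomputable def Vs (s : ℝ → ℝ) (z : ℂ) : ℝ := - kf (Fs s z ^ 2)

lemma Vs_continuousOn (hs : Integrable s) (h1 : ∀ t, |s t| ≤ 1) {σ : ℝ} (hσ : 0 < σ) :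
    ContinuousOn (Vs s) {z | σ ≤ z.im} := by
  unfold Vs
  apply ContinuousOn.neg
  have hmaps : MapsTo (fun z : ℂ => Fs s z ^ 2) {z | σ ≤ z.im} Pbar := by
    intro z hz
    have hz' : σ ≤ z.im := hz
    exact Fs_sq_mem hs h1 (hσ.trans_le hz')
  refine kf_continuousOn.comp (f := fun z : ℂ => Fs s z ^ 2) ?_ hmaps
  intro z hz
  have hz' : σ ≤ z.im := hz
  exact ((Fs_differentiableAt hs (hσ.trans_le hz')).continuousAt.pow 2).continuousWithinAt

lemma Vs_localSub (hs : Integrable s) (h1 : ∀ t, |s t| ≤ 1) {z : ℂ} (hz : 0 < z.im) :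
    LocalSub (Vs s) z := by
  refine ⟨z.im / 2, by linarith, fun r hr hr2 => ?_⟩
  have hball : closedBall z r ⊆ {w : ℂ | 0 < w.im} := by
    intro w hw
    rw [mem_closedBall, dist_eq_norm] at hw
    have h1 : |(w - z).im| ≤ r := (Complex.abs_im_le_norm _).trans hw
    rw [Complex.sub_im, abs_le] at h1
    show 0 < w.im
    linarith [h1.1]
  have hW : DiffContOnCl ℂ (fun z => Fs s z ^ 2) (ball z r) := by
    refine ⟨fun w hw => ?_, ?_⟩
    · exact ((Fs_differentiableAt hs (hball (ball_subset_closedBall hw))).pow 2).differentiableWithinAt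
    · rw [closure_ball _ hr.ne']
      intro w hw
      exact ((Fs_differentiableAt hs (hball hw)).continuousAt.pow 2).continuousWithinAt
  have hmean := kf_mean hr hW (fun w hw => Fs_sq_mem hs h1 (hball (sphere_subset_closedBall hw)))
  unfold Vs
  have h2 : circleAverage (fun z => - kf (Fs s z ^ 2)) z r = - kf (Fs s z ^ 2) := by
    have : (fun z => - kf (Fs s z ^ 2)) = fun z => (-1 : ℝ) • kf (Fs s z ^ 2) := by
      ext w; simp
    rw [this, circleAverage_fun_smul, hmean]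
    simp
  rw [h2]

lemma Vs_bound (hs : Integrable s) (h1 : ∀ t, |s t| ≤ 1) :
    ∃ C : ℝ, 0 < C ∧ ∀ z : ℂ, 0 < z.im → |Vs s z + kap| ≤ C * ‖Fs s z‖ ^ 2 := by
  have hk := kap_pos
  have hc := c0_pos
  refine ⟨2 / c0 + 2 + 4 * kap, by positivity, fun z hz => ?_⟩
  have h2 := Fs_im_le hs h1 hz
  have h3 : |Vs s z + kap| = |kf (Fs s z ^ 2) - kap| := by
    unfold Vs
    rw [← abs_neg]
    congr 1; ring
  rw [h3]
  by_cases h4 : ‖Fs s z ^ 2‖ ≤ 1 / 4
  · refine (kf_sub_kap_le h4).trans ?_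
    rw [norm_pow]
    gcongr
    linarith
  · push Not at h4
    rw [norm_pow] at h4
    have h5 : 1 / 2 < ‖Fs s z‖ := by
      by_contra h
      push Not at h
      have : ‖Fs s z‖ ^ 2 ≤ (1 / 2) ^ 2 := by gcongr
      norm_num at this
      linarith
    have h6 := kf_le_kap_add h2
    have h7 := abs_re_le_kf h2
    have h8 : |(Fs s z).re| ≤ ‖Fs s z‖ := Complex.abs_re_le_norm _
    have h9 : 0 ≤ |(Fs s z).re| := abs_nonneg _
    have h10 : ‖Fs s z‖ ≤ 2 * ‖Fs s z‖ ^ 2 := by nlinarith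
    have h11 : kap ≤ 4 * kap * ‖Fs s z‖ ^ 2 := by nlinarith
    have h12 : 0 ≤ 2 / c0 * ‖Fs s z‖ ^ 2 := by positivity
    have h13 : 0 ≤ ‖Fs s z‖ ^ 2 := by positivity
    have h14 : 0 ≤ kap * ‖Fs s z‖ ^ 2 := by positivity
    rw [abs_le]
    constructor
    · nlinarith
    · nlinarith

lemma Vs_integrable (hs : Integrable s) (h1 : ∀ t, |s t| ≤ 1) {σ : ℝ} (hσ : 0 < σ) :
    Integrable (fun x : ℝ => Vs s (x + σ * I) - (- kap)) := by
  obtain ⟨C, hC, hb⟩ := Vs_bound hs h1
  have h2 := (CT_sq_integrable (g := fun t => (s t : ℂ)) hs.ofReal hσ).const_mul C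
  refine h2.mono' ?_ (Eventually.of_forall fun x => ?_)
  · apply Continuous.aestronglyMeasurable
    apply Continuous.sub _ continuous_const
    rw [← continuousOn_univ]
    refine (Vs_continuousOn hs h1 hσ).comp (by fun_prop) ?_
    intro x _
    show σ ≤ ((x : ℂ) + σ * I).im
    simp
  · rw [Real.norm_eq_abs, sub_neg_eq_add]
    exact hb _ (by simpa using hσ)

theorem Vs_integral_nonneg (hs : Integrable s) (h1 : ∀ t, |s t| ≤ 1) {σ : ℝ} (hσ : 0 < σ) :
    0 ≤ ∫ x : ℝ, (Vs s (x + σ * I) - (-kap)) := by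
  obtain ⟨C, hC, hb⟩ := Vs_bound hs h1
  refine integral_nonneg_of_sub (Vs_continuousOn hs h1 hσ)
    (fun z hz => Vs_localSub hs h1 (hσ.trans hz)) (Vs_integrable hs h1 hσ) ?_ ?_
  · intro ε hε
    set η := Real.sqrt (ε / (C + 1)) with hη
    have hη0 : 0 < η := Real.sqrt_pos.2 (by positivity)
    have hη2 : η ^ 2 = ε / (C + 1) := Real.sq_sqrt (by positivity)
    obtain ⟨R₁, hR₁⟩ := CT_small (g := fun t => (s t : ℂ)) hs.ofReal hσ η hη0
    refine ⟨R₁, fun z hz hzR => ?_⟩
    have h2 : ‖Fs s z‖ ≤ η := hR₁ z hz hzR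
    rw [sub_neg_eq_add]
    refine (hb z (hσ.trans_le hz)).trans ?_
    calc C * ‖Fs s z‖ ^ 2 ≤ C * η ^ 2 := by gcongr
      _ = (C / (C + 1)) * ε := by rw [hη2]; field_simp
      _ ≤ 1 * ε := by
          gcongr
          rw [div_le_one (by positivity)]; linarith
      _ = ε := one_mul _
  · -- decay
    set N := ∫ t, ‖((s t : ℝ) : ℂ)‖ with hN
    have hN0 : 0 ≤ N := integral_nonneg fun _ => norm_nonneg _
    have hlim : Tendsto (fun R : ℝ => (C * (π⁻¹ * N) ^ 2) * R⁻¹) atTop (𝓝 0) := by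
      have := (tendsto_inv_atTop_zero (𝕜 := ℝ)).const_mul (C * (π⁻¹ * N) ^ 2)
      rwa [mul_zero] at this
    refine squeeze_zero_norm' ?_ hlim
    filter_upwards [eventually_ge_atTop σ, eventually_gt_atTop 0] with R hR hR0
    have him : ((R : ℂ) * I).im = R := by simp
    have h2 : ‖Fs s (R * I)‖ ≤ π⁻¹ * N * R⁻¹ := by
      have := CT_norm_le (g := fun t => (s t : ℂ)) hs.ofReal (z := R * I) (by rw [him]; exact hR0)
      rw [him] at this
      have h4 : π⁻¹ * (R⁻¹ * N) = π⁻¹ * N * R⁻¹ := by ring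
      rw [← h4]
      exact this
    have h3 := hb (R * I) (by rw [him]; exact hR0)
    rw [norm_mul, Real.norm_eq_abs, Real.norm_eq_abs, abs_of_pos hR0, sub_neg_eq_add]
    have hpi := Real.pi_pos
    calc R * |Vs s (R * I) + kap| ≤ R * (C * ‖Fs s (R * I)‖ ^ 2) := by gcongr
      _ ≤ R * (C * (π⁻¹ * N * R⁻¹) ^ 2) := by gcongr
      _ = (C * (π⁻¹ * N) ^ 2) * R⁻¹ := by field_simp

/-- bound for the real part on a set of finite measure -/
theorem re_integral_le (hs : Integrable s) (h1 : ∀ t, |s t| ≤ 1) {σ : ℝ} (hσ : 0 < σ)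
    (hF : Integrable (fun x : ℝ => Fs s (x + σ * I))) (a b : ℝ) (hab : a ≤ b) :
    ∫ x : ℝ, |(Fs s (x + σ * I)).re| ≤
      kap * (b - a) + (1 + kap) * ∫ x in (Icc a b)ᶜ, ‖Fs s (x + σ * I)‖ := by
  have him : ∀ x : ℝ, ((x : ℂ) + σ * I).im = σ := by intro x; simp
  have him' : ∀ x : ℝ, 0 < ((x : ℂ) + σ * I).im := by intro x; rw [him]; exact hσ
  have h0 := Vs_integral_nonneg hs h1 hσ
  have hVi := Vs_integrable hs h1 hσ
  have hre : Integrable (fun x : ℝ => |(Fs s (x + σ * I)).re|) := hF.re.abs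
  have hk := kap_pos
  have hm : MeasurableSet (Icc a b) := measurableSet_Icc
  -- G is the comparison function
  set D : ℝ → ℝ := fun x => |(Fs s (x + σ * I)).re| + (Vs s (x + σ * I) - (-kap)) with hD
  have hDi : Integrable D := hre.add hVi
  have hD1 : ∀ x ∈ Icc a b, D x ≤ kap := by
    intro x _
    have := abs_re_le_kf (Fs_im_le hs h1 (him' x))
    simp only [hD, Vs]
    linarith
  have hD2 : ∀ x ∈ (Icc a b)ᶜ, D x ≤ (1 + kap) * ‖Fs s (x + σ * I)‖ := by
    intro x _
    have h2 := Fs_im_le hs h1 (him' x)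
    have h3 := kap_mul_le_kf h2
    have h4 : |(Fs s (x + σ * I)).re| ≤ ‖Fs s (x + σ * I)‖ := Complex.abs_re_le_norm _
    have h5 : |(Fs s (x + σ * I)).im| ≤ ‖Fs s (x + σ * I)‖ := Complex.abs_im_le_norm _
    have h6 : (Fs s (x + σ * I)).im ^ 2 ≤ ‖Fs s (x + σ * I)‖ := by
      rw [← sq_abs]
      nlinarith [abs_nonneg (Fs s (x + σ * I)).im]
    simp only [hD, Vs]
    nlinarith
  calc ∫ x : ℝ, |(Fs s (x + σ * I)).re| ≤ ∫ x : ℝ, D x := by
        rw [hD, integral_add hre hVi]; linarith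
    _ = (∫ x in Icc a b, D x) + ∫ x in (Icc a b)ᶜ, D x := (integral_add_compl hm hDi).symm
    _ ≤ kap * (b - a) + (1 + kap) * ∫ x in (Icc a b)ᶜ, ‖Fs s (x + σ * I)‖ := by
        apply add_le_add
        · calc ∫ x in Icc a b, D x ≤ ∫ x in Icc a b, kap := by
                apply setIntegral_mono_on hDi.integrableOn _ hm hD1
                exact integrableOn_const (by simp) (by simp)
            _ = kap * (b - a) := by
                rw [setIntegral_const, smul_eq_mul, Real.volume_real_Icc_of_le hab]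
                ring
        · rw [← integral_const_mul]
          exact setIntegral_mono_on hDi.integrableOn (hF.norm.integrableOn.const_mul _)
            hm.compl hD2

end Pool.Agent.Helper60
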