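import Pool.Agent.Helper60.PVLink
import Pool.Agent.Helper60.Lower1

open MeasureTheory Set Filter Topology Metric Complex
open scoped Real Nat

namespace Pool.Agent.Helper60

/-- the symmetrized kernel -/
noncomputable def hk (u : ℂ) (v : ℝ) : ℂ := 2 / (u ^ 2 - (v : ℂ) ^ 2)

lemma add_ne_zero_of_im {u : ℂ} (hu : 0 < u.im) (v : ℝ) : u + v ≠ 0 := by
  have := sub_ne_zero_of_im hu (-v)
  push_cast at this
  rwa [sub_neg_eq_add] at this

lemma hk_den {u : ℂ} (hu : 0 < u.im) (v : ℝ) : u ^ 2 - (v : ℂ) ^ 2 ≠ 0 := by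
  rw [sq_sub_sq]
  exact mul_ne_zero (add_ne_zero_of_im hu v) (sub_ne_zero_of_im hu v)

lemma norm_sub_sq (u : ℂ) (v : ℝ) : ‖u - v‖ ^ 2 = (u.re - v) ^ 2 + u.im ^ 2 := by
  rw [← Complex.normSq_eq_norm_sq, Complex.normSq_apply]
  simp
  ring

lemma hk_norm {u : ℂ} (hu : 0 < u.im) (v : ℝ) :
    ‖hk u v‖ ≤ (π / u.im) * (pk u.im (u.re - v) + pk u.im (-u.re - v)) := by
  have h1 : ‖u - v‖ ^ 2 = (u.re - v) ^ 2 + u.im ^ 2 := norm_sub_sq u v
  have h2 : ‖u + v‖ ^ 2 = (-u.re - v) ^ 2 + u.im ^ 2 := by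
    have := norm_sub_sq u (-v)
    push_cast at this
    rw [sub_neg_eq_add] at this
    rw [this]; ring
  have h3 : 0 < ‖u - v‖ := norm_pos_iff.2 (sub_ne_zero_of_im hu v)
  have h4 : 0 < ‖u + v‖ := norm_pos_iff.2 (add_ne_zero_of_im hu v)
  have h5 : (π / u.im) * (pk u.im (u.re - v) + pk u.im (-u.re - v)) =
      (‖u - v‖⁻¹) ^ 2 + (‖u + v‖⁻¹) ^ 2 := by
    rw [inv_pow, inv_pow, h1, h2]
    unfold pk
    have : 0 < (u.re - v) ^ 2 + u.im ^ 2 := by positivity
    have : 0 < (-u.re - v) ^ 2 + u.im ^ 2 := by positivity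
    have := Real.pi_pos
    field_simp
  rw [h5]
  unfold hk
  rw [norm_div, sq_sub_sq, norm_mul]
  simp only [Complex.norm_ofNat]
  have h6 : 2 / (‖u + v‖ * ‖u - v‖) = 2 * ‖u - v‖⁻¹ * ‖u + v‖⁻¹ := by
    field_simp
  rw [h6]
  exact two_mul_le_add_sq _ _

lemma hk_continuous {u : ℂ} (hu : 0 < u.im) : Continuous (hk u) := by
  unfold hk
  apply Continuous.div continuous_const (by fun_prop)
  intro v; exact hk_den hu v

lemma hk_maj_integrable {u : ℂ} (hu : 0 < u.im) :
    Integrable (fun v : ℝ => (π / u.im) * (pk u.im (u.re - v) + pk u.im (-u.re - v))) :=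
  ((pk_integrable u.re hu).add (pk_integrable (-u.re) hu)).const_mul _

lemma hk_integrable {u : ℂ} (hu : 0 < u.im) : Integrable (hk u) :=
  (hk_maj_integrable hu).mono' (hk_continuous hu).aestronglyMeasurable
    (Eventually.of_forall fun v => hk_norm hu v)

lemma hk_norm_integral {u : ℂ} (hu : 0 < u.im) :
    ∫ v in Ioi (0 : ℝ), ‖hk u v‖ ≤ 2 * π / u.im := by
  calc ∫ v in Ioi (0 : ℝ), ‖hk u v‖ ≤ ∫ v, ‖hk u v‖ :=
        setIntegral_le_integral (hk_integrable hu).norm (Eventually.of_forall fun _ => norm_nonneg _)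
    _ ≤ ∫ v, (π / u.im) * (pk u.im (u.re - v) + pk u.im (-u.re - v)) :=
        integral_mono (hk_integrable hu).norm (hk_maj_integrable hu) (fun v => hk_norm hu v)
    _ = 2 * π / u.im := by
        rw [integral_const_mul, integral_add (pk_integrable u.re hu) (pk_integrable (-u.re) hu),
          pk_integral _ hu, pk_integral _ hu]
        ring

lemma log_diff_tendsto (u : ℂ) :
    Tendsto (fun v : ℝ => Complex.log (v - u) - Complex.log (v + u)) atTop (𝓝 0) := by
  have h1 : Tendsto (fun v : ℝ => u / (v : ℂ)) atTop (𝓝 0) := by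
    have h2 : Tendsto (fun v : ℝ => ((v⁻¹ : ℝ) : ℂ)) atTop (𝓝 ((0 : ℝ) : ℂ)) :=
      (Complex.continuous_ofReal.tendsto 0).comp tendsto_inv_atTop_zero
    have h3 := h2.const_mul u
    simpa [div_eq_mul_inv] using h3
  have hc : ContinuousAt Complex.log 1 := continuousAt_clog (by simp [Complex.slitPlane])
  have h4 : Tendsto (fun v : ℝ => Complex.log (1 - u / v)) atTop (𝓝 0) := by
    have : Tendsto (fun v : ℝ => (1 : ℂ) - u / v) atTop (𝓝 1) := by
      simpa using h1.const_sub 1
    have := hc.tendsto.comp this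
    simpa [Function.comp_def] using this
  have h5 : Tendsto (fun v : ℝ => Complex.log (1 + u / v)) atTop (𝓝 0) := by
    have : Tendsto (fun v : ℝ => (1 : ℂ) + u / v) atTop (𝓝 1) := by
      simpa using h1.const_add 1
    have := hc.tendsto.comp this
    simpa [Function.comp_def] using this
  have h6 := h4.sub h5
  rw [sub_zero] at h6
  refine h6.congr' ?_
  filter_upwards [eventually_gt_atTop (‖u‖), eventually_gt_atTop 0] with v hv hv0
  have hvc : (v : ℂ) ≠ 0 := by exact_mod_cast hv0.ne'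
  have hlt : ‖u / v‖ < 1 := by
    rw [norm_div, Complex.norm_real, Real.norm_of_nonneg hv0.le, div_lt_one hv0]
    exact hv
  have hne1 : (1 : ℂ) - u / v ≠ 0 := by
    intro h
    have : u / v = 1 := (sub_eq_zero.1 h).symm
    rw [this] at hlt; simp at hlt
  have hne2 : (1 : ℂ) + u / v ≠ 0 := by
    intro h
    have : u / v = -1 := by linear_combination h
    rw [this] at hlt; simp at hlt
  have e1 : (v : ℂ) - u = v * (1 - u / v) := by field_simp
  have e2 : (v : ℂ) + u = v * (1 + u / v) := by field_simp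
  rw [e1, e2, Complex.log_ofReal_mul hv0 hne1, Complex.log_ofReal_mul hv0 hne2]
  ring

lemma log_neg_sub {u : ℂ} (hu : 0 < u.im) : Complex.log (-u) - Complex.log u = -(π * I) := by
  unfold Complex.log
  rw [norm_neg, Complex.arg_neg_eq_arg_sub_pi_of_im_pos hu]
  push_cast
  ring

lemma hk_integral {u : ℂ} (hu : 0 < u.im) :
    ∫ v in Ioi (0 : ℝ), hk u v = -(I * π / u) := by
  have hu0 : u ≠ 0 := by
    intro h; rw [h] at hu; simp at hu
  have hder : ∀ v : ℝ, HasDerivAt (fun v : ℝ => -(u⁻¹ * (Complex.log (v - u) - Complex.log (v + u))))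
      (hk u v) v := by
    intro v
    have hv1 : HasDerivAt (fun v : ℝ => (v : ℂ) - u) 1 v := (Complex.ofRealCLM.hasDerivAt).sub_const u
    have hv2 : HasDerivAt (fun v : ℝ => (v : ℂ) + u) 1 v := (Complex.ofRealCLM.hasDerivAt).add_const u
    have hs1 : (v : ℂ) - u ∈ slitPlane := by
      right; simp; exact hu.ne'
    have hs2 : (v : ℂ) + u ∈ slitPlane := by
      right; simp; exact hu.ne'
    have h3 := ((hv1.clog_real hs1).fun_sub (hv2.clog_real hs2)).const_mul u⁻¹ |>.fun_neg
    refine h3.congr_deriv ?_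
    have hn1 : (v : ℂ) - u ≠ 0 := slitPlane_ne_zero hs1
    have hn2 : (v : ℂ) + u ≠ 0 := slitPlane_ne_zero hs2
    have hn3 := hk_den hu v
    unfold hk
    have hn4 : u ^ 2 - (v : ℂ) ^ 2 = -((v - u) * (v + u)) := by ring
    rw [hn4]
    field_simp
    ring
  have hlim : Tendsto (fun v : ℝ => -(u⁻¹ * (Complex.log (v - u) - Complex.log (v + u)))) atTop
      (𝓝 0) := by
    have := ((log_diff_tendsto u).const_mul u⁻¹).neg
    simpa using this
  have h1 := integral_Ioi_of_hasDerivAt_of_tendsto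
    (f := fun v : ℝ => -(u⁻¹ * (Complex.log (v - u) - Complex.log (v + u))))
    (f' := hk u) (a := (0 : ℝ)) (m := 0) (hder 0).continuousAt.continuousWithinAt
    (fun v _ => hder v) (hk_integrable hu).integrableOn hlim
  rw [h1]
  simp only [Complex.ofReal_zero, zero_sub, zero_add]
  rw [log_neg_sub hu]
  field_simp

lemma diff_kernel {u : ℂ} (hu : 0 < u.im) (v : ℝ) :
    (u - v)⁻¹ - (u + v)⁻¹ = v * hk u v := by
  have h1 := add_ne_zero_of_im hu v
  have h2 := sub_ne_zero_of_im hu v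
  unfold hk
  rw [sq_sub_sq]
  field_simp
  ring

variable {g : ℝ → ℂ} {σ : ℝ}

lemma u_im (x t σ : ℝ) : ((x : ℂ) + σ * I - t).im = σ := by simp

lemma hk_joint (hg : Integrable g) (hσ : 0 < σ) (x : ℝ) :
    Integrable (fun p : ℝ × ℝ => g p.2 * hk (x + σ * I - p.2) p.1)
      ((volume.restrict (Ioi (0:ℝ))).prod volume) := by
  have hmeas : AEStronglyMeasurable (fun p : ℝ × ℝ => g p.2 * hk (x + σ * I - p.2) p.1)
      ((volume.restrict (Ioi (0:ℝ))).prod volume) := by
    apply AEStronglyMeasurable.mul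
    · exact hg.1.comp_snd
    · apply Continuous.aestronglyMeasurable
      unfold hk
      apply Continuous.div continuous_const (by fun_prop)
      intro p
      exact hk_den (by rw [u_im]; exact hσ) _
  rw [integrable_prod_iff' hmeas]
  constructor
  · refine Eventually.of_forall fun t => ?_
    exact ((hk_integrable (u := x + σ * I - t) (by rw [u_im]; exact hσ)).const_mul (g t)).restrict
  · refine (hg.norm.mul_const (2 * π / σ)).mono' ?_ (Eventually.of_forall fun t => ?_)
    · exact hmeas.norm.prod_swap.integral_prod_right'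
    · rw [Real.norm_of_nonneg (integral_nonneg fun _ => norm_nonneg _)]
      simp_rw [norm_mul]
      rw [integral_const_mul]
      gcongr
      have := hk_norm_integral (u := x + σ * I - t) (by rw [u_im]; exact hσ)
      rwa [u_im] at this

lemma integral_eq_Ioi_symm {E : Type*} [NormedAddCommGroup E] [NormedSpace ℝ E] {f : ℝ → E}
    (hf : Integrable f) : ∫ s, f s = ∫ s in Ioi (0:ℝ), (f s + f (-s)) := by
  have h1 : ∫ s in Ioi (0:ℝ), f (-s) = ∫ s in Iic (0:ℝ), f s := by
    have := integral_comp_neg_Ioi (0:ℝ) f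
    rwa [neg_zero] at this
  rw [integral_add hf.integrableOn hf.comp_neg.integrableOn, h1, add_comm]
  exact (intervalIntegral.integral_Iic_add_Ioi hf.integrableOn hf.integrableOn).symm

/-- truncation weight -/
noncomputable def tw (ε s : ℝ) : ℝ := if ε < |s| then s⁻¹ else 0

lemma truncH_eq_tw (f : ℝ → ℂ) (ε x : ℝ) :
    truncH f ε x = (π : ℂ)⁻¹ * ∫ y : ℝ, f y * (tw ε (x - y) : ℂ) := by
  unfold truncH
  rw [← integral_indicator (trunc_set_meas ε x)]
  congr 2
  ext y
  unfold tw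
  by_cases h : ε < |x - y|
  · rw [indicator_of_mem (show y ∈ {y : ℝ | ε < |x - y|} from h), if_pos h]
    push_cast
    rw [div_eq_mul_inv]
  · rw [indicator_of_notMem (show y ∉ {y : ℝ | ε < |x - y|} from h), if_neg h]
    simp

lemma truncH_CT (hg : Integrable g) (hσ : 0 < σ)
    (hφ : Integrable (fun y : ℝ => CT g (y + σ * I))) (x : ℝ) {ε : ℝ} (hε : 0 < ε) :
    truncH (fun y => CT g (y + σ * I)) ε x =
      (π : ℂ)⁻¹ * ∫ v in Ioi (0:ℝ), (if ε < v then (π : ℂ)⁻¹ *
        ∫ t, g t * hk (x + σ * I - t) v else 0) := by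
  rw [truncH_eq_tw]
  congr 1
  have hint : Integrable (fun y : ℝ => CT g (y + σ * I) * (tw ε (x - y) : ℂ)) :=
    trunc_integrable hφ hε x
  have h1 : ∫ y : ℝ, CT g (y + σ * I) * (tw ε (x - y) : ℂ) =
      ∫ s : ℝ, CT g (((x - s : ℝ) : ℂ) + σ * I) * (tw ε s : ℂ) := by
    rw [← integral_sub_left_eq_self (fun s : ℝ => CT g (((x - s : ℝ) : ℂ) + σ * I) *
      (tw ε s : ℂ)) volume x]
    congr 1
    ext y
    rw [sub_sub_cancel]
  have hint2 : Integrable (fun s : ℝ => CT g (((x - s : ℝ) : ℂ) + σ * I) * (tw ε s : ℂ)) := by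
    have := hint.comp_sub_left x
    refine this.congr (Eventually.of_forall fun s => ?_)
    simp only
    rw [sub_sub_cancel]
  rw [h1, integral_eq_Ioi_symm hint2]
  apply setIntegral_congr_fun measurableSet_Ioi
  intro v hv
  have hv0 : (0:ℝ) < v := hv
  simp only
  have htn : tw ε (-v) = - tw ε v := by
    unfold tw
    rw [abs_neg]
    split_ifs
    · rw [inv_neg]
    · simp
  rw [htn]
  have htv : tw ε v = if ε < v then v⁻¹ else 0 := by
    unfold tw
    rw [abs_of_pos hv0]
  have him1 : 0 < (((x - v : ℝ) : ℂ) + σ * I).im := by simp; exact hσ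
  have him2 : 0 < (((x - -v : ℝ) : ℂ) + σ * I).im := by simp; exact hσ
  have h3 : CT g (((x - v : ℝ) : ℂ) + σ * I) - CT g (((x - -v : ℝ) : ℂ) + σ * I) =
      v * ((π : ℂ)⁻¹ * ∫ t, g t * hk (x + σ * I - t) v) := by
    unfold CT
    rw [← mul_sub, ← integral_sub (CT_integrand_integrable hg him1)
      (CT_integrand_integrable hg him2), mul_left_comm, ← integral_const_mul (v : ℂ)]
    congr 2
    ext t
    have := diff_kernel (u := x + σ * I - t) (by rw [u_im]; exact hσ) v
    have h4 : ((x - v : ℝ) : ℂ) + σ * I - t = (x + σ * I - t) - v := by push_cast; ring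
    have h5 : ((x - -v : ℝ) : ℂ) + σ * I - t = (x + σ * I - t) + v := by push_cast; ring
    rw [h4, h5, div_eq_mul_inv, div_eq_mul_inv, ← mul_sub, this]
    ring
  have h6 : CT g (((x - v : ℝ) : ℂ) + σ * I) * (tw ε v : ℂ) +
      CT g (((x - -v : ℝ) : ℂ) + σ * I) * ((-tw ε v : ℝ) : ℂ) =
      (CT g (((x - v : ℝ) : ℂ) + σ * I) - CT g (((x - -v : ℝ) : ℂ) + σ * I)) * (tw ε v : ℂ) := by
    push_cast; ring
  rw [h6, h3, htv]
  split_ifs with h
  · have : (v : ℂ) ≠ 0 := by exact_mod_cast hv0.ne'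
    push_cast
    field_simp
  · simp

/-- principal value of the Hilbert transform of a Cauchy transform on a line -/
theorem truncH_CT_tendsto (hg : Integrable g) (hσ : 0 < σ)
    (hφ : Integrable (fun y : ℝ => CT g (y + σ * I))) (x : ℝ) :
    Tendsto (fun ε => truncH (fun y => CT g (y + σ * I)) ε x) (𝓝[>] 0)
      (𝓝 (-I * CT g (x + σ * I))) := by
  have hJ := hk_joint hg hσ x
  set H : ℝ → ℂ := fun v => (π : ℂ)⁻¹ * ∫ t, g t * hk (x + σ * I - t) v with hH
  have hHi : IntegrableOn H (Ioi 0) := hJ.integral_prod_left.const_mul _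
  have hlim : Tendsto (fun ε : ℝ => ∫ v in Ioi (0:ℝ), (if ε < v then H v else 0)) (𝓝[>] 0)
      (𝓝 (∫ v in Ioi (0:ℝ), H v)) := by
    apply tendsto_integral_filter_of_dominated_convergence (fun v => ‖H v‖)
    · refine Eventually.of_forall fun ε => ?_
      have : (fun v => if ε < v then H v else 0) = (Ioi ε).indicator H := by
        ext v
        by_cases h : ε < v
        · rw [if_pos h, indicator_of_mem (show v ∈ Ioi ε from h)]
        · rw [if_neg h, indicator_of_notMem (show v ∉ Ioi ε from h)]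
      rw [this]
      exact hHi.aestronglyMeasurable.indicator measurableSet_Ioi
    · refine Eventually.of_forall fun ε => Eventually.of_forall fun v => ?_
      split_ifs
      · exact le_rfl
      · simp
    · exact hHi.norm
    · rw [ae_restrict_iff' measurableSet_Ioi]
      refine Eventually.of_forall fun v hv => ?_
      have hv0 : (0:ℝ) < v := hv
      apply tendsto_nhdsWithin_of_tendsto_nhds
      apply tendsto_const_nhds.congr'
      filter_upwards [eventually_lt_nhds hv0] with ε hε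
      rw [if_pos hε]
  have hval : (π : ℂ)⁻¹ * ∫ v in Ioi (0:ℝ), H v = -I * CT g (x + σ * I) := by
    rw [hH, integral_const_mul]
    have hsw := integral_integral_swap (f := fun v t : ℝ => g t * hk (x + σ * I - t) v)
      (μ := volume.restrict (Ioi (0:ℝ))) (ν := volume) hJ
    rw [hsw]
    have hin : ∀ t : ℝ, ∫ v in Ioi (0:ℝ), g t * hk (x + σ * I - t) v =
        -(I * π) * (g t / (x + σ * I - t)) := by
      intro t
      rw [integral_const_mul, hk_integral (u := x + σ * I - t) (by rw [u_im]; exact hσ)]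
      ring
    simp_rw [hin]
    rw [integral_const_mul]
    unfold CT
    have hpi : (π : ℂ) ≠ 0 := by exact_mod_cast Real.pi_ne_zero
    field_simp
  rw [← hval]
  refine (hlim.const_mul _).congr' ?_
  filter_upwards [self_mem_nhdsWithin] with ε hε
  exact (truncH_CT hg hσ hφ x hε).symm

/-- the same for the real part -/
theorem truncH_re_tendsto {s : ℝ → ℝ} (hs : Integrable s) (hσ : 0 < σ)
    (hφ : Integrable (fun y : ℝ => Fs s (y + σ * I))) (x : ℝ) :
    Tendsto (fun ε => truncH (fun y => ((Fs s (y + σ * I)).re : ℂ)) ε x) (𝓝[>] 0)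
      (𝓝 ((Fs s (x + σ * I)).im : ℂ)) := by
  have h1 := truncH_CT_tendsto (g := fun t => (s t : ℂ)) hs.ofReal hσ hφ x
  have h2 := (Complex.continuous_ofReal.comp Complex.continuous_re).tendsto
    (-I * CT (fun t => (s t : ℂ)) (x + σ * I))
  have h3 := h2.comp h1
  have h4 : (Complex.ofReal ∘ Complex.re) (-I * CT (fun t => (s t : ℂ)) (x + σ * I)) =
      ((Fs s (x + σ * I)).im : ℂ) := by
    simp [Fs]
  rw [h4] at h3
  refine h3.congr' ?_
  filter_upwards [self_mem_nhdsWithin] with ε hε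
  have hε0 : 0 < ε := hε
  have hint := trunc_integrable hφ hε0 x
  simp only [Function.comp_apply]
  rw [truncH_eq_tw, truncH_eq_tw]
  have h5 : ∀ w : ℂ, ((π : ℂ)⁻¹ * w).re = π⁻¹ * w.re := by
    intro w
    rw [← Complex.ofReal_inv, Complex.re_ofReal_mul]
  rw [h5]
  have h6 : (∫ y : ℝ, CT (fun t => (s t : ℂ)) (y + σ * I) * (tw ε (x - y) : ℂ)).re =
      ∫ y : ℝ, (CT (fun t => (s t : ℂ)) (y + σ * I) * (tw ε (x - y) : ℂ)).re :=
    (integral_re hint).symm
  rw [h6]
  have h7 : ∫ y : ℝ, ((Fs s (y + σ * I)).re : ℂ) * (tw ε (x - y) : ℂ) =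
      ((∫ y : ℝ, (Fs s (y + σ * I)).re * tw ε (x - y) : ℝ) : ℂ) := by
    refine Eq.trans ?_ (integral_ofReal (𝕜 := ℂ)
      (f := fun y : ℝ => (Fs s (y + σ * I)).re * tw ε (x - y)) (μ := volume))
    congr 1
    ext y
    simp
  rw [h7]
  push_cast
  congr 2
  apply congrArg
  ext y
  rw [Complex.re_mul_ofReal]
  rfl

end Pool.Agent.Helper60
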