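import Pool.Agent.Helper60.Lower2

open MeasureTheory Set Filter Topology Metric Complex
open scoped Real Nat ENNReal

namespace Pool.Agent.Helper60

/-- indicator of the unit interval -/
noncomputable def ind1 (t : ℝ) : ℝ := (Ico (0:ℝ) 1).indicator (fun _ => 1) t

/-- one period of the square wave -/
noncomputable def atom (t : ℝ) : ℝ := ind1 t - ind1 (t - 1)

lemma ind1_of_mem {t : ℝ} (h0 : 0 ≤ t) (h1 : t < 1) : ind1 t = 1 := by
  unfold ind1; rw [indicator_of_mem]; exact ⟨h0, h1⟩

lemma ind1_of_lt {t : ℝ} (h0 : t < 0) : ind1 t = 0 := by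
  unfold ind1; rw [indicator_of_notMem]; intro h; exact absurd h.1 (not_le.2 h0)

lemma ind1_of_ge {t : ℝ} (h0 : 1 ≤ t) : ind1 t = 0 := by
  unfold ind1; rw [indicator_of_notMem]; intro h; exact absurd h.2 (not_lt.2 h0)

lemma ind1_integrable : Integrable ind1 := by
  unfold ind1
  exact (integrable_indicator_iff measurableSet_Ico).2 (integrableOn_const (by simp) (by simp))

lemma atom_integrable : Integrable atom := by
  unfold atom
  exact ind1_integrable.sub (ind1_integrable.comp_sub_right 1)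

/-- square wave with `n` periods -/
noncomputable def sw : ℕ → ℝ → ℝ
  | 0 => fun _ => 0
  | n + 1 => fun t => sw n t + atom (t - 2 * n)

lemma sw_integrable (n : ℕ) : Integrable (sw n) := by
  induction n with
  | zero => exact integrable_zero _ _ _
  | succ n ih => exact ih.add (atom_integrable.comp_sub_right (2 * n))

lemma sw_neg (n : ℕ) {t : ℝ} (ht : t < 0) : sw n t = 0 := by
  induction n with
  | zero => rfl
  | succ n ih =>
    have hn : (0:ℝ) ≤ n := Nat.cast_nonneg n
    show sw n t + atom (t - 2 * n) = 0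
    unfold atom
    rw [ih, ind1_of_lt (by linarith), ind1_of_lt (by linarith)]
    ring

lemma sw_large (n : ℕ) {t : ℝ} (ht : 2 * (n : ℝ) ≤ t) : sw n t = 0 := by
  induction n with
  | zero => rfl
  | succ n ih =>
    push_cast at ht
    show sw n t + atom (t - 2 * n) = 0
    unfold atom
    rw [ih (by linarith), ind1_of_ge (by linarith), ind1_of_ge (by linarith)]
    ring

lemma sw_const (n : ℕ) : ∀ k < 2 * n, ∃ c : ℝ, |c| = 1 ∧ ∀ t : ℝ, (k : ℝ) ≤ t → t < k + 1 →
    sw n t = c := by
  induction n with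
  | zero => intro k hk; omega
  | succ n ih =>
    intro k hk
    rcases lt_or_ge k (2 * n) with h | h
    · obtain ⟨c, hc, hc2⟩ := ih k h
      refine ⟨c, hc, fun t h1 h2 => ?_⟩
      have h3 : (k : ℝ) + 1 ≤ 2 * n := by exact_mod_cast h
      show sw n t + atom (t - 2 * n) = c
      unfold atom
      rw [hc2 t h1 h2, ind1_of_lt (by linarith), ind1_of_lt (by linarith)]
      ring
    · rcases Nat.lt_or_ge k (2 * n + 1) with h' | h'
      · have hk' : k = 2 * n := by omega
        refine ⟨1, abs_one, fun t h1 h2 => ?_⟩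
        rw [hk'] at h1 h2
        push_cast at h1 h2
        show sw n t + atom (t - 2 * n) = 1
        unfold atom
        rw [sw_large n h1, ind1_of_mem (by linarith) (by linarith), ind1_of_lt (by linarith)]
        ring
      · have hk' : k = 2 * n + 1 := by omega
        refine ⟨-1, by simp, fun t h1 h2 => ?_⟩
        rw [hk'] at h1 h2
        push_cast at h1 h2
        show sw n t + atom (t - 2 * n) = -1
        unfold atom
        rw [sw_large n (by linarith), ind1_of_ge (by linarith), ind1_of_mem (by linarith)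
          (by linarith)]
        ring

lemma sw_abs_le (n : ℕ) (t : ℝ) : |sw n t| ≤ 1 := by
  rcases lt_or_ge t 0 with h | h
  · rw [sw_neg n h]; simp
  · rcases lt_or_ge t (2 * n) with h' | h'
    · have h1 : ⌊t⌋₊ < 2 * n := by
        rw [Nat.floor_lt h]; exact_mod_cast h'
      obtain ⟨c, hc, hc2⟩ := sw_const n _ h1
      rw [hc2 t (Nat.floor_le h) (Nat.lt_floor_add_one t), hc]
    · rw [sw_large n h']; simp

lemma Fs_add {a b : ℝ → ℝ} (ha : Integrable a) (hb : Integrable b) {z : ℂ} (hz : 0 < z.im) :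
    Fs (fun t => a t + b t) z = Fs a z + Fs b z := by
  unfold Fs CT
  rw [← mul_add, ← integral_add (CT_integrand_integrable (g := fun t => (a t : ℂ)) ha.ofReal hz)
    (CT_integrand_integrable (g := fun t => (b t : ℂ)) hb.ofReal hz)]
  congr 2
  ext t
  push_cast
  ring

lemma Fs_shift (a : ℝ → ℝ) (c : ℝ) (z : ℂ) : Fs (fun t => a (t - c)) z = Fs a (z - c) := by
  unfold Fs CT
  congr 1
  rw [← integral_sub_right_eq_self (fun t : ℝ => (a t : ℂ) / (z - c - t)) c]
  congr 1
  ext t
  push_cast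
  congr 1
  ring

lemma Fs_sw (n : ℕ) (x σ : ℝ) (hσ : 0 < σ) :
    Fs (sw n) (x + σ * I) = ∑ j ∈ Finset.range n, Fs atom (((x - 2 * j : ℝ) : ℂ) + σ * I) := by
  induction n with
  | zero =>
    rw [Finset.range_zero, Finset.sum_empty]
    unfold Fs CT sw
    simp
  | succ n ih =>
    rw [Finset.sum_range_succ, ← ih]
    have h1 : Fs (sw (n + 1)) (x + σ * I) = Fs (fun t => sw n t + atom (t - 2 * n)) (x + σ * I) :=
      rfl
    rw [h1, Fs_add (sw_integrable n) (atom_integrable.comp_sub_right (2 * n)) (by simpa using hσ),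
      Fs_shift]
    congr 2
    push_cast
    ring

lemma atom_den {σ x r : ℝ} (hσ : 0 < σ) (h0 : 0 ≤ r) (h2 : r ≤ 2) :
    1 + x ^ 2 ≤ (2 + 9 / σ ^ 2) * ((x - r) ^ 2 + σ ^ 2) := by
  have h3 : (2 + 9 / σ ^ 2) * ((x - r) ^ 2 + σ ^ 2) = 2 * (x - r) ^ 2 + 9 +
      (2 * σ ^ 2 + 9 / σ ^ 2 * (x - r) ^ 2) := by
    field_simp; ring
  rw [h3]
  have h4 : 0 ≤ 2 * σ ^ 2 + 9 / σ ^ 2 * (x - r) ^ 2 := by positivity
  nlinarith [sq_nonneg (x - 2 * r), mul_nonneg h0 (by linarith : 0 ≤ 2 - r)]

lemma atom_bound {σ : ℝ} (hσ : 0 < σ) (x : ℝ) :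
    ‖Fs atom (x + σ * I)‖ ≤ (π⁻¹ * (2 + 9 / σ ^ 2)) * (1 + x ^ 2)⁻¹ := by
  have him : 0 < ((x : ℂ) + σ * I).im := by simpa using hσ
  have him2 : 0 < ((x : ℂ) + σ * I - (1 : ℝ)).im := by simpa using hσ
  have hi : Integrable (fun t => (ind1 t : ℂ)) := ind1_integrable.ofReal
  have h1 : Fs atom (x + σ * I) = Fs ind1 (x + σ * I) - Fs ind1 (x + σ * I - (1 : ℝ)) := by
    rw [← Fs_shift]
    unfold Fs CT
    rw [← mul_sub, ← integral_sub (CT_integrand_integrable hi him)
      (CT_integrand_integrable (g := fun t => (ind1 (t - 1) : ℂ))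
        (ind1_integrable.comp_sub_right 1).ofReal him)]
    congr 2
    ext t
    unfold atom
    push_cast
    ring
  set K : ℝ := 2 + 9 / σ ^ 2 with hK
  have hK0 : 0 < K := by positivity
  rw [h1]
  unfold Fs CT
  rw [← mul_sub, ← integral_sub (CT_integrand_integrable hi him)
    (CT_integrand_integrable hi him2), norm_mul, norm_inv, Complex.norm_real,
    Real.norm_of_nonneg Real.pi_pos.le, mul_assoc]
  gcongr
  calc ‖∫ t : ℝ, ((ind1 t : ℂ) / (x + σ * I - t) - (ind1 t : ℂ) / (x + σ * I - (1 : ℝ) - t))‖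
      ≤ ∫ t : ℝ, ind1 t * (K * (1 + x ^ 2)⁻¹) := by
        apply norm_integral_le_of_norm_le (ind1_integrable.mul_const _)
        refine Eventually.of_forall fun t => ?_
        by_cases ht : t ∈ Ico (0:ℝ) 1
        · have hi1 : ind1 t = 1 := ind1_of_mem ht.1 ht.2
          rw [hi1]
          have hd1 : (x : ℂ) + σ * I - t ≠ 0 := sub_ne_zero_of_im him t
          have hd2 : (x : ℂ) + σ * I - (1 : ℝ) - t ≠ 0 := sub_ne_zero_of_im him2 t
          have e1 : (((1:ℝ) : ℂ) / (x + σ * I - t) - ((1:ℝ) : ℂ) / (x + σ * I - (1 : ℝ) - t)) =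
              -(((x : ℂ) + σ * I - t)⁻¹ * ((x : ℂ) + σ * I - (1 : ℝ) - t)⁻¹) := by
            push_cast at hd2 ⊢
            field_simp
            ring
          rw [e1, norm_neg, norm_mul, norm_inv, norm_inv, one_mul]
          have n1 : ‖(x : ℂ) + σ * I - t‖ ^ 2 = (x - t) ^ 2 + σ ^ 2 := by
            have := norm_sub_sq ((x : ℂ) + σ * I) t
            simpa using this
          have n2 : ‖(x : ℂ) + σ * I - (1 : ℝ) - t‖ ^ 2 = (x - (1 + t)) ^ 2 + σ ^ 2 := by
            have := norm_sub_sq ((x : ℂ) + σ * I - (1 : ℝ)) t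
            rw [this]
            simp
            ring
          have p1 : 0 < ‖(x : ℂ) + σ * I - t‖ := norm_pos_iff.2 hd1
          have p2 : 0 < ‖(x : ℂ) + σ * I - (1 : ℝ) - t‖ := norm_pos_iff.2 hd2
          have b1 : (‖(x : ℂ) + σ * I - t‖⁻¹) ^ 2 ≤ K * (1 + x ^ 2)⁻¹ := by
            rw [inv_pow, n1, ← div_eq_mul_inv, le_div_iff₀ (by positivity), inv_mul_le_iff₀
              (by positivity), mul_comm]
            exact atom_den hσ ht.1 (by linarith [ht.2])
          have b2 : (‖(x : ℂ) + σ * I - (1 : ℝ) - t‖⁻¹) ^ 2 ≤ K * (1 + x ^ 2)⁻¹ := by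
            rw [inv_pow, n2, ← div_eq_mul_inv, le_div_iff₀ (by positivity), inv_mul_le_iff₀
              (by positivity), mul_comm]
            exact atom_den hσ (by linarith [ht.1]) (by linarith [ht.2])
          nlinarith [sq_nonneg (‖(x : ℂ) + σ * I - t‖⁻¹ - ‖(x : ℂ) + σ * I - (1 : ℝ) - t‖⁻¹)]
        · have hi0 : ind1 t = 0 := by unfold ind1; rw [indicator_of_notMem ht]
          rw [hi0]; simp
    _ = K * (1 + x ^ 2)⁻¹ := by
        rw [integral_mul_const]
        have : ∫ t, ind1 t = 1 := by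
          unfold ind1
          rw [integral_indicator measurableSet_Ico]
          simp
        rw [this, one_mul]

lemma Fs_line_continuous {s : ℝ → ℝ} (hs : Integrable s) {σ : ℝ} (hσ : 0 < σ) :
    Continuous (fun x : ℝ => Fs s (x + σ * I)) := by
  rw [continuous_iff_continuousAt]
  intro x
  have h1 : ContinuousAt (Fs s) ((x : ℂ) + σ * I) :=
    (Fs_differentiableAt hs (by simpa using hσ)).continuousAt
  have h2 : ContinuousAt (fun x : ℝ => (x : ℂ) + σ * I) x := by fun_prop
  exact ContinuousAt.comp (g := Fs s) h1 h2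

lemma Fs_atom_integrable {σ : ℝ} (hσ : 0 < σ) : Integrable (fun x : ℝ => Fs atom (x + σ * I)) :=
  (integrable_inv_one_add_sq.const_mul _).mono' (Fs_line_continuous atom_integrable
    hσ).aestronglyMeasurable (Eventually.of_forall fun x => atom_bound hσ x)

lemma Fs_sw_integrable (n : ℕ) {σ : ℝ} (hσ : 0 < σ) :
    Integrable (fun x : ℝ => Fs (sw n) (x + σ * I)) := by
  have h1 : (fun x : ℝ => Fs (sw n) (x + σ * I)) = fun x : ℝ =>
      ∑ j ∈ Finset.range n, Fs atom (((x - 2 * j : ℝ) : ℂ) + σ * I) := by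
    ext x; exact Fs_sw n x σ hσ
  rw [h1]
  apply integrable_finsetSum
  intro j _
  exact (Fs_atom_integrable hσ).comp_sub_right (2 * (j : ℝ))

/-- tail of the atom -/
noncomputable def tl (σ : ℝ) (k : ℕ) : ℝ := ∫ y in {y : ℝ | (k : ℝ) < |y|}, ‖Fs atom (y + σ * I)‖

lemma tl_set_meas (k : ℕ) : MeasurableSet {y : ℝ | (k : ℝ) < |y|} :=
  (isOpen_lt continuous_const (by fun_prop)).measurableSet

lemma tl_tendsto {σ : ℝ} (hσ : 0 < σ) : Tendsto (tl σ) atTop (𝓝 0) := by
  have h := tendsto_setIntegral_of_antitone (μ := volume)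
    (f := fun y : ℝ => ‖Fs atom (y + σ * I)‖) (s := fun k : ℕ => {y : ℝ | (k : ℝ) < |y|})
    (fun k => tl_set_meas k) ?_ ⟨0, (Fs_atom_integrable hσ).norm.integrableOn⟩
  · have hempty : (⋂ k : ℕ, {y : ℝ | (k : ℝ) < |y|}) = ∅ := by
      ext y
      simp only [mem_iInter, mem_empty_iff_false, iff_false, not_forall]
      obtain ⟨k, hk⟩ := exists_nat_ge |y|
      refine ⟨k, ?_⟩
      show ¬ ((k : ℝ) < |y|)
      exact not_lt.2 hk
    rw [hempty] at h
    have h' : Tendsto (fun k : ℕ => ∫ y in {y : ℝ | (k : ℝ) < |y|}, ‖Fs atom (y + σ * I)‖) atTop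
        (𝓝 0) := by simpa using h
    exact h'
  · intro a b hab y hy
    have h1 : (b : ℝ) < |y| := hy
    have h2 : (a : ℝ) ≤ b := by exact_mod_cast hab
    show (a : ℝ) < |y|
    linarith

lemma sw_tail {σ : ℝ} (hσ : 0 < σ) (n : ℕ) :
    ∫ x in (Icc (0:ℝ) (2 * n))ᶜ, ‖Fs (sw n) (x + σ * I)‖ ≤
      2 * ∑ j ∈ Finset.range n, tl σ j := by
  have hA := (Fs_atom_integrable hσ).norm
  have hAj : ∀ j : ℕ, Integrable (fun x : ℝ => ‖Fs atom (((x - 2 * j : ℝ) : ℂ) + σ * I)‖) :=
    fun j => hA.comp_sub_right (2 * (j : ℝ))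
  have key : ∀ j ∈ Finset.range n,
      ∫ x in (Icc (0:ℝ) (2 * n))ᶜ, ‖Fs atom (((x - 2 * j : ℝ) : ℂ) + σ * I)‖ ≤
        tl σ j + tl σ (n - 1 - j) := by
    intro j hj
    have hj' : j < n := Finset.mem_range.1 hj
    set G : ℕ → ℝ → ℝ := fun k y => ({y : ℝ | (k : ℝ) < |y|}).indicator
      (fun y => ‖Fs atom (y + σ * I)‖) y with hG
    have hGi : ∀ k, Integrable (G k) := fun k => hA.indicator (tl_set_meas k)
    have hG0 : ∀ k y, 0 ≤ G k y := fun k y => indicator_nonneg (fun _ _ => norm_nonneg _) _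
    have hGv : ∀ k, ∫ y, G k y = tl σ k := fun k => integral_indicator (tl_set_meas k)
    rw [← integral_indicator measurableSet_Icc.compl]
    calc ∫ x, ((Icc (0:ℝ) (2 * n))ᶜ).indicator
          (fun x => ‖Fs atom (((x - 2 * j : ℝ) : ℂ) + σ * I)‖) x
        ≤ ∫ x : ℝ, (G j (x - 2 * j) + G (n - 1 - j) (x - 2 * j)) := by
          apply integral_mono ((hAj j).indicator measurableSet_Icc.compl)
            (((hGi j).comp_sub_right (2 * (j:ℝ))).add ((hGi _).comp_sub_right (2 * (j:ℝ))))
          intro x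
          show ((Icc (0:ℝ) (2 * n))ᶜ).indicator
            (fun x => ‖Fs atom (((x - 2 * j : ℝ) : ℂ) + σ * I)‖) x ≤
              G j (x - 2 * j) + G (n - 1 - j) (x - 2 * j)
          by_cases hx : x ∈ (Icc (0:ℝ) (2 * n))ᶜ
          · rw [indicator_of_mem hx]
            have hx' : ¬ (0 ≤ x ∧ x ≤ 2 * n) := hx
            rcases lt_or_ge x 0 with h | h
            · have hmem : x - 2 * j ∈ {y : ℝ | (j : ℝ) < |y|} := by
                show (j : ℝ) < |x - 2 * j|
                have : (0:ℝ) ≤ j := Nat.cast_nonneg j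
                rw [abs_of_neg (by linarith)]
                linarith
              have : G j (x - 2 * j) = ‖Fs atom (((x - 2 * j : ℝ) : ℂ) + σ * I)‖ := by
                simp only [hG]; rw [indicator_of_mem hmem]
              rw [this]
              linarith [hG0 (n - 1 - j) (x - 2 * j)]
            · have h2 : 2 * (n : ℝ) < x := by
                by_contra h3
                push Not at h3
                exact hx' ⟨h, h3⟩
              have hmem : x - 2 * j ∈ {y : ℝ | ((n - 1 - j : ℕ) : ℝ) < |y|} := by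
                show ((n - 1 - j : ℕ) : ℝ) < |x - 2 * j|
                have h4 : (j : ℝ) + 1 ≤ n := by exact_mod_cast hj'
                have h5 : ((n - 1 - j : ℕ) : ℝ) = n - 1 - j := by
                  rw [Nat.cast_sub (by omega), Nat.cast_sub (by omega)]; simp
                rw [h5, abs_of_pos (by linarith)]
                linarith
              have : G (n - 1 - j) (x - 2 * j) = ‖Fs atom (((x - 2 * j : ℝ) : ℂ) + σ * I)‖ := by
                simp only [hG]; rw [indicator_of_mem hmem]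
              rw [this]
              linarith [hG0 j (x - 2 * j)]
          · rw [indicator_of_notMem hx]
            exact add_nonneg (hG0 _ _) (hG0 _ _)
      _ = tl σ j + tl σ (n - 1 - j) := by
          rw [integral_add ((hGi j).comp_sub_right (2 * (j:ℝ))) ((hGi _).comp_sub_right (2 * (j:ℝ))),
            integral_sub_right_eq_self, integral_sub_right_eq_self, hGv, hGv]
  calc ∫ x in (Icc (0:ℝ) (2 * n))ᶜ, ‖Fs (sw n) (x + σ * I)‖
      ≤ ∫ x in (Icc (0:ℝ) (2 * n))ᶜ,
          ∑ j ∈ Finset.range n, ‖Fs atom (((x - 2 * j : ℝ) : ℂ) + σ * I)‖ := by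
        apply setIntegral_mono (Fs_sw_integrable n hσ).norm.integrableOn
        · exact (integrable_finsetSum _ fun j _ => hAj j).integrableOn
        · intro x
          simp only
          rw [Fs_sw n x σ hσ]
          exact norm_sum_le _ _
    _ = ∑ j ∈ Finset.range n, ∫ x in (Icc (0:ℝ) (2 * n))ᶜ,
          ‖Fs atom (((x - 2 * j : ℝ) : ℂ) + σ * I)‖ :=
        integral_finsetSum _ fun j _ => (hAj j).integrableOn
    _ ≤ ∑ j ∈ Finset.range n, (tl σ j + tl σ (n - 1 - j)) := Finset.sum_le_sum key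
    _ = 2 * ∑ j ∈ Finset.range n, tl σ j := by
        rw [Finset.sum_add_distrib, Finset.sum_range_reflect]
        ring

lemma pk_compare {σ δ u : ℝ} (hσ : 0 < σ) (hδ : 0 < δ) (hu : δ ≤ |u|) :
    pk σ u ≤ 2 * σ / δ * pk δ u := by
  unfold pk
  have h1 : δ ^ 2 ≤ u ^ 2 := by rw [← sq_abs u]; gcongr
  have hpi := Real.pi_pos
  have h2 : 2 * σ / δ * (π⁻¹ * (δ / (u ^ 2 + δ ^ 2))) = π⁻¹ * ((2 * σ) / (u ^ 2 + δ ^ 2)) := by
    field_simp
  rw [h2]
  gcongr π⁻¹ * ?_
  rw [div_le_div_iff₀ (by positivity) (by positivity)]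
  nlinarith [sq_nonneg σ]

lemma level_bound {σ δ : ℝ} (hσ : 0 < σ) (hδ : 0 < δ) {n k : ℕ} (hk : k < 2 * n) {x : ℝ}
    (hx : x ∈ Ioo ((k : ℝ) + δ) (k + 1 - δ)) :
    1 - 4 * σ / δ ≤ |(Fs (sw n) (x + σ * I)).im| := by
  obtain ⟨c, hc, hc2⟩ := sw_const n k hk
  have him : ((x : ℂ) + σ * I).im = σ := by simp
  have hre : ((x : ℂ) + σ * I).re = x := by simp
  rw [Fs_im (sw_integrable n) (by rw [him]; exact hσ), him, hre, abs_neg]
  have hpi := pk_integrable x hσ
  have h1 : (∫ t, pk σ (x - t) * sw n t) - c = ∫ t, pk σ (x - t) * (sw n t - c) := by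
    have h2 : c = ∫ t, pk σ (x - t) * c := by
      rw [integral_mul_const, pk_integral x hσ, one_mul]
    have hi1 : Integrable (fun t => pk σ (x - t) * sw n t) := by
      refine hpi.mul_bdd (c := 1) (sw_integrable n).1 (Eventually.of_forall fun t => ?_)
      exact sw_abs_le n t
    conv_lhs => rw [h2]
    rw [← integral_sub hi1 (hpi.mul_const c)]
    congr 1
    ext t
    ring
  have h3 : |(∫ t, pk σ (x - t) * sw n t) - c| ≤ 4 * σ / δ := by
    rw [h1]
    calc |∫ t, pk σ (x - t) * (sw n t - c)| ≤ ∫ t, 4 * σ / δ * pk δ (x - t) := by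
          rw [← Real.norm_eq_abs]
          apply norm_integral_le_of_norm_le ((pk_integrable x hδ).const_mul _)
          refine Eventually.of_forall fun t => ?_
          rw [Real.norm_eq_abs, abs_mul, abs_of_nonneg (pk_nonneg hσ.le _)]
          rcases lt_or_ge |x - t| δ with h | h
          · rw [abs_lt] at h
            have : sw n t = c := hc2 t (by linarith [hx.1]) (by linarith [hx.2])
            rw [this, sub_self, abs_zero, mul_zero]
            have := pk_nonneg hδ.le (x - t)
            positivity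
          · have h4 := pk_compare hσ hδ h
            have h5 : |sw n t - c| ≤ 2 := by
              have h6 := sw_abs_le n t
              have h7 : |sw n t - c| ≤ |sw n t| + |c| := abs_sub _ _
              linarith
            calc pk σ (x - t) * |sw n t - c| ≤ (2 * σ / δ * pk δ (x - t)) * 2 := by
                  have := pk_nonneg hσ.le (x - t)
                  have := pk_nonneg hδ.le (x - t)
                  gcongr
              _ = 4 * σ / δ * pk δ (x - t) := by ring
      _ = 4 * σ / δ := by rw [integral_const_mul, pk_integral x hδ, mul_one]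
  have h8 : |c| - |∫ t, pk σ (x - t) * sw n t| ≤ |(∫ t, pk σ (x - t) * sw n t) - c| := by
    rw [abs_sub_comm]; exact abs_sub_abs_le_abs_sub _ _
  linarith

end Pool.Agent.Helper60
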