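import Pool.Agent.Helper60.Lower3

open MeasureTheory Set Filter Topology Metric Complex
open scoped Real Nat ENNReal

namespace Pool.Agent.Helper60

lemma level_measure {δ : ℝ} (hδ : 0 < δ) (n : ℕ) :
    ENNReal.ofReal (2 * n * (1 - 2 * δ)) ≤
      volume (⋃ k ∈ Finset.range (2 * n), Ioo ((k : ℝ) + δ) (k + 1 - δ)) := by
  rw [measure_biUnion_finset]
  · have : ∀ k ∈ Finset.range (2 * n), volume (Ioo ((k : ℝ) + δ) (k + 1 - δ)) =
        ENNReal.ofReal (1 - 2 * δ) := by
      intro k _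
      rw [Real.volume_Ioo]
      congr 1; ring
    rw [Finset.sum_congr rfl this, Finset.sum_const, Finset.card_range, nsmul_eq_mul,
      ENNReal.ofReal_mul (by positivity)]
    gcongr
    rw [show (2 * (n : ℝ)) = ((2 * n : ℕ) : ℝ) by push_cast; ring, ENNReal.ofReal_natCast]
  · intro k _ l _ hkl
    show Disjoint (Ioo ((k : ℝ) + δ) (k + 1 - δ)) (Ioo ((l : ℝ) + δ) (l + 1 - δ))
    rw [Set.disjoint_left]
    intro x hx hx'
    apply hkl
    have h1 : (k : ℝ) < l + 1 := by linarith [hx.1, hx'.2]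
    have h2 : (l : ℝ) < k + 1 := by linarith [hx.2, hx'.1]
    have h3 : k < l + 1 := by exact_mod_cast h1
    have h4 : l < k + 1 := by exact_mod_cast h2
    omega
  · intro k _; exact measurableSet_Ioo

/-- every admissible constant is at least `1 / kap`; only real valued functions are used -/
theorem weak_type_lower {C : ℝ} (hC : 0 ≤ C)
    (h : ∀ f : ℝ → ℂ, Integrable f → (∀ x, (f x).im = 0) → ∀ lam : ℝ, 0 < lam →
      ENNReal.ofReal lam * volume {x : ℝ | ∃ ℓ : ℂ,
        Tendsto (fun ε => truncH f ε x) (𝓝[>] 0) (𝓝 ℓ) ∧ lam < ‖ℓ‖} ≤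
        ENNReal.ofReal C * ∫⁻ t, ‖f t‖ₑ) : 1 ≤ C * kap := by
  have hk := kap_pos
  -- the inequality for every small `δ`
  have hmain : ∀ δ : ℝ, 0 < δ → 5 * δ < 1 → (1 - 5 * δ) * (1 - 2 * δ) ≤ C * kap := by
    intro δ hδ hδ2
    set σ : ℝ := δ ^ 2 with hσd
    have hσ : 0 < σ := by positivity
    have hn : ∀ n : ℕ, (1 - 5 * δ) * (2 * n * (1 - 2 * δ)) ≤
        C * (kap * (2 * n) + (1 + kap) * (2 * ∑ j ∈ Finset.range n, tl σ j)) := by
      intro n
      set f : ℝ → ℂ := fun y => ((Fs (sw n) (y + σ * I)).re : ℂ) with hf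
      have hFi := Fs_sw_integrable n hσ
      have hfi : Integrable f := hFi.re.ofReal
      have h1 := h f hfi (fun x => Complex.ofReal_im _) (1 - 5 * δ) (by linarith)
      have hnorm : ∫⁻ t, ‖f t‖ₑ = ENNReal.ofReal (∫ x : ℝ, |(Fs (sw n) (x + σ * I)).re|) := by
        rw [← ofReal_integral_norm_eq_lintegral_enorm hfi]
        congr 1
        apply integral_congr_ae
        refine Eventually.of_forall fun x => ?_
        simp only [hf, Complex.norm_real, Real.norm_eq_abs]
      have hsub : (⋃ k ∈ Finset.range (2 * n), Ioo ((k : ℝ) + δ) (k + 1 - δ)) ⊆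
          {x : ℝ | ∃ ℓ : ℂ, Tendsto (fun ε => truncH f ε x) (𝓝[>] 0) (𝓝 ℓ) ∧
            1 - 5 * δ < ‖ℓ‖} := by
        intro x hx
        simp only [mem_iUnion, Finset.mem_range] at hx
        obtain ⟨k, hk2, hx2⟩ := hx
        refine ⟨_, truncH_re_tendsto (sw_integrable n) hσ hFi x, ?_⟩
        rw [Complex.norm_real, Real.norm_eq_abs]
        have h2 := level_bound hσ hδ hk2 hx2
        have h3 : 4 * σ / δ = 4 * δ := by rw [hσd]; field_simp
        rw [h3] at h2
        linarith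
      have h4 : ENNReal.ofReal ((1 - 5 * δ) * (2 * n * (1 - 2 * δ))) ≤
          ENNReal.ofReal (C * ∫ x : ℝ, |(Fs (sw n) (x + σ * I)).re|) := by
        rw [ENNReal.ofReal_mul (by linarith), ENNReal.ofReal_mul hC, ← hnorm]
        refine le_trans ?_ h1
        gcongr
        exact (level_measure hδ n).trans (measure_mono hsub)
      have h5 : (1 - 5 * δ) * (2 * n * (1 - 2 * δ)) ≤
          C * ∫ x : ℝ, |(Fs (sw n) (x + σ * I)).re| := by
        have h0 : 0 ≤ C * ∫ x : ℝ, |(Fs (sw n) (x + σ * I)).re| :=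
          mul_nonneg hC (integral_nonneg fun _ => abs_nonneg _)
        exact (ENNReal.ofReal_le_ofReal_iff h0).1 h4
      refine h5.trans ?_
      gcongr
      have h6 := re_integral_le (sw_integrable n) (sw_abs_le n) hσ hFi 0 (2 * n) (by positivity)
      rw [sub_zero] at h6
      refine h6.trans ?_
      gcongr
      exact sw_tail hσ n
    -- pass to the limit in `n`
    have hces := (tl_tendsto hσ).cesaro
    have hlim : Tendsto (fun n : ℕ => C * (kap * 2 + (1 + kap) * (2 *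
        ((n : ℝ)⁻¹ * ∑ j ∈ Finset.range n, tl σ j)))) atTop
        (𝓝 (C * (kap * 2 + (1 + kap) * (2 * 0)))) :=
      (((hces.const_mul 2).const_mul (1 + kap)).const_add (kap * 2)).const_mul C
    have hle : (1 - 5 * δ) * (2 * (1 - 2 * δ)) ≤ C * (kap * 2 + (1 + kap) * (2 * 0)) := by
      refine ge_of_tendsto hlim ?_
      filter_upwards [eventually_gt_atTop 0] with n hn0
      have hn1 : (0:ℝ) < n := by exact_mod_cast hn0
      have h1 := hn n
      have h2 : (1 - 5 * δ) * (2 * (1 - 2 * δ)) =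
          (n : ℝ)⁻¹ * ((1 - 5 * δ) * (2 * n * (1 - 2 * δ))) := by field_simp
      have h3 : C * (kap * 2 + (1 + kap) * (2 * ((n : ℝ)⁻¹ * ∑ j ∈ Finset.range n, tl σ j))) =
          (n : ℝ)⁻¹ * (C * (kap * (2 * n) + (1 + kap) * (2 * ∑ j ∈ Finset.range n, tl σ j))) := by
        field_simp
      rw [h2, h3]
      gcongr
    linarith
  -- pass to the limit in `δ`
  have hlim : Tendsto (fun δ : ℝ => (1 - 5 * δ) * (1 - 2 * δ)) (𝓝[>] 0)
      (𝓝 ((1 - 5 * 0) * (1 - 2 * 0))) := by
    apply tendsto_nhdsWithin_of_tendsto_nhds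
    have hc : Continuous (fun δ : ℝ => (1 - 5 * δ) * (1 - 2 * δ)) := by fun_prop
    exact hc.tendsto 0
  have h1 : (1 - 5 * (0:ℝ)) * (1 - 2 * 0) ≤ C * kap := by
    refine le_of_tendsto hlim ?_
    have h5 : ∀ᶠ δ : ℝ in 𝓝[>] 0, δ < 1 / 5 :=
      nhdsWithin_le_nhds (eventually_lt_nhds (by norm_num))
    filter_upwards [self_mem_nhdsWithin, h5] with δ hδ hδ2
    exact hmain δ hδ (by linarith)
  linarith

end Pool.Agent.Helper60
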