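import Pool.Agent.Helper60.Upper2
import Pool.Agent.Helper60.LebPoint

open MeasureTheory Set Filter Topology Metric Complex
open scoped Real Nat ENNReal

namespace Pool.Agent.Helper60

/-- truncated Hilbert transform -/
noncomputable def truncH (f : ℝ → ℂ) (ε x : ℝ) : ℂ :=
  (π : ℂ)⁻¹ * ∫ y in {y : ℝ | ε < |x - y|}, f y / ((x - y : ℝ) : ℂ)

/-- difference kernel -/
noncomputable def dk (ε s : ℝ) : ℝ := π⁻¹ * ((if ε < |s| then s⁻¹ else 0) - s / (s ^ 2 + ε ^ 2))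

lemma dk_neg (ε s : ℝ) : dk ε (-s) = - dk ε s := by
  unfold dk
  rw [abs_neg]
  split_ifs
  · rw [inv_neg]; ring
  · ring

lemma dk_measurable (ε : ℝ) : Measurable (dk ε) := by
  unfold dk
  apply Measurable.const_mul
  apply Measurable.sub
  · apply Measurable.ite
    · exact measurableSet_lt measurable_const (by fun_prop)
    · fun_prop
    · fun_prop
  · fun_prop

lemma dk_abs_le {ε : ℝ} (hε : 0 < ε) (s : ℝ) :
    |dk ε s| ≤ 4 / π * (ε ^ 2 / (ε + |s|) ^ 3) := by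
  have hs0 : 0 ≤ |s| := abs_nonneg s
  have hsq : s ^ 2 = |s| ^ 2 := (sq_abs s).symm
  have h3 : (ε + |s|) ^ 2 ≤ 2 * (s ^ 2 + ε ^ 2) := by
    rw [hsq]; nlinarith [sq_nonneg (ε - |s|)]
  have hpos : 0 < s ^ 2 + ε ^ 2 := by positivity
  have key : |(if ε < |s| then s⁻¹ else 0) - s / (s ^ 2 + ε ^ 2)| ≤ 4 * (ε ^ 2 / (ε + |s|) ^ 3) := by
    split_ifs with h
    · have hs : s ≠ 0 := by
        intro h0; rw [h0] at h; simp at h; linarith
      have hsp : 0 < |s| := abs_pos.2 hs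
      have h1 : s⁻¹ - s / (s ^ 2 + ε ^ 2) = ε ^ 2 / (s * (s ^ 2 + ε ^ 2)) := by
        field_simp; ring
      rw [h1, abs_div, abs_mul, abs_of_pos hpos, abs_of_pos (by positivity : 0 < ε ^ 2),
        mul_div_assoc', div_le_div_iff₀ (by positivity) (by positivity)]
      have h2 : (ε + |s|) ^ 3 ≤ (2 * |s|) * (2 * (s ^ 2 + ε ^ 2)) := by
        rw [pow_succ', ]
        apply mul_le_mul _ h3 (by positivity) (by positivity)
        linarith
      calc ε ^ 2 * (ε + |s|) ^ 3 ≤ ε ^ 2 * ((2 * |s|) * (2 * (s ^ 2 + ε ^ 2))) := by gcongr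
        _ = 4 * ε ^ 2 * (|s| * (s ^ 2 + ε ^ 2)) := by ring
    · push Not at h
      rw [zero_sub, abs_neg, abs_div, abs_of_pos hpos, mul_div_assoc',
        div_le_div_iff₀ (by positivity) (by positivity)]
      have h2 : (ε + |s|) ^ 3 ≤ (2 * ε) * (2 * (s ^ 2 + ε ^ 2)) := by
        rw [pow_succ', ]
        apply mul_le_mul _ h3 (by positivity) (by positivity)
        linarith
      calc |s| * (ε + |s|) ^ 3 ≤ ε * ((2 * ε) * (2 * (s ^ 2 + ε ^ 2))) := by gcongr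
        _ = 4 * ε ^ 2 * (s ^ 2 + ε ^ 2) := by ring
  unfold dk
  rw [abs_mul, abs_of_pos (by positivity : 0 < π⁻¹)]
  calc π⁻¹ * |(if ε < |s| then s⁻¹ else 0) - s / (s ^ 2 + ε ^ 2)|
      ≤ π⁻¹ * (4 * (ε ^ 2 / (ε + |s|) ^ 3)) := by gcongr
    _ = _ := by ring

lemma dk_abs_le' {ε : ℝ} (hε : 0 < ε) (s : ℝ) : |dk ε s| ≤ 4 * pk ε s := by
  refine (dk_abs_le hε s).trans ?_
  have hs0 : 0 ≤ |s| := abs_nonneg s
  unfold pk
  have h1 : ε ^ 2 / (ε + |s|) ^ 3 ≤ ε / (s ^ 2 + ε ^ 2) := by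
    rw [div_le_div_iff₀ (by positivity) (by positivity)]
    have h2 : s ^ 2 + ε ^ 2 ≤ (ε + |s|) ^ 2 := by
      rw [← sq_abs s]; nlinarith [mul_nonneg hε.le hs0]
    calc ε ^ 2 * (s ^ 2 + ε ^ 2) ≤ ε ^ 2 * (ε + |s|) ^ 2 := by gcongr
      _ = ε * (ε * (ε + |s|) ^ 2) := by ring
      _ ≤ ε * ((ε + |s|) * (ε + |s|) ^ 2) := by gcongr; linarith
      _ = _ := by ring
  calc 4 / π * (ε ^ 2 / (ε + |s|) ^ 3) ≤ 4 / π * (ε / (s ^ 2 + ε ^ 2)) := by gcongr
    _ = _ := by rw [div_eq_mul_inv]; ring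

lemma dk_bound {ε : ℝ} (hε : 0 < ε) (s : ℝ) : |dk ε s| ≤ 4 / π * ε⁻¹ := by
  refine (dk_abs_le hε s).trans ?_
  have hs0 : 0 ≤ |s| := abs_nonneg s
  have h1 : ε ^ 2 / (ε + |s|) ^ 3 ≤ ε⁻¹ := by
    rw [inv_eq_one_div, div_le_div_iff₀ (by positivity) (by positivity)]
    calc ε ^ 2 * ε = ε ^ 3 := by ring
      _ ≤ (ε + |s|) ^ 3 := by gcongr; linarith
      _ = 1 * (ε + |s|) ^ 3 := by ring
  gcongr

lemma dk_integrable {ε : ℝ} (hε : 0 < ε) (x : ℝ) : Integrable (fun t => dk ε (x - t)) := by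
  refine ((pk_integrable x hε).const_mul 4).mono' ?_ (Eventually.of_forall fun t => ?_)
  · exact ((dk_measurable ε).comp (by fun_prop)).aestronglyMeasurable
  · exact dk_abs_le' hε _

lemma dk_integral (ε x : ℝ) : ∫ t, dk ε (x - t) = 0 := by
  have h1 : ∫ t, dk ε (x - t) = ∫ t, dk ε t := integral_sub_left_eq_self (dk ε) volume x
  have h2 : ∫ t, dk ε (-t) = ∫ t, dk ε t := integral_neg_eq_self (dk ε) volume
  simp_rw [dk_neg] at h2
  rw [integral_neg] at h2
  rw [h1]; linarith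

variable {f : ℝ → ℂ}

lemma trunc_set_meas (ε x : ℝ) : MeasurableSet {y : ℝ | ε < |x - y|} :=
  (isOpen_lt continuous_const (by fun_prop)).measurableSet

lemma trunc_integrable (hf : Integrable f) {ε : ℝ} (hε : 0 < ε) (x : ℝ) :
    Integrable (fun y => f y * (((if ε < |x - y| then (x - y)⁻¹ else 0 : ℝ)) : ℂ)) := by
  refine hf.mul_bdd (c := ε⁻¹) ?_ (Eventually.of_forall fun t => ?_)
  · apply Measurable.aestronglyMeasurable
    apply Complex.measurable_ofReal.comp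
    apply Measurable.ite (trunc_set_meas ε x)
    · fun_prop
    · fun_prop
  · rw [Complex.norm_real, Real.norm_eq_abs]
    split_ifs with h
    · rw [abs_inv]; exact inv_anti₀ hε h.le
    · rw [abs_zero]; positivity

lemma truncH_sub_qf (hf : Integrable f) {ε : ℝ} (hε : 0 < ε) (x : ℝ) :
    truncH f ε x - qf f (x + ε * I) = ∫ t, (dk ε (x - t) : ℂ) * (f t - f x) := by
  have hre : ((x : ℂ) + ε * I).re = x := by simp
  have him : ((x : ℂ) + ε * I).im = ε := by simp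
  have hdi : Integrable (fun t => (dk ε (x - t) : ℂ) * f x) :=
    ((dk_integrable hε x).ofReal).mul_const _
  have hdf : Integrable (fun t => (dk ε (x - t) : ℂ) * f t) := by
    refine hf.bdd_mul (c := 4 / π * ε⁻¹) ?_ (Eventually.of_forall fun t => ?_)
    · exact (Complex.measurable_ofReal.comp ((dk_measurable ε).comp
        (by fun_prop))).aestronglyMeasurable
    · rw [Complex.norm_real]; exact dk_bound hε _
  have h1 : ∫ t, (dk ε (x - t) : ℂ) * (f t - f x) = ∫ t, (dk ε (x - t) : ℂ) * f t := by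
    have : ∀ t, (dk ε (x - t) : ℂ) * (f t - f x) = (dk ε (x - t) : ℂ) * f t -
        (dk ε (x - t) : ℂ) * f x := fun t => by ring
    simp_rw [this]
    rw [integral_sub hdf hdi, integral_mul_const]
    have : ∫ t, (dk ε (x - t) : ℂ) = ((∫ t, dk ε (x - t) : ℝ) : ℂ) := integral_ofReal
    rw [this, dk_integral]
    simp
  rw [h1, qf_eq hf (by rw [him]; exact hε), hre, him]
  unfold truncH
  rw [← integral_indicator (trunc_set_meas ε x)]
  have h2 : (fun y : ℝ => ({y : ℝ | ε < |x - y|}).indicator (fun y => f y / ((x - y : ℝ) : ℂ)) y) =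
      fun y => f y * (((if ε < |x - y| then (x - y)⁻¹ else 0 : ℝ)) : ℂ) := by
    ext y
    by_cases h : ε < |x - y|
    · rw [indicator_of_mem (show y ∈ {y : ℝ | ε < |x - y|} from h), if_pos h]
      push_cast
      rw [div_eq_mul_inv]
    · rw [indicator_of_notMem (show y ∉ {y : ℝ | ε < |x - y|} from h), if_neg h]
      simp
  have h3 : Integrable (fun t => (qk ε (x - t) : ℂ) * f t) := by
    have h4 : (fun t => (qk ε (x - t) : ℂ) * f t) = fun t =>
        (π : ℂ)⁻¹ * (f t * (((if ε < |x - t| then (x - t)⁻¹ else 0 : ℝ)) : ℂ)) -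
          (dk ε (x - t) : ℂ) * f t := by
      ext t
      unfold dk qk
      push_cast
      ring
    rw [h4]
    exact ((trunc_integrable hf hε x).const_mul _).sub hdf
  rw [h2, ← integral_const_mul, ← integral_sub ((trunc_integrable hf hε x).const_mul _) h3]
  congr 1
  ext t
  unfold dk qk
  push_cast
  ring

lemma truncH_sub_qf_tendsto (hf : Integrable f) {x : ℝ} (hx : LebPt f x) :
    Tendsto (fun ε : ℝ => truncH f ε x - qf f (x + ε * I)) (𝓝[>] 0) (𝓝 0) := by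
  have h0 := maj_tendsto hf hx
  have h1 : Tendsto (fun ε : ℝ => ENNReal.ofReal (4 / π) *
      ∫⁻ t, ENNReal.ofReal (ε ^ 2 / (ε + |x - t|) ^ 3) * ‖f t - f x‖ₑ) (𝓝[>] 0) (𝓝 0) := by
    have := ENNReal.Tendsto.const_mul (a := ENNReal.ofReal (4 / π)) h0
      (Or.inr ENNReal.ofReal_ne_top)
    simpa using this
  rw [tendsto_zero_iff_norm_tendsto_zero]
  have h2 : Tendsto (fun ε : ℝ => ‖truncH f ε x - qf f (x + ε * I)‖ₑ) (𝓝[>] 0) (𝓝 0) := by
    refine tendsto_of_tendsto_of_tendsto_of_le_of_le' tendsto_const_nhds h1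
      (Eventually.of_forall fun _ => zero_le) ?_
    filter_upwards [self_mem_nhdsWithin] with ε hε
    have hε0 : 0 < ε := hε
    rw [truncH_sub_qf hf hε0]
    refine (enorm_integral_le_lintegral_enorm _).trans ?_
    rw [← lintegral_const_mul' _ _ ENNReal.ofReal_ne_top]
    apply lintegral_mono
    intro t
    simp only
    rw [enorm_mul, ← mul_assoc]
    gcongr
    rw [← ENNReal.ofReal_mul (by positivity), ← ofReal_norm, Complex.norm_real, Real.norm_eq_abs]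
    exact ENNReal.ofReal_le_ofReal (dk_abs_le hε0 _)
  have h3 := (ENNReal.tendsto_toReal ENNReal.zero_ne_top).comp h2
  simpa [Function.comp_def] using h3

lemma qf_smul (hf : Integrable f) (c : ℝ) {z : ℂ} (hz : 0 < z.im) :
    qf (fun t => (c : ℂ) * f t) z = c * qf f z := by
  rw [qf_eq hf hz, qf_eq (hf.const_mul _) hz, ← integral_const_mul]
  congr 1
  ext t
  ring

lemma weak_height_lam (hf : Integrable f) {σ lam : ℝ} (hσ : 0 < σ) (hlam : 0 < lam) :
    ENNReal.ofReal lam * volume {x : ℝ | lam ≤ ‖qf f (x + σ * I)‖} ≤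
      ENNReal.ofReal (1 / kap) * ∫⁻ t, ‖f t‖ₑ := by
  have him : ∀ x : ℝ, ((x : ℂ) + σ * I).im = σ := by intro x; simp
  have h1 := weak_height (f := fun t => ((lam⁻¹ : ℝ) : ℂ) * f t) (hf.const_mul _) hσ
  have hset : {x : ℝ | 1 ≤ ‖qf (fun t => ((lam⁻¹ : ℝ) : ℂ) * f t) (x + σ * I)‖} =
      {x : ℝ | lam ≤ ‖qf f (x + σ * I)‖} := by
    ext x
    show 1 ≤ ‖qf (fun t => ((lam⁻¹ : ℝ) : ℂ) * f t) (x + σ * I)‖ ↔ lam ≤ ‖qf f (x + σ * I)‖
    rw [qf_smul hf _ (by rw [him]; exact hσ), norm_mul, Complex.norm_real, Real.norm_of_nonneg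
      (by positivity), inv_mul_eq_div, le_div_iff₀ hlam, one_mul]
  rw [hset] at h1
  have hint : ENNReal.ofReal (∫ t, ‖((lam⁻¹ : ℝ) : ℂ) * f t‖) =
      ENNReal.ofReal lam⁻¹ * ∫⁻ t, ‖f t‖ₑ := by
    simp_rw [norm_mul, Complex.norm_real, Real.norm_of_nonneg (inv_nonneg.2 hlam.le)]
    rw [integral_const_mul, ENNReal.ofReal_mul (by positivity),
      ofReal_integral_norm_eq_lintegral_enorm hf]
  rw [hint] at h1
  have hk := kap_pos
  have hk' : ENNReal.ofReal (1 / kap) * ENNReal.ofReal kap = 1 := by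
    rw [← ENNReal.ofReal_mul (by positivity), one_div, inv_mul_cancel₀ hk.ne', ENNReal.ofReal_one]
  have hl' : ENNReal.ofReal lam * ENNReal.ofReal lam⁻¹ = 1 := by
    rw [← ENNReal.ofReal_mul (by positivity), mul_inv_cancel₀ hlam.ne', ENNReal.ofReal_one]
  calc ENNReal.ofReal lam * volume {x : ℝ | lam ≤ ‖qf f (x + σ * I)‖}
      = ENNReal.ofReal lam * (ENNReal.ofReal (1 / kap) *
        (ENNReal.ofReal kap * volume {x : ℝ | lam ≤ ‖qf f (x + σ * I)‖})) := by
        rw [← mul_assoc (ENNReal.ofReal (1 / kap)), hk', one_mul]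
    _ ≤ ENNReal.ofReal lam * (ENNReal.ofReal (1 / kap) *
        (ENNReal.ofReal lam⁻¹ * ∫⁻ t, ‖f t‖ₑ)) := by gcongr
    _ = (ENNReal.ofReal lam * ENNReal.ofReal lam⁻¹) * (ENNReal.ofReal (1 / kap) *
        ∫⁻ t, ‖f t‖ₑ) := by ring
    _ = _ := by rw [hl', one_mul]

/-- the upper bound for the weak type constant -/
theorem weak_type_upper (hf : Integrable f) {lam : ℝ} (hlam : 0 < lam) :
    ENNReal.ofReal lam * volume {x : ℝ | ∃ ℓ : ℂ,
      Tendsto (fun ε => truncH f ε x) (𝓝[>] 0) (𝓝 ℓ) ∧ lam < ‖ℓ‖} ≤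
      ENNReal.ofReal (1 / kap) * ∫⁻ t, ‖f t‖ₑ := by
  set S : ℕ → Set ℝ := fun n => {x : ℝ | lam ≤ ‖qf f (x + ((1 / ((n : ℝ) + 1) : ℝ) : ℂ) * I)‖} with hS
  set T : ℕ → Set ℝ := fun N => ⋂ n ≥ N, S n with hT
  set E := {x : ℝ | ∃ ℓ : ℂ, Tendsto (fun ε => truncH f ε x) (𝓝[>] 0) (𝓝 ℓ) ∧ lam < ‖ℓ‖} with hE
  have hae : ∀ᵐ x, x ∈ E → x ∈ ⋃ N, T N := by
    filter_upwards [ae_lebPt hf] with x hx hxE
    obtain ⟨ℓ, hℓ, hlℓ⟩ := hxE
    have h1 := truncH_sub_qf_tendsto hf hx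
    have h2 : Tendsto (fun ε : ℝ => qf f (x + ε * I)) (𝓝[>] 0) (𝓝 ℓ) := by
      have := hℓ.sub h1
      simpa using this
    have h3 : Tendsto (fun n : ℕ => (1 / ((n : ℝ) + 1) : ℝ)) atTop (𝓝[>] 0) := by
      rw [tendsto_nhdsWithin_iff]
      refine ⟨tendsto_one_div_add_atTop_nhds_zero_nat, Eventually.of_forall fun n => ?_⟩
      show (0 : ℝ) < 1 / ((n : ℝ) + 1)
      positivity
    have h4 := (h2.comp h3).norm
    have h5 := h4.eventually (eventually_gt_nhds hlℓ)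
    rw [eventually_atTop] at h5
    obtain ⟨N, hN⟩ := h5
    rw [mem_iUnion]
    refine ⟨N, ?_⟩
    simp only [hT, mem_iInter]
    intro n hn
    exact (hN n hn).le
  have hTm : Monotone T := by
    intro a b hab x hx
    simp only [hT, mem_iInter] at hx ⊢
    intro n hn
    exact hx n (hab.trans hn)
  have h6 : volume E ≤ volume (⋃ N, T N) := measure_mono_ae hae
  have h7 : volume (⋃ N, T N) = ⨆ N, volume (T N) := hTm.measure_iUnion
  calc ENNReal.ofReal lam * volume E ≤ ENNReal.ofReal lam * ⨆ N, volume (T N) := by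
        rw [← h7]; gcongr
    _ = ⨆ N, ENNReal.ofReal lam * volume (T N) := ENNReal.mul_iSup _ _
    _ ≤ _ := by
        apply iSup_le
        intro N
        refine le_trans ?_ (weak_height_lam hf (σ := 1 / ((N : ℝ) + 1)) (by positivity) hlam)
        gcongr
        intro x hx
        simp only [hT, mem_iInter] at hx
        exact hx N le_rfl

end Pool.Agent.Helper60
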