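import Pool.Agent.Helper60.Choice

open Finset
open scoped ComplexConjugate

namespace Pool.Agent.Helper60

/-- the mean of the random coefficient functions -/
noncomputable def hm (u : ℕ → ℂ) (j : ℕ) : ℂ := ∏ i ∈ range j, (1 + u i) / 2

lemma hm_succ (u : ℕ → ℂ) (j : ℕ) : hm u (j + 1) = hm u j * ((1 + u j) / 2) := by
  unfold hm; rw [Finset.prod_range_succ]

lemma unit_inv {u : ℂ} (hu : ‖u‖ = 1) : u⁻¹ = conj u := by
  rw [Complex.inv_def, Complex.normSq_eq_norm_sq, hu]; simp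

lemma unit_sub_inv {u : ℂ} (hu : ‖u‖ = 1) : u - u⁻¹ = 2 * (u - 1) + ((‖1 - u‖ ^ 2 : ℝ) : ℂ) := by
  have h1 : ‖1 - u‖ ^ 2 = 2 - 2 * u.re := by
    rw [← Complex.normSq_eq_norm_sq, Complex.normSq_sub, Complex.normSq_one,
      Complex.normSq_eq_norm_sq, hu]
    simp
    ring
  rw [h1, unit_inv hu]
  apply Complex.ext
  · simp; ring
  · simp; ring

lemma norm_half_sq {u : ℂ} (hu : ‖u‖ = 1) : ‖1 - u‖ ^ 2 = 4 * (1 - ‖(1 + u) / 2‖ ^ 2) := by
  have h1 : ‖1 - u‖ ^ 2 = 2 - 2 * u.re := by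
    rw [← Complex.normSq_eq_norm_sq, Complex.normSq_sub, Complex.normSq_one,
      Complex.normSq_eq_norm_sq, hu]
    simp
    ring
  have h2 : ‖(1 + u) / 2‖ ^ 2 = (2 + 2 * u.re) / 4 := by
    rw [norm_div, div_pow, ← Complex.normSq_eq_norm_sq, Complex.normSq_add, Complex.normSq_one,
      Complex.normSq_eq_norm_sq, hu]
    simp
    ring
  rw [h1, h2]; ring

lemma norm_half_le {u : ℂ} (hu : ‖u‖ = 1) : ‖(1 + u) / 2‖ ≤ 1 := by
  rw [norm_div]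
  have : ‖1 + u‖ ≤ 2 := by
    refine (norm_add_le _ _).trans ?_
    rw [hu]; norm_num
  rw [Complex.norm_ofNat]
  linarith

lemma norm_hm_le {u : ℕ → ℂ} (hu : ∀ i, ‖u i‖ = 1) (j : ℕ) : ‖hm u j‖ ≤ 1 := by
  induction j with
  | zero => simp [hm]
  | succ j ih =>
    rw [hm_succ, norm_mul]
    exact mul_le_one₀ ih (norm_nonneg _) (norm_half_le (hu j))

lemma hm_step {u : ℕ → ℂ} (hu : ∀ i, ‖u i‖ = 1) (j : ℕ) :
    ‖hm u j‖ * ‖1 - u j‖ ^ 2 ≤ 8 * (‖hm u j‖ - ‖hm u (j + 1)‖) := by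
  rw [hm_succ, norm_mul, norm_half_sq (hu j)]
  have h1 := norm_half_le (hu j)
  have h2 := norm_nonneg ((1 + u j) / 2)
  have h3 := norm_nonneg (hm u j)
  nlinarith [mul_nonneg h3 (sub_nonneg.2 h1), mul_nonneg (mul_nonneg h3 (sub_nonneg.2 h1)) (sub_nonneg.2 h1)]

/-- the mean part is bounded -/
lemma mean_bound {u : ℕ → ℂ} (hu : ∀ i, ‖u i‖ = 1) (d : ℕ) :
    ‖∑ j ∈ range d, hm u j * (u j - (u j)⁻¹)‖ ≤ 16 := by
  have h1 : ∀ j, hm u j * (u j - (u j)⁻¹) =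
      4 * (hm u (j + 1) - hm u j) + hm u j * ((‖1 - u j‖ ^ 2 : ℝ) : ℂ) := by
    intro j
    rw [unit_sub_inv (hu j), hm_succ]
    ring
  simp_rw [h1]
  rw [Finset.sum_add_distrib, ← Finset.mul_sum, Finset.sum_range_sub]
  have h2 : ‖∑ j ∈ range d, hm u j * ((‖1 - u j‖ ^ 2 : ℝ) : ℂ)‖ ≤ 8 := by
    calc ‖∑ j ∈ range d, hm u j * ((‖1 - u j‖ ^ 2 : ℝ) : ℂ)‖
        ≤ ∑ j ∈ range d, ‖hm u j * ((‖1 - u j‖ ^ 2 : ℝ) : ℂ)‖ := norm_sum_le _ _
      _ ≤ ∑ j ∈ range d, 8 * (‖hm u j‖ - ‖hm u (j + 1)‖) := by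
          apply Finset.sum_le_sum
          intro j _
          rw [norm_mul, Complex.norm_real, Real.norm_of_nonneg (by positivity)]
          exact hm_step hu j
      _ = 8 * (‖hm u 0‖ - ‖hm u d‖) := by
          rw [← Finset.mul_sum, Finset.sum_range_sub']
      _ ≤ 8 := by
          have h3 : ‖hm u 0‖ = 1 := by simp [hm]
          rw [h3]
          linarith [norm_nonneg (hm u d)]
  have h3 : ‖4 * (hm u d - hm u 0)‖ ≤ 8 := by
    rw [norm_mul, Complex.norm_ofNat]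
    have := norm_sub_le (hm u d) (hm u 0)
    linarith [norm_hm_le hu d, norm_hm_le hu 0]
  calc ‖4 * (hm u d - hm u 0) + ∑ j ∈ range d, hm u j * ((‖1 - u j‖ ^ 2 : ℝ) : ℂ)‖
      ≤ ‖4 * (hm u d - hm u 0)‖ + ‖∑ j ∈ range d, hm u j * ((‖1 - u j‖ ^ 2 : ℝ) : ℂ)‖ :=
        norm_add_le _ _
    _ ≤ 16 := by linarith

/-- the random character -/
noncomputable def chr {d : ℕ} (u : ℕ → ℂ) (j : ℕ) (k : Fin d → Bool) : ℂ :=
  ∏ i : Fin d, if (i : ℕ) < j ∧ k i = true then u i else 1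

lemma chr_norm {d : ℕ} {u : ℕ → ℂ} (hu : ∀ i, ‖u i‖ = 1) (j : ℕ) (k : Fin d → Bool) :
    ‖chr u j k‖ = 1 := by
  unfold chr
  rw [norm_prod]
  apply Finset.prod_eq_one
  intro i _
  split_ifs
  · exact hu _
  · simp

lemma chr_mean {d : ℕ} (u : ℕ → ℂ) {j : ℕ} (hj : j ≤ d) :
    ∑ k : Fin d → Bool, (chr u j k - hm u j) = 0 := by
  have h1 : ∑ k : Fin d → Bool, chr u j k = 2 ^ d * hm u j := by
    have h2 := Finset.prod_univ_sum (ι := Fin d) (fun _ => (Finset.univ : Finset Bool))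
      (fun i b => if (i : ℕ) < j ∧ b = true then u i else (1 : ℂ))
    rw [Fintype.piFinset_univ] at h2
    unfold chr
    rw [← h2]
    have h3 : ∀ i : Fin d, (∑ b : Bool, if (i : ℕ) < j ∧ b = true then u i else (1 : ℂ)) =
        2 * (if (i : ℕ) < j then (1 + u i) / 2 else 1) := by
      intro i
      rw [Fintype.sum_bool]
      by_cases h : (i : ℕ) < j
      · simp [h]; ring
      · simp [h]; norm_num
    simp_rw [h3]
    rw [Finset.prod_mul_distrib, Finset.prod_const, Finset.card_univ, Fintype.card_fin]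
    congr 1
    rw [Fin.prod_univ_eq_prod_range (fun i => if i < j then (1 + u i) / 2 else (1 : ℂ)) d]
    unfold hm
    rw [Finset.prod_ite, Finset.prod_const_one, mul_one]
    apply Finset.prod_congr _ fun _ _ => rfl
    ext i
    simp only [Finset.mem_filter, Finset.mem_range]
    omega
  rw [Finset.sum_sub_distrib, h1, Finset.sum_const, Finset.card_univ]
  simp

/-- the directions -/
noncomputable def dirs : Finset ℂ := {1, -1, Complex.I, -Complex.I}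

lemma norm_le_of_dirs {w : ℂ} {B : ℝ} (h : ∀ c ∈ dirs, (c * w).re ≤ B) : ‖w‖ ≤ 2 * B := by
  have h1 := h 1 (by simp [dirs])
  have h2 := h (-1) (by simp [dirs])
  have h3 := h Complex.I (by simp [dirs])
  have h4 := h (-Complex.I) (by simp [dirs])
  simp at h1 h2 h3 h4
  have h5 : |w.re| ≤ B := abs_le.2 ⟨by linarith, h1⟩
  have h6 : |w.im| ≤ B := abs_le.2 ⟨by linarith, by linarith⟩
  have := Complex.norm_le_abs_re_add_abs_im w
  linarith

/-- the sum for a sample -/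
noncomputable def Gs {d n : ℕ} (u : ℕ → ℂ) (ω : Fin d × Fin n → Fin d → Bool) : ℂ :=
  ∑ p : Fin d × Fin n, (n : ℂ)⁻¹ * (chr u (p.1 : ℕ) (ω p) * (u p.1 - (u p.1)⁻¹))

lemma Gs_sub (d : ℕ) {n : ℕ} (hn : 0 < n) (u : ℕ → ℂ) (ω : Fin d × Fin n → Fin d → Bool) :
    Gs u ω - ∑ j ∈ range d, hm u j * (u j - (u j)⁻¹) =
      ∑ p : Fin d × Fin n, (n : ℂ)⁻¹ * ((chr u (p.1 : ℕ) (ω p) - hm u p.1) *
        (u p.1 - (u p.1)⁻¹)) := by
  have hn' : (n : ℂ) ≠ 0 := by exact_mod_cast hn.ne'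
  have h1 : ∑ j ∈ range d, hm u j * (u j - (u j)⁻¹) =
      ∑ p : Fin d × Fin n, (n : ℂ)⁻¹ * (hm u p.1 * (u p.1 - (u p.1)⁻¹)) := by
    rw [Fintype.sum_prod_type, ← Fin.sum_univ_eq_sum_range (fun j => hm u j * (u j - (u j)⁻¹)) d]
    apply Finset.sum_congr rfl
    intro j _
    show _ = ∑ _y : Fin n, (n : ℂ)⁻¹ * (hm u j * (u j - (u j)⁻¹))
    rw [Finset.sum_const, Finset.card_univ, Fintype.card_fin, nsmul_eq_mul]
    field_simp
  unfold Gs
  rw [h1, ← Finset.sum_sub_distrib]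
  apply Finset.sum_congr rfl
  intro p _
  ring

/-- good sample for a finite set of points -/
theorem good_sample (d : ℕ) (hd : 0 < d) (Z : Finset ℂ) (hZ : Z.Nonempty)
    (hZ1 : ∀ z ∈ Z, ‖z‖ = 1) :
    ∃ ω : Fin d × Fin (d ^ 2) → Fin d → Bool, ∀ z ∈ Z,
      ‖Gs (fun i => z ^ 3 ^ i) ω‖ ≤ 16 + 8 * (Real.log (4 * Z.card) + d) / d := by
  classical
  have hdr : (0 : ℝ) < d := by exact_mod_cast hd
  set X : ℂ × ℂ → Fin d × Fin (d ^ 2) → (Fin d → Bool) → ℝ := fun s p k =>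
    (4 * d : ℝ)⁻¹ * (s.2 * ((chr (fun i => s.1 ^ 3 ^ i) (p.1 : ℕ) k -
      hm (fun i => s.1 ^ 3 ^ i) p.1) * (s.1 ^ 3 ^ (p.1 : ℕ) - (s.1 ^ 3 ^ (p.1 : ℕ))⁻¹))).re with hX
  have hunit : ∀ z : ℂ, ‖z‖ = 1 → ∀ i : ℕ, ‖z ^ 3 ^ i‖ = 1 := by
    intro z hz i; rw [norm_pow, hz, one_pow]
  have hdirs : ∀ c ∈ dirs, ‖c‖ = 1 := by
    intro c hc
    simp only [dirs, Finset.mem_insert, Finset.mem_singleton] at hc
    rcases hc with rfl | rfl | rfl | rfl <;> simp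
  have hTne : (Z ×ˢ dirs).Nonempty := hZ.product ⟨1, by simp [dirs]⟩
  have hmean : ∀ s ∈ Z ×ˢ dirs, ∀ i, ∑ k, X s i k = 0 := by
    intro s hs p
    have hj : (p.1 : ℕ) ≤ d := p.1.2.le
    have h1 := chr_mean (d := d) (fun i => s.1 ^ 3 ^ i) hj
    simp only [hX]
    rw [← Finset.mul_sum, ← Complex.re_sum, ← Finset.mul_sum, ← Finset.sum_mul, h1]
    simp
  have hbd : ∀ s ∈ Z ×ˢ dirs, ∀ i k, |X s i k| ≤ 1 / (d:ℝ) := by
    intro s hs p k
    rw [Finset.mem_product] at hs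
    have hs1 := hZ1 _ hs.1
    have hs2 := hdirs _ hs.2
    have hun := hunit s.1 hs1
    simp only [hX]
    rw [abs_mul, abs_of_pos (by positivity : (0:ℝ) < (4 * (d:ℝ))⁻¹)]
    have h1 : |(s.2 * ((chr (fun i => s.1 ^ 3 ^ i) (p.1 : ℕ) k -
      hm (fun i => s.1 ^ 3 ^ i) p.1) * (s.1 ^ 3 ^ (p.1 : ℕ) - (s.1 ^ 3 ^ (p.1 : ℕ))⁻¹))).re| ≤
        4 := by
      refine (Complex.abs_re_le_norm _).trans ?_
      rw [norm_mul, norm_mul, hs2, one_mul]
      have h2 : ‖chr (fun i => s.1 ^ 3 ^ i) (p.1 : ℕ) k - hm (fun i => s.1 ^ 3 ^ i) p.1‖ ≤ 2 := by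
        refine (norm_sub_le _ _).trans ?_
        rw [chr_norm hun]
        have := norm_hm_le hun (p.1 : ℕ)
        linarith
      have h3 : ‖s.1 ^ 3 ^ (p.1 : ℕ) - (s.1 ^ 3 ^ (p.1 : ℕ))⁻¹‖ ≤ 2 := by
        refine (norm_sub_le _ _).trans ?_
        rw [norm_inv, hun]
        norm_num
      calc _ ≤ (2 : ℝ) * 2 := by gcongr
        _ = 4 := by norm_num
    calc (4 * (d:ℝ))⁻¹ * _ ≤ (4 * (d:ℝ))⁻¹ * 4 := by gcongr
      _ = 1 / d := by field_simp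
  obtain ⟨ω, hω⟩ := exists_choice (Z ×ˢ dirs) hTne X (b := 1 / (d:ℝ))
    (by rw [div_le_one hdr]; exact_mod_cast hd) hmean hbd
  refine ⟨ω, fun z hz => ?_⟩
  set u : ℕ → ℂ := fun i => z ^ 3 ^ i with hu
  have hun : ∀ i, ‖u i‖ = 1 := hunit z (hZ1 z hz)
  have hm := mean_bound hun d
  have hd2 : 0 < d ^ 2 := by positivity
  have hcard : ((Z ×ˢ dirs).card : ℝ) ≤ 4 * Z.card := by
    rw [Finset.card_product]
    have : dirs.card ≤ 4 := Finset.card_le_four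
    push_cast
    have h' : (dirs.card : ℝ) ≤ 4 := by exact_mod_cast this
    nlinarith [(Nat.cast_nonneg Z.card : (0:ℝ) ≤ Z.card)]
  have hcard0 : (0 : ℝ) < (Z ×ˢ dirs).card := by exact_mod_cast hTne.card_pos
  have hlog : Real.log ((Z ×ˢ dirs).card) ≤ Real.log (4 * Z.card) :=
    Real.log_le_log hcard0 hcard
  have hdiff : ‖Gs u ω - ∑ j ∈ range d, Helper60.hm u j * (u j - (u j)⁻¹)‖ ≤
      2 * (4 * (Real.log (4 * Z.card) + d) / d) := by
    apply norm_le_of_dirs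
    intro c hc
    have h1 := hω (z, c) (Finset.mk_mem_product hz hc)
    rw [Gs_sub d hd2]
    have h2 : (c * ∑ p : Fin d × Fin (d ^ 2), ((d ^ 2 : ℕ) : ℂ)⁻¹ *
        ((chr u (p.1 : ℕ) (ω p) - Helper60.hm u p.1) * (u p.1 - (u p.1)⁻¹))).re =
        (4 / d) * ∑ p, X (z, c) p (ω p) := by
      rw [Finset.mul_sum, Complex.re_sum, Finset.mul_sum]
      apply Finset.sum_congr rfl
      intro p _
      simp only [hX]
      have h3 : c * (((d ^ 2 : ℕ) : ℂ)⁻¹ * ((chr u (p.1 : ℕ) (ω p) - Helper60.hm u p.1) *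
          (u p.1 - (u p.1)⁻¹))) = (((d : ℝ) ^ 2)⁻¹ : ℝ) * (c *
          ((chr u (p.1 : ℕ) (ω p) - Helper60.hm u p.1) * (u p.1 - (u p.1)⁻¹))) := by
        push_cast; ring
      rw [h3, Complex.re_ofReal_mul]
      have h5 : ∀ r : ℝ, ((d:ℝ) ^ 2)⁻¹ * r = 4 / (d:ℝ) * ((4 * (d:ℝ))⁻¹ * r) := by
        intro r; field_simp
      exact h5 _
    rw [h2]
    have h4 : (Fintype.card (Fin d × Fin (d ^ 2)) : ℝ) * (1 / (d:ℝ)) ^ 2 = d := by
      rw [Fintype.card_prod, Fintype.card_fin, Fintype.card_fin]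
      push_cast
      field_simp
    rw [h4] at h1
    calc (4 / d) * ∑ p, X (z, c) p (ω p) ≤ (4 / d) * (Real.log (4 * Z.card) + d) := by
          gcongr
          linarith
      _ = 4 * (Real.log (4 * Z.card) + d) / d := by ring
  calc ‖Gs u ω‖ = ‖(Gs u ω - ∑ j ∈ range d, Helper60.hm u j * (u j - (u j)⁻¹)) +
        ∑ j ∈ range d, Helper60.hm u j * (u j - (u j)⁻¹)‖ := by rw [sub_add_cancel]
    _ ≤ 2 * (4 * (Real.log (4 * Z.card) + d) / d) + 16 :=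
        (norm_add_le _ _).trans (add_le_add hdiff hm)
    _ = 16 + 8 * (Real.log (4 * Z.card) + d) / d := by ring

end Pool.Agent.Helper60
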