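import Pool.Agent.Helper60.Trig1

open Finset Polynomial

namespace Pool.Agent.Helper60

/-- the lower part of the frequency -/
def expo {d : ℕ} (j : ℕ) (k : Fin d → Bool) : ℕ :=
  ∑ i : Fin d, if (i : ℕ) < j ∧ k i = true then 3 ^ (i : ℕ) else 0

lemma expo_lt {d : ℕ} (j : ℕ) (k : Fin d → Bool) : expo j k < 3 ^ j := by
  have h1 : expo j k ≤ ∑ i : Fin d, if (i : ℕ) < j then 3 ^ (i : ℕ) else 0 := by
    unfold expo
    apply Finset.sum_le_sum
    intro i _
    split_ifs with h2 h3 h3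
    · exact le_rfl
    · exact absurd h2.1 h3
    · exact Nat.zero_le _
    · exact le_rfl
  refine h1.trans_lt ?_
  rw [Fin.sum_univ_eq_sum_range (fun i => if i < j then 3 ^ i else 0) d, ← Finset.sum_filter]
  exact Nat.geomSum_lt (by norm_num) (fun k hk => (Finset.mem_filter.1 hk).2)

lemma pow_expo {d : ℕ} (z : ℂ) (j : ℕ) (k : Fin d → Bool) :
    z ^ expo j k = chr (fun i => z ^ 3 ^ i) j k := by
  unfold expo chr
  rw [← Finset.prod_pow_eq_pow_sum]
  apply Finset.prod_congr rfl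
  intro i _
  split_ifs
  · rfl
  · rw [pow_zero]

/-- high frequency -/
def e1 {d n : ℕ} (ω : Fin d × Fin n → Fin d → Bool) (p : Fin d × Fin n) : ℕ :=
  3 ^ d + 3 ^ (p.1 : ℕ) + expo (p.1 : ℕ) (ω p)

/-- low frequency -/
def e2 {d n : ℕ} (ω : Fin d × Fin n → Fin d → Bool) (p : Fin d × Fin n) : ℕ :=
  3 ^ d - 3 ^ (p.1 : ℕ) + expo (p.1 : ℕ) (ω p)

lemma three_pow_le {d : ℕ} (j : Fin d) : 3 ^ (j : ℕ) ≤ 3 ^ d :=
  Nat.pow_le_pow_right (by norm_num) j.2.le

lemma e2_lt {d n : ℕ} (ω : Fin d × Fin n → Fin d → Bool) (p : Fin d × Fin n) :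
    e2 ω p < 3 ^ d := by
  have h1 := expo_lt (p.1 : ℕ) (ω p)
  have h2 := three_pow_le p.1
  unfold e2
  omega

lemma le_e1 {d n : ℕ} (ω : Fin d × Fin n → Fin d → Bool) (p : Fin d × Fin n) :
    3 ^ d ≤ e1 ω p := by
  unfold e1
  rw [add_assoc]
  exact Nat.le_add_right _ _

lemma e_sum_le {d n : ℕ} (ω : Fin d × Fin n → Fin d → Bool) (p : Fin d × Fin n) :
    e1 ω p + e2 ω p ≤ 4 * 3 ^ d := by
  have h1 := expo_lt (p.1 : ℕ) (ω p)
  have h2 := three_pow_le p.1
  unfold e1 e2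
  omega

/-- the polynomial -/
noncomputable def Pw {d n : ℕ} (ω : Fin d × Fin n → Fin d → Bool) : ℂ[X] :=
  ∑ p : Fin d × Fin n, C ((n : ℂ)⁻¹) * (X ^ e1 ω p - X ^ e2 ω p)

lemma Pw_eval {d n : ℕ} (ω : Fin d × Fin n → Fin d → Bool) (z : ℂ) :
    (Pw ω).eval z = ∑ p : Fin d × Fin n, (n : ℂ)⁻¹ * (z ^ e1 ω p - z ^ e2 ω p) := by
  unfold Pw
  rw [eval_finsetSum]
  simp

lemma Pw_eval_eq {d n : ℕ} (ω : Fin d × Fin n → Fin d → Bool) {z : ℂ} (hz : ‖z‖ = 1) :
    (Pw ω).eval z = z ^ 3 ^ d * Gs (fun i => z ^ 3 ^ i) ω := by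
  have hz0 : z ≠ 0 := by
    intro h; rw [h, norm_zero] at hz; exact zero_ne_one hz
  rw [Pw_eval]
  unfold Gs
  rw [Finset.mul_sum]
  apply Finset.sum_congr rfl
  intro p _
  unfold e1 e2
  rw [pow_add, pow_add, pow_add, pow_sub₀ z hz0 (three_pow_le p.1), pow_expo]
  ring

lemma norm_pow_sub_pow {z w : ℂ} (hz : ‖z‖ = 1) (hw : ‖w‖ = 1) (k : ℕ) :
    ‖z ^ k - w ^ k‖ ≤ k * ‖z - w‖ := by
  induction k with
  | zero => simp
  | succ k ih =>
    have h1 : z ^ (k + 1) - w ^ (k + 1) = z * (z ^ k - w ^ k) + (z - w) * w ^ k := by ring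
    rw [h1]
    refine (norm_add_le _ _).trans ?_
    rw [norm_mul, norm_mul, hz, norm_pow, hw, one_pow]
    push_cast
    linarith

lemma Pw_lip {d n : ℕ} (hn : 0 < n) (ω : Fin d × Fin n → Fin d → Bool) {z w : ℂ}
    (hz : ‖z‖ = 1) (hw : ‖w‖ = 1) :
    ‖(Pw ω).eval z - (Pw ω).eval w‖ ≤ d * (4 * 3 ^ d) * ‖z - w‖ := by
  have hnr : (0 : ℝ) < n := by exact_mod_cast hn
  rw [Pw_eval, Pw_eval, ← Finset.sum_sub_distrib]
  calc ‖∑ p : Fin d × Fin n, ((n : ℂ)⁻¹ * (z ^ e1 ω p - z ^ e2 ω p) -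
        (n : ℂ)⁻¹ * (w ^ e1 ω p - w ^ e2 ω p))‖
      ≤ ∑ _p : Fin d × Fin n, (n : ℝ)⁻¹ * ((4 * 3 ^ d) * ‖z - w‖) := by
        refine (norm_sum_le _ _).trans (Finset.sum_le_sum fun p _ => ?_)
        have h1 : (n : ℂ)⁻¹ * (z ^ e1 ω p - z ^ e2 ω p) - (n : ℂ)⁻¹ * (w ^ e1 ω p - w ^ e2 ω p) =
            (n : ℂ)⁻¹ * ((z ^ e1 ω p - w ^ e1 ω p) - (z ^ e2 ω p - w ^ e2 ω p)) := by ring
        rw [h1, norm_mul, norm_inv, Complex.norm_natCast]
        gcongr
        refine (norm_sub_le _ _).trans ?_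
        have h2 := norm_pow_sub_pow hz hw (e1 ω p)
        have h3 := norm_pow_sub_pow hz hw (e2 ω p)
        have h4 : ((e1 ω p : ℕ) : ℝ) + (e2 ω p : ℕ) ≤ 4 * 3 ^ d := by
          exact_mod_cast e_sum_le ω p
        have h5 := norm_nonneg (z - w)
        nlinarith
    _ = d * (4 * 3 ^ d) * ‖z - w‖ := by
        rw [Finset.sum_const, Finset.card_univ, Fintype.card_prod, Fintype.card_fin,
          Fintype.card_fin, nsmul_eq_mul]
        push_cast
        field_simp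

/-- the net on the circle -/
noncomputable def net (L : ℕ) : Finset ℂ :=
  (range (L + 1)).image (fun m : ℕ => Complex.exp (Complex.I * ((2 * Real.pi * m / L - Real.pi : ℝ) : ℂ)))

lemma net_norm (L : ℕ) {z : ℂ} (hz : z ∈ net L) : ‖z‖ = 1 := by
  unfold net at hz
  rw [Finset.mem_image] at hz
  obtain ⟨m, _, rfl⟩ := hz
  exact Complex.norm_exp_I_mul_ofReal _

lemma net_card (L : ℕ) : (net L).card ≤ L + 1 := by
  unfold net
  exact Finset.card_image_le.trans (by rw [Finset.card_range])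

lemma net_approx {L : ℕ} (hL : 0 < L) {z : ℂ} (hz : ‖z‖ = 1) :
    ∃ w ∈ net L, ‖z - w‖ ≤ 2 * Real.pi / L := by
  have hLr : (0 : ℝ) < L := by exact_mod_cast hL
  have hpi := Real.pi_pos
  set θ := Complex.arg z with hθ
  have h1 : -Real.pi < θ := Complex.neg_pi_lt_arg z
  have h2 : θ ≤ Real.pi := Complex.arg_le_pi z
  set m : ℕ := ⌊(θ + Real.pi) * L / (2 * Real.pi)⌋₊ with hm
  have h3 : (0 : ℝ) ≤ (θ + Real.pi) * L / (2 * Real.pi) := by
    have : 0 < θ + Real.pi := by linarith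
    positivity
  have h4 : (m : ℝ) ≤ (θ + Real.pi) * L / (2 * Real.pi) := Nat.floor_le h3
  have h5 : (θ + Real.pi) * L / (2 * Real.pi) < m + 1 := Nat.lt_floor_add_one _
  have h6 : m ≤ L := by
    have : (θ + Real.pi) * L / (2 * Real.pi) ≤ L := by
      rw [div_le_iff₀ (by positivity)]
      nlinarith
    exact_mod_cast h4.trans this
  refine ⟨Complex.exp (Complex.I * ((2 * Real.pi * m / L - Real.pi : ℝ) : ℂ)), ?_, ?_⟩
  · unfold net
    rw [Finset.mem_image]
    exact ⟨m, Finset.mem_range.2 (by omega), rfl⟩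
  · set φ : ℝ := 2 * Real.pi * m / L - Real.pi with hφ
    have hz2 : z = Complex.exp (Complex.I * (θ : ℂ)) := by
      have := Complex.norm_mul_exp_arg_mul_I z
      rw [hz] at this
      rw [mul_comm]
      simpa using this.symm
    have h7 : z - Complex.exp (Complex.I * (φ : ℂ)) = Complex.exp (Complex.I * (φ : ℂ)) *
        (Complex.exp (Complex.I * ((θ - φ : ℝ) : ℂ)) - 1) := by
      rw [mul_sub, ← Complex.exp_add, mul_one, hz2]
      congr 2
      push_cast; ring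
    rw [h7, norm_mul, Complex.norm_exp_I_mul_ofReal, one_mul]
    refine (Real.norm_exp_I_mul_ofReal_sub_one_le).trans ?_
    rw [Real.norm_eq_abs, abs_le]
    have h8 : θ - φ = ((θ + Real.pi) * L / (2 * Real.pi) - m) * (2 * Real.pi / L) := by
      rw [hφ]; field_simp; ring
    have h9 : 0 < 2 * Real.pi / L := by positivity
    rw [h8]
    constructor
    · nlinarith
    · nlinarith

/-- a bounded sample -/
theorem exists_bounded (d : ℕ) (hd : 0 < d) :
    ∃ ω : Fin d × Fin (d ^ 2) → Fin d → Bool, ∀ z : ℂ, ‖z‖ = 1 → ‖(Pw ω).eval z‖ ≤ 81 := by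
  have hdr : (1 : ℝ) ≤ d := by exact_mod_cast hd
  set L : ℕ := 96 ^ d with hL
  have hL0 : 0 < L := by positivity
  have hne : (net L).Nonempty := by
    unfold net
    exact (Finset.nonempty_range_iff.2 (by omega)).image _
  obtain ⟨ω, hω⟩ := good_sample d hd (net L) hne (fun z hz => net_norm L hz)
  refine ⟨ω, fun z hz => ?_⟩
  obtain ⟨w, hw, hzw⟩ := net_approx hL0 hz
  have hw1 := net_norm L hw
  have h1 : ‖(Pw ω).eval w‖ ≤ 80 := by
    rw [Pw_eval_eq ω hw1, norm_mul, norm_pow, hw1, one_pow, one_mul]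
    refine (hω w hw).trans ?_
    have h2 : Real.log (4 * (net L).card) ≤ 7 * d := by
      have hc0 : (0:ℝ) < (net L).card := by exact_mod_cast hne.card_pos
      have h3 : 4 * ((net L).card : ℝ) ≤ 768 ^ d := by
        have h4 : ((net L).card : ℝ) ≤ L + 1 := by exact_mod_cast net_card L
        have h5 : (1:ℝ) ≤ 96 ^ d := one_le_pow₀ (by norm_num)
        have h6 : (8:ℝ) ≤ 8 ^ d := by
          calc (8:ℝ) = 8 ^ 1 := by norm_num
            _ ≤ 8 ^ d := pow_le_pow_right₀ (by norm_num) hd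
        have h7 : (768:ℝ) ^ d = 8 ^ d * 96 ^ d := by
          rw [← mul_pow]; norm_num
        have h8 : (L:ℝ) = 96 ^ d := by rw [hL]; push_cast; rfl
        rw [h7]
        rw [h8] at h4
        nlinarith
      calc Real.log (4 * (net L).card) ≤ Real.log (768 ^ d) :=
            Real.log_le_log (by positivity) h3
        _ = d * Real.log 768 := Real.log_pow _ _
        _ ≤ d * 7 := by
            gcongr
            rw [Real.log_le_iff_le_exp (by norm_num)]
            have he : (2.7 : ℝ) ≤ Real.exp 1 := by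
              have := Real.exp_one_gt_d9; linarith
            calc (768:ℝ) ≤ 2.7 ^ 7 := by norm_num
              _ ≤ Real.exp 1 ^ 7 := by gcongr
              _ = Real.exp 7 := by rw [← Real.exp_nat_mul]; norm_num
        _ = 7 * d := by ring
    have h3 : 8 * (Real.log (4 * (net L).card) + d) / d ≤ 64 := by
      rw [div_le_iff₀ (by linarith)]
      linarith
    linarith
  have h2 : ‖(Pw ω).eval z - (Pw ω).eval w‖ ≤ 1 := by
    refine (Pw_lip (by positivity) ω hz hw1).trans ?_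
    have h3 : 2 * (d:ℝ) ≤ 2 ^ d := by
      have h3' : ∀ m : ℕ, 2 * (m + 1) ≤ 2 ^ (m + 1) := by
        intro m
        induction m with
        | zero => norm_num
        | succ m ih =>
          rw [pow_succ]
          have : 1 ≤ 2 ^ (m + 1) := Nat.one_le_two_pow
          omega
      obtain ⟨m, rfl⟩ : ∃ m, d = m + 1 := ⟨d - 1, by omega⟩
      exact_mod_cast h3' m
    have h8 : (L:ℝ) = 96 ^ d := by rw [hL]; push_cast; rfl
    have h9 : (96:ℝ) ^ d = 2 ^ d * 3 ^ d * 16 ^ d := by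
      rw [← mul_pow, ← mul_pow]; norm_num
    have h10 : (16:ℝ) ^ d ≥ 16 := by
      calc (16:ℝ) = 16 ^ 1 := by norm_num
        _ ≤ 16 ^ d := pow_le_pow_right₀ (by norm_num) hd
    have h11 := Real.pi_lt_four
    have hpi := Real.pi_pos
    have h12 : (0:ℝ) < 3 ^ d := by positivity
    have h13 : (0:ℝ) < 2 ^ d := by positivity
    calc (d:ℝ) * (4 * 3 ^ d) * ‖z - w‖ ≤ (d:ℝ) * (4 * 3 ^ d) * (2 * Real.pi / L) := by gcongr
      _ = (2 * d) * 3 ^ d * (4 * Real.pi) / (2 ^ d * 3 ^ d * 16 ^ d) := by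
          rw [h8, h9]; ring
      _ ≤ 2 ^ d * 3 ^ d * (4 * 4) / (2 ^ d * 3 ^ d * 16) := by gcongr
      _ = 1 := by field_simp; norm_num
  calc ‖(Pw ω).eval z‖ = ‖((Pw ω).eval z - (Pw ω).eval w) + (Pw ω).eval w‖ := by
        rw [sub_add_cancel]
    _ ≤ 1 + 80 := (norm_add_le _ _).trans (add_le_add h2 h1)
    _ = 81 := by norm_num

end Pool.Agent.Helper60
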