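import Pool.Agent.Helper60.Trig2

open Finset Polynomial

namespace Pool.Agent.Helper60

lemma Pw_coeff {d n : ℕ} (ω : Fin d × Fin n → Fin d → Bool) (k : ℕ) :
    (Pw ω).coeff k = ∑ p : Fin d × Fin n, (n : ℂ)⁻¹ *
      ((if k = e1 ω p then 1 else 0) - (if k = e2 ω p then 1 else 0)) := by
  unfold Pw
  rw [finsetSum_coeff]
  simp only [coeff_C_mul, coeff_sub, coeff_X_pow]

lemma Pw_support {d n : ℕ} (ω : Fin d × Fin n → Fin d → Bool) :
    (Pw ω).support.card ≤ 2 * (d * n) := by
  classical
  have h1 : (Pw ω).support ⊆ (univ.image (e1 ω)) ∪ (univ.image (e2 ω)) := by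
    intro k hk
    by_contra hcon
    rw [mem_support_iff, Pw_coeff] at hk
    apply hk
    apply Finset.sum_eq_zero
    intro p _
    rw [Finset.mem_union, not_or, Finset.mem_image, Finset.mem_image] at hcon
    have h2 : k ≠ e1 ω p := fun h => hcon.1 ⟨p, Finset.mem_univ _, h.symm⟩
    have h3 : k ≠ e2 ω p := fun h => hcon.2 ⟨p, Finset.mem_univ _, h.symm⟩
    rw [if_neg h2, if_neg h3]
    simp
  calc (Pw ω).support.card ≤ ((univ.image (e1 ω)) ∪ (univ.image (e2 ω))).card :=
        Finset.card_le_card h1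
    _ ≤ (univ.image (e1 ω)).card + (univ.image (e2 ω)).card := Finset.card_union_le _ _
    _ ≤ (d * n) + (d * n) := by
        apply add_le_add
        · refine Finset.card_image_le.trans (le_of_eq ?_)
          rw [Finset.card_univ, Fintype.card_prod, Fintype.card_fin, Fintype.card_fin]
        · refine Finset.card_image_le.trans (le_of_eq ?_)
          rw [Finset.card_univ, Fintype.card_prod, Fintype.card_fin, Fintype.card_fin]
    _ = 2 * (d * n) := by ring

lemma Pw_low {d n : ℕ} (hn : 0 < n) (ω : Fin d × Fin n → Fin d → Bool) :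
    ∑ k ∈ range (3 ^ d), (Pw ω).coeff k = -(d : ℂ) := by
  have hn' : (n : ℂ) ≠ 0 := by exact_mod_cast hn.ne'
  simp_rw [Pw_coeff]
  rw [Finset.sum_comm]
  have h1 : ∀ p : Fin d × Fin n, ∑ k ∈ range (3 ^ d), (n : ℂ)⁻¹ *
      ((if k = e1 ω p then (1:ℂ) else 0) - (if k = e2 ω p then 1 else 0)) = -(n : ℂ)⁻¹ := by
    intro p
    rw [← Finset.mul_sum, Finset.sum_sub_distrib, Finset.sum_ite_eq', Finset.sum_ite_eq']
    rw [if_neg, if_pos]
    · ring
    · exact Finset.mem_range.2 (e2_lt ω p)
    · rw [Finset.mem_range, not_lt]; exact le_e1 ω p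
  simp_rw [h1]
  rw [Finset.sum_const, Finset.card_univ, Fintype.card_prod, Fintype.card_fin, Fintype.card_fin,
    nsmul_eq_mul]
  push_cast
  field_simp

/-- polynomials with exactly `N` terms, bounded by one on the circle, with a large partial sum -/
theorem exists_poly {d N : ℕ} (hd : 0 < d) (hN : 2 * d ^ 3 ≤ N) :
    ∃ P : ℂ[X], P.support.card = N ∧ (∀ w : ℂ, ‖w‖ = 1 → ‖P.eval w‖ ≤ 1) ∧
      (d : ℝ) / 162 ≤ ‖∑ k ∈ range (3 ^ d), P.coeff k * (1 : ℂ) ^ k‖ := by
  classical
  obtain ⟨ω, hω⟩ := exists_bounded d hd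
  have hd2 : 0 < d ^ 2 := by positivity
  have hN0 : 0 < N := by
    have : 0 < d ^ 3 := by positivity
    omega
  have hNr : (0:ℝ) < N := by exact_mod_cast hN0
  have hNc : (N:ℂ) ≠ 0 := by exact_mod_cast hN0.ne'
  set s := (Pw ω).support.card with hs
  have hsN : s ≤ N := by
    refine (Pw_support ω).trans ?_
    calc 2 * (d * d ^ 2) = 2 * d ^ 3 := by ring
      _ ≤ N := hN
  set D := (Pw ω).natDegree + 1 + 3 ^ d with hD
  set T : ℂ[X] := ∑ i ∈ range (N - s), C ((2 * N : ℂ)⁻¹) * X ^ (D + i) with hT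
  have hTc : ∀ k, T.coeff k = if D ≤ k ∧ k < D + (N - s) then (2 * N : ℂ)⁻¹ else 0 := by
    intro k
    rw [hT, finsetSum_coeff]
    simp only [coeff_C_mul, coeff_X_pow]
    split_ifs with h
    · rw [Finset.sum_eq_single (k - D)]
      · rw [if_pos (by omega)]; ring
      · intro b _ hb
        rw [if_neg (by omega)]; ring
      · intro hb
        exfalso; apply hb; rw [Finset.mem_range]; omega
    · apply Finset.sum_eq_zero
      intro i hi
      rw [Finset.mem_range] at hi
      rw [if_neg (by omega)]; ring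
  have hPD : ∀ k, D ≤ k → (Pw ω).coeff k = 0 := by
    intro k hk
    apply coeff_eq_zero_of_natDegree_lt
    have h3d : 0 < 3 ^ d := by positivity
    omega
  set Q : ℂ[X] := C ((162 : ℂ)⁻¹) * Pw ω + T with hQ
  have hQc : ∀ k, Q.coeff k = (162 : ℂ)⁻¹ * (Pw ω).coeff k + T.coeff k := by
    intro k; rw [hQ, coeff_add, coeff_C_mul]
  refine ⟨Q, ?_, ?_, ?_⟩
  · have h1 : Q.support = (Pw ω).support ∪ Finset.Ico D (D + (N - s)) := by
      ext k
      rw [Finset.mem_union, mem_support_iff, mem_support_iff, Finset.mem_Ico, hQc, hTc]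
      rcases lt_or_ge k D with h | h
      · rw [if_neg (by omega), add_zero]
        constructor
        · intro h2; left; intro h3; apply h2; rw [h3, mul_zero]
        · rintro (h2 | h2)
          · exact mul_ne_zero (by norm_num) h2
          · omega
      · rw [hPD k h, mul_zero, zero_add]
        constructor
        · intro h2
          right
          by_contra h3
          exact h2 (if_neg h3)
        · rintro (h2 | h2)
          · exact absurd rfl h2
          · rw [if_pos h2]
            exact inv_ne_zero (mul_ne_zero (by norm_num) hNc)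
    rw [h1, Finset.card_union_of_disjoint, Nat.card_Ico]
    · omega
    · rw [Finset.disjoint_left]
      intro k hk hk2
      rw [mem_support_iff] at hk
      exact hk (hPD k (Finset.mem_Ico.1 hk2).1)
  · intro w hw
    rw [hQ, eval_add, eval_mul, eval_C]
    have h1 : ‖(162 : ℂ)⁻¹ * (Pw ω).eval w‖ ≤ 1 / 2 := by
      rw [norm_mul, norm_inv, Complex.norm_ofNat]
      have := hω w hw
      linarith
    have h2 : ‖T.eval w‖ ≤ 1 / 2 := by
      rw [hT, eval_finsetSum]
      calc ‖∑ i ∈ range (N - s), (C ((2 * N : ℂ)⁻¹) * X ^ (D + i)).eval w‖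
          ≤ ∑ i ∈ range (N - s), ‖(C ((2 * N : ℂ)⁻¹) * X ^ (D + i)).eval w‖ := norm_sum_le _ _
        _ = ∑ _i ∈ range (N - s), (2 * (N : ℝ))⁻¹ := by
            apply Finset.sum_congr rfl
            intro i _
            rw [eval_mul, eval_C, eval_pow, eval_X, norm_mul, norm_pow, hw, one_pow, mul_one,
              norm_inv, norm_mul, Complex.norm_ofNat, Complex.norm_natCast]
        _ = ((N - s : ℕ) : ℝ) * (2 * (N : ℝ))⁻¹ := by
            rw [Finset.sum_const, Finset.card_range, nsmul_eq_mul]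
        _ ≤ (N : ℝ) * (2 * (N : ℝ))⁻¹ := by
            gcongr
            exact Nat.sub_le _ _
        _ = 1 / 2 := by field_simp
    refine (norm_add_le _ _).trans ?_
    linarith
  · have h1 : ∑ k ∈ range (3 ^ d), Q.coeff k * (1 : ℂ) ^ k = (162 : ℂ)⁻¹ * (-(d : ℂ)) := by
      rw [← Pw_low hd2 ω, Finset.mul_sum]
      apply Finset.sum_congr rfl
      intro k hk
      rw [Finset.mem_range] at hk
      rw [hQc, hTc, if_neg (by omega), one_pow]
      ring
    rw [h1, norm_mul, norm_neg, norm_inv, Complex.norm_ofNat, Complex.norm_natCast]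
    apply le_of_eq
    ring

end Pool.Agent.Helper60
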