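import Pool.Agent.Helper60.KFun2
import Pool.Agent.Helper60.HalfPlane

open MeasureTheory Set Filter Topology Metric Complex
open scoped Real Nat ComplexConjugate
open Real (circleAverage circleAverage_congr_sphere circleAverage_fun_smul
  circleAverage_fun_sub circleAverage_const circleAverage_mono)

namespace Pool.Agent.Helper60

lemma kap_pos : 0 < kap := by
  unfold kap kf
  apply div_pos _ c0_pos
  rw [setIntegral_pos_iff_support_of_nonneg_ae]
  · have : (Function.support fun r => nk r 0) ∩ Ioi 0 = Ioi (0:ℝ) := by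
      ext r
      simp only [mem_inter_iff, Function.mem_support, mem_Ioi, and_iff_right_iff_imp]
      intro hr
      rw [nk_zero]
      have h1 : 1 < Real.cosh r := Real.one_lt_cosh.2 hr.ne'
      have h2 : 1 / Real.cosh r < 1 := by
        rw [div_lt_one (by linarith)]; exact h1
      have h3 : 0 < (1 - 1 / Real.cosh r) / r ^ 2 := div_pos (by linarith) (by positivity)
      exact h3.ne'
    rw [this, Real.volume_Ioi]
    exact ENNReal.zero_lt_top
  · exact Eventually.of_forall fun r => nk_zero_nonneg r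
  · exact nk_zero_integrableOn

/-- the four functions attached to `f`. -/
noncomputable def Bf (f : ℝ → ℂ) (z : ℂ) : ℂ := CT (fun t => conj (f t)) z
noncomputable def pf (f : ℝ → ℂ) (z : ℂ) : ℂ := (I / 2) * (CT f z - conj (Bf f z))
noncomputable def qf (f : ℝ → ℂ) (z : ℂ) : ℂ := (1 / 2) * (CT f z + conj (Bf f z))
noncomputable def wf (f : ℝ → ℂ) (z : ℂ) : ℂ := -(CT f z * Bf f z)

lemma norm_sq_eq (z : ℂ) : ‖z‖ ^ 2 = z.re ^ 2 + z.im ^ 2 := by
  rw [← Complex.normSq_eq_norm_sq, Complex.normSq_apply]; ring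

/-- algebra of the quadratic form -/
lemma pq_add (a b : ℂ) : ‖(I / 2) * (a - conj b)‖ ^ 2 + ‖(1 / 2 : ℂ) * (a + conj b)‖ ^ 2 =
    (‖a‖ ^ 2 + ‖b‖ ^ 2) / 2 := by
  simp only [norm_sq_eq]
  simp
  ring

lemma pq_sub (a b : ℂ) : ‖(I / 2) * (a - conj b)‖ ^ 2 - ‖(1 / 2 : ℂ) * (a + conj b)‖ ^ 2 =
    (-(a * b)).re := by
  simp only [norm_sq_eq]
  simp
  ring

lemma zeta_bounds {a b ζ : ℂ} (h : ζ ^ 2 = -(a * b)) :
    ζ.re ^ 2 ≤ ‖(I / 2) * (a - conj b)‖ ^ 2 ∧ ζ.im ^ 2 ≤ ‖(1 / 2 : ℂ) * (a + conj b)‖ ^ 2 ∧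
    ζ.re ^ 2 - ζ.im ^ 2 = ‖(I / 2) * (a - conj b)‖ ^ 2 - ‖(1 / 2 : ℂ) * (a + conj b)‖ ^ 2 := by
  have h1 : ζ.re ^ 2 - ζ.im ^ 2 = (-(a * b)).re := by
    rw [← h, pow_two ζ, Complex.mul_re]; ring
  have h2 : ζ.re ^ 2 + ζ.im ^ 2 = ‖a‖ * ‖b‖ := by
    rw [← norm_sq_eq, ← norm_pow, h, norm_neg, norm_mul]
  have h3 : ‖a‖ * ‖b‖ ≤ (‖a‖ ^ 2 + ‖b‖ ^ 2) / 2 := by nlinarith [sq_nonneg (‖a‖ - ‖b‖)]
  have h4 := pq_add a b
  have h5 := pq_sub a b
  refine ⟨by linarith, by linarith, by linarith⟩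

variable {f : ℝ → ℂ}

lemma conj_integrable (hf : Integrable f) : Integrable (fun t => conj (f t)) := by
  have := (Complex.conjCLE : ℂ ≃L[ℝ] ℂ).toContinuousLinearMap.integrable_comp hf
  exact this

lemma Bf_differentiableAt (hf : Integrable f) {z : ℂ} (hz : 0 < z.im) :
    DifferentiableAt ℂ (Bf f) z := CT_differentiableAt (conj_integrable hf) hz

lemma wf_differentiableAt (hf : Integrable f) {z : ℂ} (hz : 0 < z.im) :
    DifferentiableAt ℂ (wf f) z := by
  unfold wf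
  exact ((CT_differentiableAt hf hz).mul (Bf_differentiableAt hf hz)).neg

lemma CT_continuousAt (hf : Integrable f) {z : ℂ} (hz : 0 < z.im) :
    ContinuousAt (CT f) z := (CT_differentiableAt hf hz).continuousAt

lemma pf_continuousAt (hf : Integrable f) {z : ℂ} (hz : 0 < z.im) :
    ContinuousAt (pf f) z := by
  unfold pf
  apply ContinuousAt.mul continuousAt_const
  apply ContinuousAt.sub (CT_continuousAt hf hz)
  exact Complex.continuous_conj.continuousAt.comp (Bf_differentiableAt hf hz).continuousAt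

lemma qf_continuousAt (hf : Integrable f) {z : ℂ} (hz : 0 < z.im) :
    ContinuousAt (qf f) z := by
  unfold qf
  apply ContinuousAt.mul continuousAt_const
  apply ContinuousAt.add (CT_continuousAt hf hz)
  exact Complex.continuous_conj.continuousAt.comp (Bf_differentiableAt hf hz).continuousAt

/-- membership in the parabolic region -/
lemma wf_data (f : ℝ → ℂ) (z : ℂ) (hq : ‖qf f z‖ ≤ 1) : ∃ ζ : ℂ, ζ ^ 2 = wf f z ∧ |ζ.im| ≤ 1 ∧
    |ζ.re| ≤ ‖pf f z‖ ∧ |ζ.im| ≤ ‖qf f z‖ ∧ ζ.re ^ 2 - ζ.im ^ 2 = ‖pf f z‖ ^ 2 - ‖qf f z‖ ^ 2 := by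
  obtain ⟨ζ, hζ⟩ := exists_sq (wf f z)
  obtain ⟨h1, h2, h3⟩ := zeta_bounds (a := CT f z) (b := Bf f z) hζ
  have h4 : |ζ.im| ≤ ‖qf f z‖ := by
    apply abs_le_of_sq_le_sq _ (norm_nonneg _)
    exact h2
  have h5 : |ζ.re| ≤ ‖pf f z‖ := by
    apply abs_le_of_sq_le_sq _ (norm_nonneg _)
    exact h1
  exact ⟨ζ, hζ, h4.trans hq, h5, h4, h3⟩

lemma wf_mem (z : ℂ) (hq : ‖qf f z‖ ≤ 1) : wf f z ∈ Pbar := by
  obtain ⟨ζ, h1, h2, _⟩ := wf_data f z hq
  exact ⟨ζ, h1, h2⟩

lemma kf_le_norm_p (z : ℂ) (hq : ‖qf f z‖ = 1) : kf (wf f z) ≤ ‖pf f z‖ := by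
  obtain ⟨ζ, h1, h2, _, _, h5⟩ := wf_data f z hq.le
  rw [← h1]
  refine (kf_le_sqrt h2).trans ?_
  rw [h5, hq]
  apply le_of_eq
  rw [show ‖pf f z‖ ^ 2 - 1 ^ 2 + 1 = ‖pf f z‖ ^ 2 by ring]
  exact Real.sqrt_sq (norm_nonneg _)

/-- The subharmonic function. -/
noncomputable def Psi (f : ℝ → ℂ) (z : ℂ) : ℝ :=
  if ‖qf f z‖ ≤ 1 then max (kf (wf f z)) ‖pf f z‖ else ‖pf f z‖

lemma Psi_of_le {z : ℂ} (hq : ‖qf f z‖ ≤ 1) : Psi f z = max (kf (wf f z)) ‖pf f z‖ := by
  unfold Psi; rw [if_pos hq]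

lemma Psi_of_ge {z : ℂ} (hq : 1 ≤ ‖qf f z‖) : Psi f z = ‖pf f z‖ := by
  unfold Psi
  split_ifs with h
  · have h1 : ‖qf f z‖ = 1 := le_antisymm h hq
    exact max_eq_right (kf_le_norm_p z h1)
  · rfl

lemma norm_p_le_Psi (z : ℂ) : ‖pf f z‖ ≤ Psi f z := by
  unfold Psi
  split_ifs with h
  · exact le_max_right _ _
  · exact le_rfl

lemma Psi_le (z : ℂ) : Psi f z ≤ kap + ‖pf f z‖ := by
  by_cases h : ‖qf f z‖ ≤ 1
  · rw [Psi_of_le h]
    apply max_le
    · obtain ⟨ζ, h1, h2, h3, _, _⟩ := wf_data f z h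
      rw [← h1]
      have := kf_le_kap_add h2
      linarith
    · linarith [kap_nonneg]
  · rw [Psi_of_ge (not_le.1 h).le]
    linarith [kap_nonneg]

lemma Psi_continuousOn (hf : Integrable f) {σ : ℝ} (hσ : 0 < σ) :
    ContinuousOn (Psi f) {z | σ ≤ z.im} := by
  have hp : ContinuousOn (fun z => ‖pf f z‖) {z | σ ≤ z.im} := fun z hz =>
    (pf_continuousAt hf (hσ.trans_le hz)).norm.continuousWithinAt
  have hq : ContinuousOn (fun z => ‖qf f z‖) {z | σ ≤ z.im} := fun z hz =>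
    (qf_continuousAt hf (hσ.trans_le hz)).norm.continuousWithinAt
  have hw : ContinuousOn (fun z => wf f z) {z | σ ≤ z.im} := fun z hz =>
    (wf_differentiableAt hf (hσ.trans_le hz)).continuousAt.continuousWithinAt
  have hcl : IsClosed {z : ℂ | σ ≤ z.im} := isClosed_le continuous_const Complex.continuous_im
  have hS1 : IsClosed ({z : ℂ | σ ≤ z.im} ∩ (fun z => ‖qf f z‖) ⁻¹' (Iic 1)) :=
    hq.preimage_isClosed_of_isClosed hcl isClosed_Iic
  have hS2 : IsClosed ({z : ℂ | σ ≤ z.im} ∩ (fun z => ‖qf f z‖) ⁻¹' (Ici 1)) :=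
    hq.preimage_isClosed_of_isClosed hcl isClosed_Ici
  have hc1 : ContinuousOn (Psi f) ({z : ℂ | σ ≤ z.im} ∩ (fun z => ‖qf f z‖) ⁻¹' (Iic 1)) := by
    have : ContinuousOn (fun z => max (kf (wf f z)) ‖pf f z‖)
        ({z : ℂ | σ ≤ z.im} ∩ (fun z => ‖qf f z‖) ⁻¹' (Iic 1)) := by
      apply ContinuousOn.sup
      · exact kf_continuousOn.comp (hw.mono inter_subset_left) (fun z hz => wf_mem z hz.2)
      · exact hp.mono inter_subset_left
    exact this.congr (fun z hz => Psi_of_le hz.2)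
  have hc2 : ContinuousOn (Psi f) ({z : ℂ | σ ≤ z.im} ∩ (fun z => ‖qf f z‖) ⁻¹' (Ici 1)) :=
    (hp.mono inter_subset_left).congr (fun z hz => Psi_of_ge hz.2)
  have hunion : {z : ℂ | σ ≤ z.im} = ({z : ℂ | σ ≤ z.im} ∩ (fun z => ‖qf f z‖) ⁻¹' (Iic 1)) ∪
      ({z : ℂ | σ ≤ z.im} ∩ (fun z => ‖qf f z‖) ⁻¹' (Ici 1)) := by
    rw [← inter_union_distrib_left, ← preimage_union, Iic_union_Ici, preimage_univ, inter_univ]
  rw [hunion]
  exact hc1.union_of_isClosed hc2 hS1 hS2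

lemma norm_circleAverage_le {F : ℂ → ℂ} {c : ℂ} {R : ℝ} :
    ‖circleAverage F c R‖ ≤ circleAverage (fun z => ‖F z‖) c R := by
  unfold circleAverage
  rw [norm_smul, smul_eq_mul, Real.norm_of_nonneg (inv_nonneg.2 Real.two_pi_pos.le)]
  gcongr
  exact intervalIntegral.norm_integral_le_integral_norm Real.two_pi_pos.le

lemma pf_mean (hf : Integrable f) {z : ℂ} {r : ℝ} (hr : 0 < r) (hz : 0 < z.im - r) :
    circleAverage (pf f) z r = pf f z := by
  have hball : ∀ w ∈ closedBall z r, 0 < w.im := by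
    intro w hw
    rw [mem_closedBall, dist_eq_norm] at hw
    have h1 : |(w - z).im| ≤ r := (Complex.abs_im_le_norm _).trans hw
    rw [Complex.sub_im, abs_le] at h1
    linarith [h1.1]
  have hdc : ∀ g : ℝ → ℂ, Integrable g → DiffContOnCl ℂ (CT g) (ball z |r|) := by
    intro g hg
    rw [abs_of_pos hr]
    refine ⟨fun w hw => (CT_differentiableAt hg
      (hball w (ball_subset_closedBall hw))).differentiableWithinAt, ?_⟩
    rw [closure_ball _ hr.ne']
    exact fun w hw => (CT_differentiableAt hg (hball w hw)).continuousAt.continuousWithinAt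
  have hci : ∀ g : ℝ → ℂ, Integrable g → CircleIntegrable (CT g) z r := by
    intro g hg
    apply ContinuousOn.circleIntegrable hr.le
    intro w hw
    exact (CT_differentiableAt hg (hball w (sphere_subset_closedBall hw))).continuousAt.continuousWithinAt
  have h1 := (hdc f hf).circleAverage
  have h2 := (hdc _ (conj_integrable hf)).circleAverage
  have h3 := ((Complex.conjCLE : ℂ ≃L[ℝ] ℂ).toContinuousLinearMap).circleAverage_comp_comm
    (hci _ (conj_integrable hf))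
  have h4 : circleAverage (fun w => conj (Bf f w)) z r = conj (Bf f z) := by
    rw [h2] at h3
    exact h3
  have hci2 : CircleIntegrable (fun w => conj (Bf f w)) z r := by
    apply ContinuousOn.circleIntegrable hr.le
    intro w hw
    exact (Complex.continuous_conj.continuousAt.comp (Bf_differentiableAt hf
      (hball w (sphere_subset_closedBall hw))).continuousAt).continuousWithinAt
  have h5 : (pf f) = fun w => (I / 2 : ℂ) • (CT f w - conj (Bf f w)) := by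
    ext w; rfl
  rw [h5, circleAverage_fun_smul, circleAverage_fun_sub (hci f hf) hci2, h1, h4]

lemma Psi_localSub (hf : Integrable f) {z : ℂ} (hz : 0 < z.im) : LocalSub (Psi f) z := by
  -- general sub mean value for `‖pf‖`
  have hpsub : ∀ r, 0 < r → r < z.im / 2 → ‖pf f z‖ ≤ circleAverage (fun w => ‖pf f w‖) z r := by
    intro r hr hr2
    rw [← pf_mean hf hr (by linarith)]
    exact norm_circleAverage_le
  have hball : ∀ r, 0 < r → r < z.im / 2 → closedBall z r ⊆ {w : ℂ | z.im / 2 ≤ w.im} := by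
    intro r hr hr2 w hw
    rw [mem_closedBall, dist_eq_norm] at hw
    have h1 : |(w - z).im| ≤ r := (Complex.abs_im_le_norm _).trans hw
    rw [Complex.sub_im, abs_le] at h1
    show z.im / 2 ≤ w.im
    linarith [h1.1]
  have hz2 : 0 < z.im / 2 := by linarith
  have hcont := Psi_continuousOn hf hz2
  have hciΨ : ∀ r, 0 < r → r < z.im / 2 → CircleIntegrable (Psi f) z r := by
    intro r hr hr2
    exact ContinuousOn.circleIntegrable hr.le
      (hcont.mono (sphere_subset_closedBall.trans (hball r hr hr2)))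
  have hcip : ∀ r, 0 < r → r < z.im / 2 → CircleIntegrable (fun w => ‖pf f w‖) z r := by
    intro r hr hr2
    apply ContinuousOn.circleIntegrable hr.le
    intro w hw
    have : z.im / 2 ≤ w.im := hball r hr hr2 (sphere_subset_closedBall hw)
    exact (pf_continuousAt hf (hz2.trans_le this)).norm.continuousWithinAt
  -- case p
  have hcasep : Psi f z = ‖pf f z‖ → LocalSub (Psi f) z := by
    intro h
    refine ⟨z.im / 2, hz2, fun r hr hr2 => ?_⟩
    rw [h]
    refine (hpsub r hr hr2).trans ?_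
    exact circleAverage_mono (hcip r hr hr2) (hciΨ r hr hr2) (fun w _ => norm_p_le_Psi w)
  by_cases hq : 1 ≤ ‖qf f z‖
  · exact hcasep (Psi_of_ge hq)
  · push Not at hq
    rcases le_total (kf (wf f z)) ‖pf f z‖ with h | h
    · apply hcasep
      rw [Psi_of_le hq.le, max_eq_right h]
    · -- harmonic case
      have hqc : ContinuousAt (fun w => ‖qf f w‖) z := (qf_continuousAt hf hz).norm
      have hev : ∀ᶠ w in 𝓝 z, ‖qf f w‖ < 1 := hqc.eventually (gt_mem_nhds hq)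
      obtain ⟨δ, hδ, hδ2⟩ := Metric.eventually_nhds_iff_ball.1 hev
      refine ⟨min (z.im / 2) δ, lt_min hz2 hδ, fun r hr hr2 => ?_⟩
      have hr3 : r < z.im / 2 := hr2.trans_le (min_le_left _ _)
      have hr4 : r < δ := hr2.trans_le (min_le_right _ _)
      have hqs : ∀ w ∈ closedBall z r, ‖qf f w‖ < 1 := fun w hw =>
        hδ2 w (lt_of_le_of_lt hw hr4)
      have hW : DiffContOnCl ℂ (wf f) (ball z r) := by
        refine ⟨fun w hw => (wf_differentiableAt hf ?_).differentiableWithinAt, ?_⟩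
        · have : z.im / 2 ≤ w.im := hball r hr hr3 (ball_subset_closedBall hw)
          linarith
        · rw [closure_ball _ hr.ne']
          intro w hw
          have : z.im / 2 ≤ w.im := hball r hr hr3 hw
          exact (wf_differentiableAt hf (by linarith)).continuousAt.continuousWithinAt
      have hmean := kf_mean hr hW (fun w hw => wf_mem w (hqs w (sphere_subset_closedBall hw)).le)
      rw [Psi_of_le hq.le, max_eq_left h, ← hmean]
      apply circleAverage_mono _ (hciΨ r hr hr3)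
      · intro w hw
        rw [abs_of_pos hr] at hw
        rw [Psi_of_le (hqs w (sphere_subset_closedBall hw)).le]
        exact le_max_left _ _
      · apply ContinuousOn.circleIntegrable hr.le
        apply kf_continuousOn.comp _ (fun w hw => wf_mem w (hqs w (sphere_subset_closedBall hw)).le)
        intro w hw
        have : z.im / 2 ≤ w.im := hball r hr hr3 (sphere_subset_closedBall hw)
        exact (wf_differentiableAt hf (by linarith)).continuousAt.continuousWithinAt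

lemma norm_p_le (z : ℂ) : ‖pf f z‖ ≤ (‖CT f z‖ + ‖Bf f z‖) / 2 := by
  unfold pf
  rw [norm_mul, norm_div, Complex.norm_I]
  have h1 : ‖CT f z - conj (Bf f z)‖ ≤ ‖CT f z‖ + ‖Bf f z‖ := by
    refine (norm_sub_le _ _).trans ?_
    rw [Complex.norm_conj]
  have h2 : ‖(2 : ℂ)‖ = 2 := by simp
  rw [h2]
  linarith

lemma norm_q_le (z : ℂ) : ‖qf f z‖ ≤ (‖CT f z‖ + ‖Bf f z‖) / 2 := by
  unfold qf
  rw [norm_mul, norm_div, norm_one]
  have h1 : ‖CT f z + conj (Bf f z)‖ ≤ ‖CT f z‖ + ‖Bf f z‖ := by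
    refine (norm_add_le _ _).trans ?_
    rw [Complex.norm_conj]
  have h2 : ‖(2 : ℂ)‖ = 2 := by simp
  rw [h2]
  linarith

/-- quadratic estimate -/
lemma Psi_sub_kap_le (hf : Integrable f) {σ : ℝ} (hσ : 0 < σ) :
    ∃ C : ℝ, 0 ≤ C ∧ ∀ z : ℂ, σ ≤ z.im →
      |Psi f z - kap| ≤ C * (‖CT f z‖ ^ 2 + ‖Bf f z‖ ^ 2) := by
  set N := π⁻¹ * (σ⁻¹ * ∫ t, ‖f t‖) with hN
  have hN0 : 0 ≤ N := by
    have : 0 ≤ ∫ t, ‖f t‖ := integral_nonneg fun _ => norm_nonneg _
    have hpi := Real.pi_pos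
    positivity
  have hAN : ∀ z : ℂ, σ ≤ z.im → ‖CT f z‖ ≤ N := by
    intro z hz
    refine (CT_norm_le hf (hσ.trans_le hz)).trans ?_
    have : 0 ≤ ∫ t, ‖f t‖ := integral_nonneg fun _ => norm_nonneg _
    have hpi := Real.pi_pos
    rw [hN]
    gcongr
  have hBN : ∀ z : ℂ, σ ≤ z.im → ‖Bf f z‖ ≤ N := by
    intro z hz
    refine (CT_norm_le (conj_integrable hf) (hσ.trans_le hz)).trans ?_
    have h1 : ∫ t, ‖conj (f t)‖ = ∫ t, ‖f t‖ := by
      congr 1; ext t; exact Complex.norm_conj _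
    rw [h1]
    have : 0 ≤ ∫ t, ‖f t‖ := integral_nonneg fun _ => norm_nonneg _
    have hpi := Real.pi_pos
    rw [hN]
    gcongr
  set δ := min (1 / 2) (kap / 2) with hδ
  have hδ0 : 0 < δ := lt_min (by norm_num) (by linarith [kap_pos])
  have hδ1 : δ ≤ 1 / 2 := min_le_left _ _
  have hδ2 : δ ≤ kap / 2 := min_le_right _ _
  have hc0 := c0_pos
  refine ⟨2 / c0 + (kap + N) / δ ^ 2, ?_, fun z hz => ?_⟩
  · have := kap_nonneg
    positivity
  have hk0 := kap_nonneg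
  have hA0 := norm_nonneg (CT f z)
  have hB0 := norm_nonneg (Bf f z)
  by_cases hsmall : ‖CT f z‖ ≤ δ ∧ ‖Bf f z‖ ≤ δ
  · obtain ⟨hA, hB⟩ := hsmall
    have hq : ‖qf f z‖ ≤ 1 / 2 := (norm_q_le z).trans (by linarith)
    have hp : ‖pf f z‖ ≤ kap / 2 := (norm_p_le z).trans (by linarith)
    have hq1 : ‖qf f z‖ ≤ 1 := hq.trans (by norm_num)
    have hwn : ‖wf f z‖ = ‖CT f z‖ * ‖Bf f z‖ := by
      unfold wf; rw [norm_neg, norm_mul]
    have hw1 : ‖wf f z‖ ≤ 1 / 4 := by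
      rw [hwn]
      have h1 : ‖CT f z‖ ≤ 1 / 2 := hA.trans hδ1
      have h2 : ‖Bf f z‖ ≤ 1 / 2 := hB.trans hδ1
      nlinarith
    obtain ⟨ζ, hζ1, hζ2, hζ3, hζ4, hζ5⟩ := wf_data f z hq1
    have hkge : ‖pf f z‖ ≤ kf (wf f z) := by
      have h1 := kap_mul_le_kf hζ2
      rw [hζ1] at h1
      have h2 : ζ.im ^ 2 ≤ 1 / 4 := by
        rw [← sq_abs]
        have h3 : |ζ.im| ≤ 1 / 2 := hζ4.trans hq
        nlinarith [abs_nonneg ζ.im]
      nlinarith
    rw [Psi_of_le hq1, max_eq_left hkge]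
    have h1 := kf_sub_kap_le hw1
    have h2 : ‖wf f z‖ ≤ ‖CT f z‖ ^ 2 + ‖Bf f z‖ ^ 2 := by
      rw [hwn]
      nlinarith [sq_nonneg (‖CT f z‖ - ‖Bf f z‖), sq_nonneg (‖CT f z‖), sq_nonneg (‖Bf f z‖)]
    have h3 : 0 ≤ (kap + N) / δ ^ 2 := by positivity
    have h4 : 0 ≤ ‖CT f z‖ ^ 2 + ‖Bf f z‖ ^ 2 := by positivity
    calc |kf (wf f z) - kap| ≤ 2 / c0 * ‖wf f z‖ := h1
      _ ≤ 2 / c0 * (‖CT f z‖ ^ 2 + ‖Bf f z‖ ^ 2) := by gcongr
      _ ≤ (2 / c0 + (kap + N) / δ ^ 2) * (‖CT f z‖ ^ 2 + ‖Bf f z‖ ^ 2) := by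
          gcongr
          linarith
  · have hbig : δ ^ 2 ≤ ‖CT f z‖ ^ 2 + ‖Bf f z‖ ^ 2 := by
      rw [not_and_or] at hsmall
      rcases hsmall with h | h
      · push Not at h
        have : δ ^ 2 ≤ ‖CT f z‖ ^ 2 := by gcongr
        nlinarith [sq_nonneg ‖Bf f z‖]
      · push Not at h
        have : δ ^ 2 ≤ ‖Bf f z‖ ^ 2 := by gcongr
        nlinarith [sq_nonneg ‖CT f z‖]
    have h1 : |Psi f z - kap| ≤ kap + N := by
      have h2 := Psi_le (f := f) z
      have h3 := norm_p_le_Psi (f := f) z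
      have h4 : ‖pf f z‖ ≤ N := (norm_p_le z).trans (by linarith [hAN z hz, hBN z hz])
      have h5 := norm_nonneg (pf f z)
      rw [abs_le]
      constructor <;> linarith
    have h3 : 0 ≤ 2 / c0 := by positivity
    have h4 : 0 ≤ ‖CT f z‖ ^ 2 + ‖Bf f z‖ ^ 2 := by positivity
    calc |Psi f z - kap| ≤ kap + N := h1
      _ = (kap + N) / δ ^ 2 * δ ^ 2 := by field_simp
      _ ≤ (kap + N) / δ ^ 2 * (‖CT f z‖ ^ 2 + ‖Bf f z‖ ^ 2) := by gcongr
      _ ≤ (2 / c0 + (kap + N) / δ ^ 2) * (‖CT f z‖ ^ 2 + ‖Bf f z‖ ^ 2) := by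
          gcongr
          linarith

lemma Psi_integrable (hf : Integrable f) {σ : ℝ} (hσ : 0 < σ) :
    Integrable (fun x : ℝ => Psi f (x + σ * I) - kap) := by
  obtain ⟨C, hC, hb⟩ := Psi_sub_kap_le hf hσ
  have h1 := ((CT_sq_integrable hf hσ).add (CT_sq_integrable (conj_integrable hf) hσ)).const_mul C
  refine h1.mono' ?_ (Eventually.of_forall fun x => ?_)
  · apply Continuous.aestronglyMeasurable
    apply Continuous.sub _ continuous_const
    rw [← continuousOn_univ]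
    refine (Psi_continuousOn hf hσ).comp (by fun_prop) ?_
    intro x _
    show σ ≤ ((x : ℂ) + σ * I).im
    simp
  · rw [Real.norm_eq_abs]
    exact hb _ (by simp)

theorem Psi_integral_nonneg (hf : Integrable f) {σ : ℝ} (hσ : 0 < σ) :
    0 ≤ ∫ x : ℝ, (Psi f (x + σ * I) - kap) := by
  obtain ⟨C, hC, hb⟩ := Psi_sub_kap_le hf hσ
  refine integral_nonneg_of_sub (Psi_continuousOn hf hσ)
    (fun z hz => Psi_localSub hf (hσ.trans hz)) (Psi_integrable hf hσ) ?_ ?_
  · intro ε hε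
    set η := Real.sqrt (ε / (2 * (C + 1))) with hη
    have hη0 : 0 < η := Real.sqrt_pos.2 (by positivity)
    have hη2 : η ^ 2 = ε / (2 * (C + 1)) := Real.sq_sqrt (by positivity)
    obtain ⟨R₁, hR₁⟩ := CT_small hf hσ η hη0
    obtain ⟨R₂, hR₂⟩ := CT_small (conj_integrable hf) hσ η hη0
    refine ⟨max R₁ R₂, fun z hz hzR => ?_⟩
    have h1 := hR₁ z hz ((le_max_left _ _).trans hzR)
    have h2 : ‖Bf f z‖ ≤ η := hR₂ z hz ((le_max_right _ _).trans hzR)
    refine (hb z hz).trans ?_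
    calc C * (‖CT f z‖ ^ 2 + ‖Bf f z‖ ^ 2) ≤ C * (η ^ 2 + η ^ 2) := by gcongr
      _ = (C / (C + 1)) * ε := by rw [hη2]; field_simp; ring
      _ ≤ 1 * ε := by
          gcongr
          rw [div_le_one (by positivity)]; linarith
      _ = ε := one_mul _
  · -- decay
    set N := ∫ t, ‖f t‖ with hN
    have hN0 : 0 ≤ N := integral_nonneg fun _ => norm_nonneg _
    have hlim : Tendsto (fun R : ℝ => (C * (2 * (π⁻¹ * N) ^ 2)) * R⁻¹) atTop (𝓝 0) := by
      have := (tendsto_inv_atTop_zero (𝕜 := ℝ)).const_mul (C * (2 * (π⁻¹ * N) ^ 2))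
      rwa [mul_zero] at this
    refine squeeze_zero_norm' ?_ hlim
    filter_upwards [eventually_ge_atTop σ, eventually_gt_atTop 0] with R hR hR0
    have him : ((R : ℂ) * I).im = R := by simp
    have h1 : ‖CT f (R * I)‖ ≤ π⁻¹ * N * R⁻¹ := by
      have := CT_norm_le hf (z := R * I) (by rw [him]; exact hR0)
      rw [him] at this
      linarith [this, (by ring : π⁻¹ * (R⁻¹ * N) = π⁻¹ * N * R⁻¹)]
    have h2 : ‖Bf f (R * I)‖ ≤ π⁻¹ * N * R⁻¹ := by
      have := CT_norm_le (conj_integrable hf) (z := R * I) (by rw [him]; exact hR0)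
      rw [him] at this
      have h3 : ∫ t, ‖conj (f t)‖ = N := by
        rw [hN]; congr 1; ext t; exact Complex.norm_conj _
      rw [h3] at this
      have h4 : π⁻¹ * (R⁻¹ * N) = π⁻¹ * N * R⁻¹ := by ring
      rw [h4] at this
      exact this
    have h3 := hb (R * I) (by rw [him]; exact hR)
    rw [norm_mul, Real.norm_eq_abs, Real.norm_eq_abs, abs_of_pos hR0]
    have hpi := Real.pi_pos
    calc R * |Psi f (R * I) - kap| ≤ R * (C * (‖CT f (R * I)‖ ^ 2 + ‖Bf f (R * I)‖ ^ 2)) := by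
          gcongr
      _ ≤ R * (C * ((π⁻¹ * N * R⁻¹) ^ 2 + (π⁻¹ * N * R⁻¹) ^ 2)) := by gcongr
      _ = (C * (2 * (π⁻¹ * N) ^ 2)) * R⁻¹ := by field_simp; ring

end Pool.Agent.Helper60
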