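import Pool.Agent.Helper60.Upper

open MeasureTheory Set Filter Topology Metric Complex
open scoped Real Nat ComplexConjugate

namespace Pool.Agent.Helper60

/-- conjugate Poisson kernel -/
noncomputable def qk (τ s : ℝ) : ℝ := π⁻¹ * (s / (s ^ 2 + τ ^ 2))

variable {f : ℝ → ℂ}

lemma conj_Bf_eq (f : ℝ → ℂ) (z : ℂ) :
    conj (Bf f z) = (π : ℂ)⁻¹ * ∫ t : ℝ, f t * conj ((z - t)⁻¹) := by
  unfold Bf CT
  rw [map_mul, map_inv₀, Complex.conj_ofReal, ← integral_conj]
  congr 2
  ext t
  rw [div_eq_mul_inv, map_mul, Complex.conj_conj]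

lemma inv_re_formula (z : ℂ) (t : ℝ) : ((z - t)⁻¹).re =
    (z.re - t) / ((z.re - t) ^ 2 + z.im ^ 2) := by
  have hn : Complex.normSq (z - t) = (z.re - t) ^ 2 + z.im ^ 2 := by
    rw [Complex.normSq_apply]; simp; ring
  rw [Complex.inv_re, hn]; simp

lemma inv_im_formula (z : ℂ) (t : ℝ) : ((z - t)⁻¹).im =
    -(z.im / ((z.re - t) ^ 2 + z.im ^ 2)) := by
  have hn : Complex.normSq (z - t) = (z.re - t) ^ 2 + z.im ^ 2 := by
    rw [Complex.normSq_apply]; simp; ring
  rw [Complex.inv_im, hn]; simp; ring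

lemma conj_kernel_integrable (hf : Integrable f) {z : ℂ} (hz : 0 < z.im) :
    Integrable (fun t : ℝ => f t * conj ((z - t)⁻¹)) := by
  refine hf.mul_bdd (c := z.im⁻¹) ?_ (Eventually.of_forall fun t => ?_)
  · exact (Complex.continuous_conj.comp (CT_kernel_cont hz)).aestronglyMeasurable
  · rw [Complex.norm_conj]; exact CT_kernel_norm_le hz t

lemma pf_eq (hf : Integrable f) {z : ℂ} (hz : 0 < z.im) :
    pf f z = ∫ t, (pk z.im (z.re - t) : ℂ) * f t := by
  unfold pf
  rw [conj_Bf_eq]
  unfold CT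
  rw [← mul_sub, ← integral_sub (CT_integrand_integrable hf hz) (conj_kernel_integrable hf hz),
    ← integral_const_mul, ← integral_const_mul]
  congr 1
  ext t
  rw [div_eq_mul_inv (f t), ← mul_sub, Complex.sub_conj, inv_im_formula z t]
  unfold pk
  push_cast
  linear_combination ((π : ℂ)⁻¹ * f t * (-(z.im / ((z.re - t) ^ 2 + z.im ^ 2)))) * (Complex.I_sq)

lemma qf_eq (hf : Integrable f) {z : ℂ} (hz : 0 < z.im) :
    qf f z = ∫ t, (qk z.im (z.re - t) : ℂ) * f t := by
  unfold qf
  rw [conj_Bf_eq]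
  unfold CT
  rw [← mul_add, ← integral_add (CT_integrand_integrable hf hz) (conj_kernel_integrable hf hz),
    ← integral_const_mul, ← integral_const_mul]
  congr 1
  ext t
  rw [div_eq_mul_inv (f t), ← mul_add, Complex.add_conj, inv_re_formula z t]
  unfold qk
  push_cast
  ring

lemma pk_continuous {σ : ℝ} (hσ : 0 < σ) : Continuous (pk σ) := by
  unfold pk
  apply Continuous.mul continuous_const
  apply Continuous.div continuous_const (by fun_prop)
  intro s; positivity

lemma pk_integrable' {σ : ℝ} (hσ : 0 < σ) : Integrable (pk σ) := by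
  have := (pk_integrable 0 hσ).comp_neg
  simpa using this

lemma pk_integral' {σ : ℝ} (hσ : 0 < σ) : ∫ s, pk σ s = 1 := by
  have := pk_integral 0 hσ
  have h2 := integral_neg_eq_self (fun t => pk σ (0 - t)) volume
  rw [this] at h2
  rw [← h2]
  congr 1
  ext t
  simp

lemma pf_norm_bound (hf : Integrable f) {σ : ℝ} (hσ : 0 < σ) :
    Integrable (fun x : ℝ => ‖pf f (x + σ * I)‖) ∧
      ∫ x : ℝ, ‖pf f (x + σ * I)‖ ≤ ∫ t, ‖f t‖ := by
  have hre : ∀ x : ℝ, ((x : ℂ) + σ * I).re = x := by intro x; simp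
  have him : ∀ x : ℝ, ((x : ℂ) + σ * I).im = σ := by intro x; simp
  have hconv := hf.norm.integrable_convolution (ContinuousLinearMap.mul ℝ ℝ) (pk_integrable' hσ)
  have hcv : Integrable (fun x : ℝ => ∫ t, ‖f t‖ * pk σ (x - t)) := hconv
  have hle : ∀ x : ℝ, ‖pf f (x + σ * I)‖ ≤ ∫ t, ‖f t‖ * pk σ (x - t) := by
    intro x
    rw [pf_eq hf (by rw [him]; exact hσ), hre, him]
    refine (norm_integral_le_integral_norm _).trans (le_of_eq ?_)
    congr 1
    ext t
    rw [norm_mul, Complex.norm_real, Real.norm_of_nonneg (pk_nonneg hσ.le _), mul_comm]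
  have hint : Integrable (fun x : ℝ => ‖pf f (x + σ * I)‖) := by
    refine hcv.mono' ?_ (Eventually.of_forall fun x => ?_)
    · apply Continuous.aestronglyMeasurable
      rw [continuous_iff_continuousAt]
      intro x
      have h1 := (pf_continuousAt hf (z := x + σ * I) (by rw [him]; exact hσ)).norm
      have h2 : ContinuousAt (fun x : ℝ => (x : ℂ) + σ * I) x := by fun_prop
      exact ContinuousAt.comp (g := fun z => ‖pf f z‖) h1 h2
    · rw [norm_norm]; exact hle x
  refine ⟨hint, (integral_mono hint hcv hle).trans (le_of_eq ?_)⟩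
  have h3 := integral_convolution (ContinuousLinearMap.mul ℝ ℝ) hf.norm (pk_integrable' hσ)
  rw [pk_integral' hσ] at h3
  simpa [convolution] using h3

/-- weak type inequality at height `σ`, level one -/
theorem weak_height (hf : Integrable f) {σ : ℝ} (hσ : 0 < σ) :
    ENNReal.ofReal kap * volume {x : ℝ | 1 ≤ ‖qf f (x + σ * I)‖} ≤
      ENNReal.ofReal (∫ t, ‖f t‖) := by
  have him : ∀ x : ℝ, ((x : ℂ) + σ * I).im = σ := by intro x; simp
  obtain ⟨hpi, hple⟩ := pf_norm_bound hf hσ
  have h0 := Psi_integral_nonneg hf hσ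
  have hΨi := Psi_integrable hf hσ
  set S := {x : ℝ | 1 ≤ ‖qf f (x + σ * I)‖} with hS
  have hqc : Continuous (fun x : ℝ => ‖qf f (x + σ * I)‖) := by
    rw [continuous_iff_continuousAt]
    intro x
    have h1 := (qf_continuousAt hf (z := x + σ * I) (by rw [him]; exact hσ)).norm
    have h2 : ContinuousAt (fun x : ℝ => (x : ℂ) + σ * I) x := by fun_prop
    exact ContinuousAt.comp (g := fun z => ‖qf f z‖) h1 h2
  have hSm : MeasurableSet S := (isClosed_le continuous_const hqc).measurableSet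
  set D : ℝ → ℝ := fun x => ‖pf f (x + σ * I)‖ - (Psi f (x + σ * I) - kap) with hD
  have hDi : Integrable D := hpi.sub hΨi
  have hD0 : ∀ x, 0 ≤ D x := by
    intro x
    have := Psi_le (f := f) (x + σ * I)
    simp only [hD]; linarith
  have hDS : ∀ x ∈ S, D x = kap := by
    intro x hx
    simp only [hD]
    rw [Psi_of_ge hx]; ring
  have hDint : ∫ x, D x ≤ ∫ t, ‖f t‖ := by
    rw [hD, integral_sub hpi hΨi]
    linarith
  calc ENNReal.ofReal kap * volume S = ∫⁻ x in S, ENNReal.ofReal kap := by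
        rw [setLIntegral_const]
    _ = ∫⁻ x in S, ENNReal.ofReal (D x) := by
        apply setLIntegral_congr_fun hSm
        intro x hx
        simp only
        rw [hDS x hx]
    _ ≤ ∫⁻ x, ENNReal.ofReal (D x) := setLIntegral_le_lintegral _ _
    _ = ENNReal.ofReal (∫ x, D x) :=
        (ofReal_integral_eq_lintegral_ofReal hDi (Eventually.of_forall hD0)).symm
    _ ≤ _ := ENNReal.ofReal_le_ofReal hDint

end Pool.Agent.Helper60
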